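import Pool.Agent.SYD.WGl
import Pool.Agent.SYH.WGu

/-!
# SYD/GlW: gluing of local weak derivatives

Countably many of the sets `W` cover `Ω` (`TopologicalSpace.isOpen_iUnion_countable`, or `countable_cover_nhdsWithin`): `W_k`, `G_k`, `k ∈ ℕ` (repeat sets if
necessary; if `Ω` is empty everything is trivial).  `G x = G_k x` for the least `k` with `x ∈ W_k` (`0` if there is none).  On `W_k ∩ W_l`:
`G_k = G_l` a.e. (`WG.unique` for each component), so `G = G_k` a.e. on `W_k` (countably many null sets).  `LpL 2`: `LpL.loc`, `LpL.congr`.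
`WG`: `WG.loc` (`φ_b` is continuous) or `WGL.loc`.  The property `P`: `ae_loc`.
-/

open MeasureTheory Set Filter Topology
open scoped ContDiff Matrix ENNReal

namespace Pool.Agent.SYD

open Pool.Agent.SYH

theorem glueWD {Ω : Set R4} (hΩ : IsOpen Ω) {φ : R4 → R4} (hφ : ContinuousOn φ Ω)
    {P : Matrix (Fin 4) (Fin 4) ℝ → Prop}
    (h : ∀ x ∈ Ω, ∃ W, IsOpen W ∧ x ∈ W ∧ W ⊆ Ω ∧ ∃ G, IsWD 2 W φ G ∧
      ∀ᵐ y, y ∈ W → P (G y)) :
    ∃ G, IsWD 2 Ω φ G ∧ ∀ᵐ y, y ∈ Ω → P (G y) := by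
  classical
  rcases Ω.eq_empty_or_nonempty with h0 | h0
  · subst h0
    refine ⟨fun _ => 0, ⟨fun _ _ => LpL.zero, fun b => ?_⟩, Eventually.of_forall fun y hy => hy.elim⟩
    intro ψ hψ a
    have h1 : ψ = 0 := tsupport_eq_empty_iff.1 (Set.subset_empty_iff.1 hψ.supp)
    have h2 : ∀ x, pd a ψ x = 0 := by
      intro x
      rw [h1, pd]
      simp
    simp only [h2, mul_zero]
    simp [h1]
  choose! W h1 h2 h3 G h4 h5 using h
  obtain ⟨t, ht1, ht2, ht3⟩ := TopologicalSpace.countable_cover_nhdsWithin (s := Ω) (f := W)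
    fun x hx => mem_nhdsWithin_of_mem_nhds ((h1 x hx).mem_nhds (h2 x hx))
  have ht : t.Nonempty := by
    rcases t.eq_empty_or_nonempty with h6 | h6
    · obtain ⟨x, hx⟩ := h0
      have := ht3 hx
      rw [h6] at this
      simp at this
    · exact h6
  obtain ⟨c, hc⟩ := ht2.exists_eq_range ht
  have hcΩ : ∀ k, c k ∈ Ω := fun k => ht1 (by rw [hc]; exact mem_range_self k)
  have hcov : ∀ x ∈ Ω, ∃ k, x ∈ W (c k) := by
    intro x hx
    obtain ⟨y, hy, hxy⟩ := mem_iUnion₂.1 (ht3 hx)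
    rw [hc] at hy
    obtain ⟨k, rfl⟩ := hy
    exact ⟨k, hxy⟩
  have two : (1 : ℝ≥0∞) ≤ 2 := by norm_num
  -- two local derivatives agree
  have huniq : ∀ k l, ∀ᵐ y, y ∈ W (c k) ∩ W (c l) → G (c l) y = G (c k) y := by
    intro k l
    have hO : IsOpen (W (c k) ∩ W (c l)) := (h1 _ (hcΩ k)).inter (h1 _ (hcΩ l))
    have key : ∀ b : Fin 4, ∀ᵐ y, y ∈ W (c k) ∩ W (c l) → G (c l) y b = G (c k) y b := fun b =>
      WG.unique (u := fun x => φ x b) (g := fun x => G (c k) x b) (g' := fun x => G (c l) x b) hO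
        (fun a => (((h4 _ (hcΩ k)).lp b a).mono inter_subset_left).exp two)
        (fun a => (((h4 _ (hcΩ l)).lp b a).mono inter_subset_right).exp two)
        (((h4 _ (hcΩ k)).wg b).mono inter_subset_left)
        (((h4 _ (hcΩ l)).wg b).mono inter_subset_right)
    filter_upwards [eventually_all.2 key] with y hy hy'
    funext b
    exact hy b hy'
  obtain ⟨g, hg⟩ : ∃ g : R4 → Matrix (Fin 4) (Fin 4) ℝ, ∀ᵐ y, ∀ k, y ∈ W (c k) →
      g y = G (c k) y := by
    refine ⟨fun y => if hy : ∃ k, y ∈ W (c k) then G (c (Nat.find hy)) y else 0, ?_⟩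
    have h6 : ∀ᵐ y, ∀ k l, y ∈ W (c k) ∩ W (c l) → G (c l) y = G (c k) y :=
      ae_all_iff.2 fun k => ae_all_iff.2 fun l => huniq k l
    filter_upwards [h6] with y hy k hk
    have h7 : ∃ k, y ∈ W (c k) := ⟨k, hk⟩
    rw [dif_pos h7]
    exact hy k (Nat.find h7) ⟨hk, Nat.find_spec h7⟩
  have hgk : ∀ k, ∀ᵐ y, y ∈ W (c k) → g y = G (c k) y := fun k => by
    filter_upwards [hg] with y hy
    exact hy k
  have hlp : ∀ b a, LpL 2 Ω (fun x => g x b a) := by
    intro b a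
    refine LpL.loc fun x hx => ?_
    obtain ⟨k, hk⟩ := hcov x hx
    refine ⟨W (c k), h1 _ (hcΩ k), hk, ?_⟩
    refine LpL.mono (LpL.congr ((h4 _ (hcΩ k)).lp b a) ?_) inter_subset_left
    filter_upwards [hgk k] with y hy hy'
    rw [hy hy']
  refine ⟨g, ⟨hlp, fun b => ?_⟩, ?_⟩
  · refine WG.loc hΩ ((continuous_apply b).comp_continuousOn hφ)
      (fun a => (hlp b a).exp two) fun x hx => ?_
    obtain ⟨k, hk⟩ := hcov x hx
    refine ⟨W (c k), h1 _ (hcΩ k), hk, ?_⟩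
    refine WG.mono (WG.congr ((h4 _ (hcΩ k)).wg b) (fun _ _ => rfl) ?_) inter_subset_left
    filter_upwards [hgk k] with y hy hy'
    rw [hy hy']
  · have h6 : ∀ᵐ y, ∀ k, y ∈ W (c k) → P (G (c k) y) := ae_all_iff.2 fun k => h5 _ (hcΩ k)
    filter_upwards [hg, h6] with y hy hy' hyΩ
    obtain ⟨k, hk⟩ := hcov y hyΩ
    rw [hy k hk]
    exact hy' k hk

end Pool.Agent.SYD
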