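import Pool.Agent.SYH.DivB

/-!
# SYD/SmW: smooth maps have weak derivatives

`L^2_loc`: the entries are continuous on `W` (`ContDiffOn.continuousOn_fderiv_of_isOpen`): `LpL.of_cont`.  `WG`: let `ψ` be a test function on `W` and
`F x = f x b * ψ x`, extended by zero outside `W` (it vanishes off `tsupport ψ`, so it is `C¹` on the whole space: near a point of `W` it is a product of
`C¹` functions, and the complement of `tsupport ψ` is open).  `∫ ∂_a F = 0` (`integral_fderiv..`/`int_pd` for `C¹` functions of compact support, e.g.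
`integral_bilinear_hasLineDerivAt_right_eq_neg_left_of_integrable` or
`integral_eq_zero_of_hasCompactSupport..`; or multiply `f_b` by a smooth cutoff function `κ`, `κ = 1` near `tsupport ψ`, with support in `W`, and
integrate by parts).  `∂_a F = (∂_a f_b) ψ + f_b ∂_a ψ`.
-/

open MeasureTheory Set Filter Topology
open scoped ContDiff Matrix ENNReal

namespace Pool.Agent.SYD

open Pool.Agent.SYH

/-- the Jacobi matrix: `jac f x b a = ∂_a f_b (x)` -/
noncomputable def jac (f : R4 → R4) (x : R4) : Matrix (Fin 4) (Fin 4) ℝ :=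
  Matrix.of fun b a => fderiv ℝ f x (Pi.single a 1) b

theorem smoothWD {W : Set R4} (hW : IsOpen W) {f : R4 → R4} (hf : ContDiffOn ℝ ∞ f W) :
    IsWD 2 W f (jac f) := by
  have hcf : ContinuousOn (fderiv ℝ f) W := hf.continuousOn_fderiv_of_isOpen hW (by norm_num)
  have hja : ∀ b a, ContinuousOn (fun x => jac f x b a) W := by
    intro b a
    have h1 : ContinuousOn (fun x => fderiv ℝ f x (Pi.single a 1)) W :=
      hcf.clm_apply continuousOn_const
    exact (continuous_apply b).comp_continuousOn h1
  refine ⟨fun b a => LpL.of_cont hW (hja b a), fun b ψ hψ a => ?_⟩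
  have hfb : ∀ x ∈ W, ContDiffAt ℝ ∞ (fun z => f z b) x := fun x hx =>
    contDiffAt_pi.1 (hf.contDiffAt (hW.mem_nhds hx)) b
  have hF : ContDiff ℝ ∞ (fun x => f x b * ψ x) := by
    rw [contDiff_iff_contDiffAt]
    intro x
    by_cases hx : x ∈ W
    · exact (hfb x hx).mul hψ.smooth.contDiffAt
    · have h1 : x ∉ tsupport ψ := fun h => hx (hψ.supp h)
      have h2 : (fun x => f x b * ψ x) =ᶠ[𝓝 x] fun _ => 0 := by
        filter_upwards [(isClosed_tsupport ψ).isOpen_compl.mem_nhds h1] with z hz
        rw [image_eq_zero_of_notMem_tsupport hz, mul_zero]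
      exact contDiffAt_const.congr_of_eventuallyEq h2
  have hsup : tsupport (fun x => f x b * ψ x) ⊆ tsupport ψ := tsupport_mul_subset_right
  have hT : Test univ (fun x => f x b * ψ x) :=
    ⟨hF, HasCompactSupport.of_support_subset_isCompact hψ.cpt
      ((subset_tsupport _).trans hsup), subset_univ _⟩
  have h0 := int_pd hT a
  have h1 : ∀ x, pd a (fun x => f x b * ψ x) x = f x b * pd a ψ x + jac f x b a * ψ x := by
    intro x
    by_cases hx : x ∈ W
    · have hd : DifferentiableAt ℝ f x :=
        (hf.contDiffAt (hW.mem_nhds hx)).differentiableAt (by norm_num)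
      have hdb : DifferentiableAt ℝ (fun z => f z b) x := (hfb x hx).differentiableAt (by norm_num)
      rw [pd_mul a hdb (hψ.smooth.differentiable (by norm_num)).differentiableAt]
      have h2 : pd a (fun z => f z b) x = jac f x b a := by
        unfold pd
        have h3 := ((hasFDerivAt_pi'.1 hd.hasFDerivAt) b).fderiv
        rw [h3]
        rfl
      rw [h2]
    · have h2 : x ∉ tsupport ψ := fun h => hx (hψ.supp h)
      rw [pd_eq_zero a (fun h => h2 (hsup h)), pd_eq_zero a h2,
        image_eq_zero_of_notMem_tsupport h2, mul_zero, mul_zero, add_zero]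
  have i1 : Integrable (fun x => f x b * pd a ψ x) :=
    LpL.int (LpL.of_cont hW ((continuous_apply b).comp_continuousOn hf.continuousOn))
      (hψ.pd a).smooth.continuous (hψ.pd a).cpt (hψ.pd a).supp
  have i2 : Integrable (fun x => jac f x b a * ψ x) :=
    LpL.int (LpL.of_cont hW (hja b a)) hψ.smooth.continuous hψ.cpt hψ.supp
  have h3 : ∫ x, (f x b * pd a ψ x + jac f x b a * ψ x) = 0 := by
    rw [← h0]
    simp only [h1]
  rw [integral_add i1 i2] at h3
  linarith

end Pool.Agent.SYD
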