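import Pool.Agent.SYD.LimS
import Pool.Agent.SYD.GlW
import Pool.Agent.SYD.SmW
import Pool.Agent.SYH.SgM

/-!
# SYD/EnL: `C⁰` limits of smooth symplectic maps with bounded energy
-/

open MeasureTheory Set Filter Topology
open scoped ContDiff Matrix ENNReal

namespace Pool.Agent.SYD

open Pool.Agent.SYH

/-- near every point `e` is a uniform limit of smooth maps with `f^* ω₀ = s ω₀`, `s = 1` or `s = -1`, with bounded Dirichlet energy -/
def EnLim (e : OpenPartialHomeomorph R4 R4) : Prop :=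
  ∀ x ∈ e.source, ∃ W, IsOpen W ∧ x ∈ W ∧ W ⊆ e.source ∧ ∃ (s : ℝ) (f : ℕ → R4 → R4) (C : ℝ≥0∞),
    (s = 1 ∨ s = -1) ∧ C ≠ ⊤ ∧ (∀ n, ContDiffOn ℝ ∞ (f n) W) ∧
    (∀ n, ∀ y ∈ W, (jac (f n) y)ᵀ * J * jac (f n) y = s • J) ∧
    TendstoUniformlyOn f e atTop W ∧
    ∀ n b a, ∫⁻ y in W, ‖jac (f n) y b a‖ₑ ^ 2 ≤ C

theorem EnLim.sob {e : OpenPartialHomeomorph R4 R4} (h : EnLim e) : SobSympPM 2 e := by
  refine glueWD (P := fun G => Gᵀ * J * G = J ∨ Gᵀ * J * G = -J) e.open_source e.continuousOn ?_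
  intro x hx
  obtain ⟨W, hW, hxW, hWs, s, f, C, hs, hC, hf, hJ, hu, hE⟩ := h x hx
  refine ⟨W, hW, hxW, hWs, ?_⟩
  have hc : ∀ n b a, ContinuousOn (fun x => jac (f n) x b a) W := by
    intro n b a
    have h1 : ContinuousOn (fun x => fderiv ℝ (f n) x) W :=
      (hf n).continuousOn_fderiv_of_isOpen hW (by norm_num)
    have h2 : ContinuousOn (fun x => fderiv ℝ (f n) x (Pi.single a 1)) W :=
      h1.clm_apply continuousOn_const
    exact (continuous_apply b).comp_continuousOn h2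
  obtain ⟨H, hH, hHJ⟩ := lim_symp (C := C ^ (1 / 2 : ℝ)) hW (fun n => (hf n).continuousOn)
    (fun n => smoothWD hW (hf n)) (ENNReal.rpow_ne_top_of_nonneg (by norm_num) hC)
    (fun n b a => by
      rw [eLpNorm_eq_lintegral_rpow_enorm_toReal (by norm_num) (by norm_num)]
      refine ENNReal.rpow_le_rpow ?_ (by norm_num)
      have h2 := hE n b a
      simpa using h2)
    (fun n => Eventually.of_forall fun y hy => hJ n y hy)
    (fun n b a => (hc n b a).aestronglyMeasurable hW.measurableSet) hu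
  refine ⟨H, hH, ?_⟩
  filter_upwards [hHJ] with y hy hyW
  rcases hs with rfl | rfl
  · left
    simpa using hy hyW
  · right
    simpa using hy hyW

end Pool.Agent.SYD
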