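import Pool.Agent.SYD.LDd
import Pool.Agent.SYH.SgM

/-!
# SYD/Mp2: homeomorphisms of class `W^{1,2}_loc` with `φ^* ω₀ = ± ω₀` almost everywhere, together with their inverses, preserve the
volume

`vol_le2` (compare `SYH/SgM.vol_le_pm`): let `K ⊆ A` be compact and `ε > 0`.  `diffOn` for the four components of `e` (`Ω = e.source`,
`g = G · b`, `LpL 1` from `LpL 2` by `LpL.exp`) with `ε / 4`: `F = ⋂_b F_b ⊆ K`, `volume (K \ F) ≤ ε`.  Let `N` be a measurable null set off which
`Gᵀ J G = ± J` (on `e.source`), so `|det G| = 1` (`det_of_symp_pm`).  On `F \ N`: `HasFDerivWithinAt e (L x) (F \ N) x` with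
`L x = LinearMap.toContinuousLinearMap (Matrix.toLin' (G x))` (`hasFDerivWithinAt_pi'`), `|det (L x)| = 1`, `e` is injective:
`lintegral_abs_det_fderiv_eq_addHaar_image`: `volume (e '' (F \ N)) = volume (F \ N) = volume F`.  So
`volume K ≤ volume F + ε ≤ volume (e '' A) + ε` for all `ε > 0` (if `volume (e '' A) = ⊤` nothing is to be shown), and
`volume A = sup_K volume K` (`MeasurableSet.measure_eq_iSup_isCompact`).
`mpre_pm2`: as `SYH/SgM.mpre_pm`.
-/

open MeasureTheory Set Filter Topology
open scoped ContDiff Matrix ENNReal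

namespace Pool.Agent.SYD

open Pool.Agent.SYH

theorem vol_le2 {e : OpenPartialHomeomorph R4 R4} (h : SobSympPM 2 e) {A : Set R4}
    (hA : A ⊆ e.source) (hAm : MeasurableSet A) : volume A ≤ volume (e '' A) := by
  obtain ⟨G, hG, hs⟩ := h
  rw [hAm.measure_eq_iSup_isCompact volume]
  refine iSup_le fun K => iSup_le fun hKA => iSup_le fun hK => ?_
  refine ENNReal.le_of_forall_pos_le_add fun ε hε _ => ?_
  have hKs : K ⊆ e.source := hKA.trans hA
  have hε4 : (ε : ℝ≥0∞) / 4 ≠ 0 := (ENNReal.div_pos (by exact_mod_cast hε.ne') (by norm_num)).ne'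
  have h1 : ∀ b : Fin 4, ∃ F ⊆ K, MeasurableSet F ∧ volume (K \ F) ≤ (ε : ℝ≥0∞) / 4 ∧
      ∀ x ∈ F, HasFDerivWithinAt (fun y => e y b) (lin (G x b)) F x := fun b =>
    diffOn e.open_source hK hKs ((continuous_apply b).comp_continuousOn e.continuousOn)
      (fun a => (hG.lp b a).exp (by norm_num)) (hG.wg b) hε4
  choose F hFK hFm hFv hFd using h1
  let F0 : Set R4 := ⋂ b, F b
  have hF0m : MeasurableSet F0 := MeasurableSet.iInter hFm
  have hF0K : F0 ⊆ K := (iInter_subset _ 0).trans (hFK 0)
  have hv : volume (K \ F0) ≤ ε := by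
    have h2 : K \ F0 = ⋃ b, (K \ F b) := sdiff_iInter K F
    rw [h2]
    refine (measure_iUnion_fintype_le volume _).trans ?_
    refine (Finset.sum_le_sum fun b _ => hFv b).trans ?_
    rw [Finset.sum_const, Finset.card_univ, Fintype.card_fin, nsmul_eq_mul]
    refine le_of_eq ?_
    rw [Nat.cast_ofNat, ENNReal.mul_div_cancel (by norm_num) (by norm_num)]
  have hlin : ∀ x b, (ContinuousLinearMap.proj b).comp
      (LinearMap.toContinuousLinearMap (Matrix.toLin' (G x))) = lin (G x b) := by
    intro x b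
    ext v
    simp [lin, Matrix.toLin'_apply, Matrix.mulVec, dotProduct]
  have hd : ∀ x ∈ F0, HasFDerivWithinAt e
      (LinearMap.toContinuousLinearMap (Matrix.toLin' (G x))) F0 x := by
    intro x hx
    rw [hasFDerivWithinAt_pi']
    intro b
    rw [hlin]
    exact (hFd b x (mem_iInter.1 hx b)).mono (iInter_subset _ b)
  have hdet : ∀ᵐ x, x ∈ e.source →
      |(LinearMap.toContinuousLinearMap (Matrix.toLin' (G x))).det| = 1 := by
    filter_upwards [hs] with x hx hxs
    have h2 := det_of_symp_pm (hx hxs)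
    rw [LinearMap.det_toContinuousLinearMap, LinearMap.det_toLin']
    exact h2
  rw [ae_iff] at hdet
  set N := toMeasurable volume {x | ¬ (x ∈ e.source →
      |(LinearMap.toContinuousLinearMap (Matrix.toLin' (G x))).det| = 1)} with hN
  have hNm : MeasurableSet N := measurableSet_toMeasurable _ _
  have hN0 : volume N = 0 := by rw [hN, measure_toMeasurable]; exact hdet
  have hgood : ∀ x ∈ F0 \ N,
      |(LinearMap.toContinuousLinearMap (Matrix.toLin' (G x))).det| = 1 := by
    intro x hx
    by_contra hc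
    apply hx.2
    apply subset_toMeasurable
    intro h3
    exact hc (h3 (hKs (hF0K hx.1)))
  have h4 := lintegral_abs_det_fderiv_eq_addHaar_image volume (hF0m.diff hNm)
    (f := e) (f' := fun x => LinearMap.toContinuousLinearMap (Matrix.toLin' (G x)))
    (fun x hx => (hd x hx.1).mono sdiff_subset)
    (e.injOn.mono (sdiff_subset.trans (hF0K.trans hKs)))
  have h5 : ∫⁻ x in F0 \ N, ENNReal.ofReal
      |(LinearMap.toContinuousLinearMap (Matrix.toLin' (G x))).det| = volume (F0 \ N) := by
    rw [setLIntegral_congr_fun (hF0m.diff hNm) (g := fun _ => 1)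
      (fun x hx => by simp only [hgood x hx, ENNReal.ofReal_one])]
    simp
  rw [h5] at h4
  have h6 : volume F0 ≤ volume (e '' A) := by
    rw [← measure_sdiff_null (s := F0) hN0, h4]
    exact measure_mono (image_mono (sdiff_subset.trans (hF0K.trans hKA)))
  calc volume K ≤ volume (F0 ∪ (K \ F0)) := measure_mono (by rw [union_sdiff_self]; exact subset_union_right)
    _ ≤ volume F0 + volume (K \ F0) := measure_union_le _ _
    _ ≤ volume (e '' A) + ε := add_le_add h6 hv

theorem mpre_pm2 {e : OpenPartialHomeomorph R4 R4} (h : SobSympPM 2 e)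
    (h' : SobSympPM 2 e.symm) : MPre e := by
  intro A hA hAm
  apply le_antisymm
  · have hm : MeasurableSet (e '' A) :=
      hAm.image_of_continuousOn_injOn (e.continuousOn.mono hA) (e.injOn.mono hA)
    have hsub : e '' A ⊆ e.symm.source := by
      rintro _ ⟨x, hx, rfl⟩
      exact e.map_source (hA hx)
    have h1 := vol_le2 h' hsub hm
    have h2 : e.symm '' (e '' A) = A := by
      ext y
      constructor
      · rintro ⟨_, ⟨x, hx, rfl⟩, rfl⟩
        rw [e.left_inv (hA hx)]; exact hx
      · intro hy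
        exact ⟨e y, ⟨y, hy, rfl⟩, e.left_inv (hA hy)⟩
    rwa [h2] at h1
  · exact vol_le2 h hA hAm

end Pool.Agent.SYD
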