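import Pool.Agent.SYD.SgS
import Pool.Agent.SYH.SgA
import Pool.Agent.SYH.SgR

/-!
# SYD/SgA (as SYH/SgA): an atlas with signs and a trivialisation of the signs gives a symplectic atlas

`rhoS 1 = id`, `rhoS (-1) = ρ`; an involution.  For `i : ι` and `b : ℤˣ` let `U i b = {m ∈ (x i).source | ε i m = b}`, open by
local constancy (`hε.loc`).  New charts, indexed by `ι × ℤˣ`:
`x' (i, b) = ((x i).restrOpen (U i b)).trans (rhoS b)` (`OpenPartialHomeomorph.restrOpen`).
They cover `M` (`A.cov`; `b = ε i m`).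
`restr_sg`: for `e` with `e.source ⊆ D i (U i b ∩ U j c)`, `e = tr i j` on `e.source`: `SobSg 2 (b * c) e` with `G i j`: by `hε.eq`,
`sgn i j m = ε i m * ε j m = b * c` for `m ∈ U i b ∩ U j c`, `sgn_spec` gives the equation a.e. near `y = x i m`, and `ae_loc`.
`new_atlas`: `(x' (i, b)).symm.trans (x' (j, c))` has the source `{y | rhoS b y ∈ D i (U i b ∩ U j c)}` and equals
`rhoS c ∘ tr i j ∘ rhoS b` there; `SobSg 2 1` by `restr_sg` for the restriction of `tr i j` (e.g.
`((x i).restrOpen (U i b)).symm.trans ((x j).restrOpen (U j c))`), `SobSg.comp_left`, `SobSg.comp_right` (according to the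
cases `b = ± 1`, `c = ± 1`; `b * c * b * c = 1`) and `SobSg.congr_sub`; `SobSg 2 1` is `SobSymp 2`.
-/

open MeasureTheory Set Filter Topology
open scoped ContDiff Matrix ENNReal

namespace Pool.Agent.SYD

open Pool.Agent.SYH

namespace AtPM

variable {M : Type*} [TopologicalSpace M] {ι : Type*} {A : AtPM M ι}
  {ε : ι → M → ℤˣ}

theorem restr_sg (hε : TrivOn (fun i => (A.x i).source) A.sgn univ ε) {i j : ι} {b c : ℤˣ}
    {e : OpenPartialHomeomorph R4 R4}
    (hs : e.source ⊆ A.D i ({m | m ∈ (A.x i).source ∧ ε i m = b} ∩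
      {m | m ∈ (A.x j).source ∧ ε j m = c})) (he : ∀ y ∈ e.source, e y = A.tr i j y) :
    SobSg 2 (b * c) e := by
  have hsub : e.source ⊆ (A.tr i j).source := by
    rw [A.tr_source]
    exact hs.trans (A.D_mono i fun m hm => hm.2.1)
  have hwd := A.wd i j
  refine ⟨A.G i j, ⟨fun b a => (hwd.lp b a).mono hsub, fun b => ?_⟩, ?_⟩
  · refine ((hwd.wg b).mono hsub).congr (fun x hx => ?_) (Eventually.of_forall fun x _ => rfl)
    rw [he x hx]
    rfl
  · apply ae_loc
    intro y hy
    have h1 := A.mem_D.1 (hs hy)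
    obtain ⟨hyt, ⟨hmi, hεi⟩, hmj, hεj⟩ := h1
    set m := (A.x i).symm y with hm
    obtain ⟨N, hN, hmN, hae⟩ := sgn_spec hmi hmj
    refine ⟨A.D i (N ∩ (A.x j).source), A.D_open i (hN.inter (A.x j).open_source),
      A.mem_D.2 ⟨hyt, hmN, hmj⟩, ?_⟩
    have h2 := hε.eq i j m ⟨mem_univ _, hmi, hmj⟩
    rw [hεi, hεj] at h2
    rw [h2] at hae
    exact hae

theorem new_atlas (hε : TrivOn (fun i => (A.x i).source) A.sgn univ ε) :
    ∃ x' : ι × ℤˣ → OpenPartialHomeomorph M R4, (∀ m, ∃ a, m ∈ (x' a).source) ∧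
      ∀ a b, SobSymp 2 ((x' a).symm.trans (x' b)) := by
  have hop : ∀ i b, IsOpen {m | m ∈ (A.x i).source ∧ ε i m = b} := by
    intro i b
    rw [isOpen_iff_mem_nhds]
    rintro m ⟨hm, hb⟩
    filter_upwards [(A.x i).open_source.mem_nhds hm, hε.loc i m ⟨mem_univ _, hm⟩] with m' h1 h2
    exact ⟨h1, h2.trans hb⟩
  refine ⟨fun a => ((A.x a.1).restrOpen _ (hop a.1 a.2)).trans (SgA_rho a.2), ?_, ?_⟩
  · intro m
    obtain ⟨i, hi⟩ := A.cov m
    refine ⟨(i, ε i m), ?_⟩
    rw [OpenPartialHomeomorph.trans_source, SgA_rho_source, OpenPartialHomeomorph.restrOpen_source]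
    exact ⟨⟨hi, hi, rfl⟩, mem_univ _⟩
  · rintro ⟨i, b⟩ ⟨j, c⟩
    apply SobSg.one
    rw [OpenPartialHomeomorph.trans_symm_eq_symm_trans_symm, OpenPartialHomeomorph.trans_assoc]
    apply SgA_right le_rfl
    rw [← OpenPartialHomeomorph.trans_assoc]
    apply SgA_left
    apply restr_sg hε
    · intro y hy
      rw [OpenPartialHomeomorph.trans_source] at hy
      obtain ⟨hy1, hy2⟩ := hy
      rw [OpenPartialHomeomorph.symm_source] at hy1
      have h3 := OpenPartialHomeomorph.map_target _ hy1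
      rw [OpenPartialHomeomorph.restrOpen_source] at h3
      have h4 : (A.x i).symm y ∈ ((A.x j).restrOpen _ (hop j c)).source := hy2
      rw [OpenPartialHomeomorph.restrOpen_source] at h4
      have h5 : (A.x i).symm y ∈ (A.x i).source ∩ {m | m ∈ (A.x i).source ∧ ε i m = b} := h3
      have h6 : ((A.x i).restrOpen _ (hop i b)) (((A.x i).restrOpen _ (hop i b)).symm y) = y :=
        OpenPartialHomeomorph.right_inv _ hy1
      have h7 : A.x i ((A.x i).symm y) = y := h6
      refine A.mem_D.2 ⟨?_, h5.2, h4.2⟩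
      rw [← h7]
      exact (A.x i).map_source h5.1
    · intro y hy
      rfl

end AtPM

end Pool.Agent.SYD
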