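import Pool.Agent.SYD.Mn1
import Pool.Agent.SYD.Mp2
import Pool.Agent.SYD.SgA
import Pool.Agent.SYD.EnL
import Pool.Agent.SYH.SgU

/-!
# SYD/Mn2: no finite energy atlas on the four-sphere
-/

open MeasureTheory Set Filter Topology
open scoped ContDiff Matrix ENNReal

namespace Pool.Agent.SYD

open Pool.Agent.SYH

theorem no_atlas2 {ι : Type*} (x : ι → OpenPartialHomeomorph S4 R4)
    (hc : ∀ m, ∃ i, m ∈ (x i).source) (ht : ∀ i j, SobSymp 2 ((x i).symm.trans (x j))) : False := by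
  have hpm : ∀ i j, SobSympPM 2 ((x i).symm.trans (x j)) := by
    intro i j
    obtain ⟨G, hG, hs⟩ := ht i j
    exact ⟨G, hG, hs.mono fun y hy hyd => Or.inl (hy hyd)⟩
  have hm : ∀ i j, MPre ((x i).symm.trans (x j)) := by
    intro i j
    refine mpre_pm2 (hpm i j) ?_
    have h := hpm j i
    rwa [OpenPartialHomeomorph.trans_symm_eq_symm_trans_symm, OpenPartialHomeomorph.symm_symm]
  choose G hG hs using ht
  exact no_at ⟨x, G, hc, hG, hs, hm⟩

theorem no_atlas_pm2 {ι : Type*} (x : ι → OpenPartialHomeomorph S4 R4)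
    (hc : ∀ m, ∃ i, m ∈ (x i).source) (ht : ∀ i j, SobSympPM 2 ((x i).symm.trans (x j))) :
    False := by
  have hm : ∀ i j, MPre ((x i).symm.trans (x j)) := by
    intro i j
    refine mpre_pm2 (ht i j) ?_
    have h := ht j i
    rwa [OpenPartialHomeomorph.trans_symm_eq_symm_trans_symm, OpenPartialHomeomorph.symm_symm]
  choose G hG hs using ht
  let A : AtPM S4 ι := ⟨x, G, hc, hG, hs, hm⟩
  obtain ⟨ε, hε⟩ := triv_sphere (AtPM.sys A)
  obtain ⟨x', hc', ht'⟩ := AtPM.new_atlas hε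
  exact no_atlas2 x' hc' ht'

theorem no_atlas_enlim {ι : Type*} (x : ι → OpenPartialHomeomorph S4 R4)
    (hc : ∀ m, ∃ i, m ∈ (x i).source) (ht : ∀ i j, EnLim ((x i).symm.trans (x j))) :
    False :=
  no_atlas_pm2 x hc fun i j => (ht i j).sob

end Pool.Agent.SYD
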