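import Pool.Agent.SYH.DivB

/-!
# SYD/WGl: weak gradients of locally integrable functions

The same statements as in `SYH/DivB` (`WG.iff_div`, `WG.add`, `WG.congr`, `WG.loc`), with `LpL 1 Ω u` instead of
`ContinuousOn u Ω`; the proofs are the same (`LpL.int` gives the integrability).
-/

open MeasureTheory Set Filter Topology
open scoped ContDiff Matrix ENNReal

namespace Pool.Agent.SYD

open Pool.Agent.SYH

variable {Ω Ω' : Set R4} {u u' v : R4 → ℝ} {g g' h : R4 → R4}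

theorem WGL.div (hu : LpL 1 Ω u) (hg : ∀ a, LpL 1 Ω (fun x => g x a)) :
    WG Ω u g ↔ ∀ a, DivEq Ω (fun x => u x • Pi.single a 1) (fun x => g x a) := by
  have key : ∀ ψ, Test Ω ψ → ∀ a,
      ∫ x, ((∑ b, (u x • (Pi.single a (1 : ℝ) : R4)) b * pd b ψ x) + g x a * ψ x) =
        (∫ x, u x * pd a ψ x) + ∫ x, g x a * ψ x := by
    intro ψ hψ a
    have e : (fun x => (∑ b, (u x • (Pi.single a (1 : ℝ) : R4)) b * pd b ψ x) + g x a * ψ x) =
        fun x => u x * pd a ψ x + g x a * ψ x := by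
      funext x
      rw [DivB_single]
    simp only [e]
    exact integral_add (hu.int (hψ.pd a).smooth.continuous
      (hψ.pd a).cpt (hψ.pd a).supp) ((hg a).int hψ.smooth.continuous hψ.cpt hψ.supp)
  constructor
  · intro h a ψ hψ
    rw [key ψ hψ a, h ψ hψ a, neg_add_cancel]
  · intro h ψ hψ a
    have := h a ψ hψ
    rw [key ψ hψ a] at this
    linarith

theorem WGL.add (hu : LpL 1 Ω u) (hg : ∀ a, LpL 1 Ω (fun x => g x a)) (hv : LpL 1 Ω v)
    (hh : ∀ a, LpL 1 Ω (fun x => h x a)) (h1 : WG Ω u g) (h2 : WG Ω v h) :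
    WG Ω (fun x => u x + v x) (fun x => g x + h x) := by
  intro ψ hψ a
  simp only [Pi.add_apply, add_mul]
  have p1 := hu.int (hψ.pd a).smooth.continuous (hψ.pd a).cpt (hψ.pd a).supp
  have p2 := hv.int (hψ.pd a).smooth.continuous (hψ.pd a).cpt (hψ.pd a).supp
  have p3 := (hg a).int hψ.smooth.continuous hψ.cpt hψ.supp
  have p4 := (hh a).int hψ.smooth.continuous hψ.cpt hψ.supp
  rw [integral_add p1 p2, integral_add p3 p4, h1 ψ hψ a, h2 ψ hψ a]
  ring

theorem WGL.congr (h : WG Ω u g) (hu : ∀ᵐ x, x ∈ Ω → u' x = u x)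
    (hg : ∀ᵐ x, x ∈ Ω → g' x = g x) : WG Ω u' g' := by
  intro ψ hψ a
  have e1 : ∫ x, u' x * pd a ψ x = ∫ x, u x * pd a ψ x := by
    refine integral_congr_ae ?_
    filter_upwards [hu] with x h1
    by_cases hx : x ∈ Ω
    · rw [h1 hx]
    · rw [(DivB_out hψ hx).2 a, mul_zero, mul_zero]
  have e2 : ∫ x, g' x a * ψ x = ∫ x, g x a * ψ x := by
    refine integral_congr_ae ?_
    filter_upwards [hg] with x h1
    by_cases hx : x ∈ Ω
    · rw [h1 hx]
    · rw [(DivB_out hψ hx).1, mul_zero, mul_zero]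
  rw [e1, e2]
  exact h ψ hψ a

private theorem WGl_lp (hu : LpL 1 Ω u) (a b : Fin 4) :
    LpL 1 Ω (fun x => (u x • (Pi.single a (1 : ℝ) : R4)) b) := by
  have e : (fun x => (u x • (Pi.single a (1 : ℝ) : R4)) b) =
      fun x => (Pi.single a (1 : ℝ) : R4) b * u x := by
    funext x
    simp only [Pi.smul_apply, smul_eq_mul]
    ring
  rw [e]
  exact hu.const_mul _

theorem WGL.loc (hu : LpL 1 Ω u) (hg : ∀ a, LpL 1 Ω (fun x => g x a))
    (h : ∀ x ∈ Ω, ∃ O, IsOpen O ∧ x ∈ O ∧ WG (O ∩ Ω) u g) : WG Ω u g := by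
  rw [WGL.div hu hg]
  intro a
  refine DivEq.loc (fun b => WGl_lp hu a b) (hg a) fun x hx => ?_
  obtain ⟨O, h1, h2, h3⟩ := h x hx
  exact ⟨O, h1, h2, (WGL.div (hu.mono inter_subset_right)
    (fun a => (hg a).mono inter_subset_right)).1 h3 a⟩

end Pool.Agent.SYD
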