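import Pool.Agent.SYH.Apx
import Pool.Agent.SYD.WGl

/-!
# SYD/ApL: smooth approximation of Sobolev functions which need not be continuous

As `SYH/Apx.apx`: `S ⊆ Ω` compact neighbourhood of `K` with `closedBall x r ⊆ S` for `x ∈ K` (`Apx_thick`),
`v = mol δ (S.indicator u)` for small `δ < r`.  `mol_lim` for `S.indicator u ∈ L^r` gives the first bound;
`mol_div` (with `w = u • e_a`, `c = g a`, `WGL.div`) gives `pd a v = mol δ (S.indicator (g a))` on `K`, and `mol_lim` for
`S.indicator (g a)`, of class `L^q`, gives the second bound.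
-/

open MeasureTheory Set Filter Topology
open scoped ContDiff Matrix ENNReal

namespace Pool.Agent.SYD

open Pool.Agent.SYH

theorem apxL {Ω K : Set R4} (hΩ : IsOpen Ω) (hK : IsCompact K) (hs : K ⊆ Ω) {q r : ℝ≥0∞}
    (h1 : 1 ≤ q) (hq : q ≠ ⊤) (h1' : 1 ≤ r) (hr : r ≠ ⊤) {u : R4 → ℝ} {g : R4 → R4}
    (hu : LpL r Ω u) (hg : ∀ a, LpL q Ω (fun x => g x a)) (h : WG Ω u g) {ε : ℝ} (hε : 0 < ε) :
    ∃ v : R4 → ℝ, ContDiff ℝ ∞ v ∧
      eLpNorm (fun x => v x - u x) r (volume.restrict K) ≤ ENNReal.ofReal ε ∧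
      ∀ a, eLpNorm (fun x => pd a v x - g x a) q (volume.restrict K) ≤ ENNReal.ofReal ε := by
  obtain ⟨ρ, hρ, S, hS, hSm, hKS, hSΩ, hball⟩ := Apx_thick hΩ hK hs
  have huL : LpL 1 Ω u := hu.exp h1'
  have hloc : LocallyIntegrable (S.indicator u) := Apx_locInt le_rfl hS hSm hSΩ huL
  have ev0 : ∀ᶠ δ in 𝓝[>] (0 : ℝ), ∀ a,
      eLpNorm (fun x => mol δ (S.indicator (fun x => g x a)) x - S.indicator (fun x => g x a) x) q volume
        ≤ ENNReal.ofReal ε := by
    rw [Filter.eventually_all]
    intro a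
    have h2 := mol_lim h1 hq (Apx_ind hS hSm hSΩ (hg a))
    exact h2.eventually (Iic_mem_nhds (ENNReal.ofReal_pos.2 hε))
  have ev1 : ∀ᶠ δ in 𝓝[>] (0 : ℝ),
      eLpNorm (fun x => mol δ (S.indicator u) x - S.indicator u x) r volume ≤ ENNReal.ofReal ε := by
    have h2 := mol_lim h1' hr (Apx_ind hS hSm hSΩ hu)
    exact h2.eventually (Iic_mem_nhds (ENNReal.ofReal_pos.2 hε))
  have ev2 : ∀ᶠ δ in 𝓝[>] (0 : ℝ), δ ≤ ρ :=
    nhdsWithin_le_nhds (Iic_mem_nhds hρ)
  have ev3 : ∀ᶠ δ in 𝓝[>] (0 : ℝ), 0 < δ := self_mem_nhdsWithin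
  obtain ⟨δ, hδ, hδ1, hδu, hδg⟩ := (ev3.and (ev2.and (ev1.and ev0))).exists
  refine ⟨mol δ (S.indicator u), mol_smooth δ hloc, ?_, ?_⟩
  · have e2 : eLpNorm (fun x => mol δ (S.indicator u) x - u x) r (volume.restrict K) =
        eLpNorm (fun x => mol δ (S.indicator u) x - S.indicator u x) r (volume.restrict K) := by
      refine eLpNorm_congr_ae ?_
      filter_upwards [ae_restrict_mem hK.measurableSet] with x hx
      rw [Set.indicator_of_mem (hKS hx)]
    rw [e2]
    exact (eLpNorm_mono_measure _ Measure.restrict_le_self).trans hδu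
  · intro a
    have hdiv := (WGL.div huL (fun a => (hg a).exp h1)).1 h a
    have e : ∀ x ∈ K, pd a (mol δ (S.indicator u)) x = mol δ (S.indicator (fun x => g x a)) x := by
      intro x hx
      have h5 := mol_div (x := x) hδ hSm (w := fun y => u y • Pi.single a 1) (c := fun y => g y a)
        ?_ (Apx_intOn h1 hS hSΩ (hg a)) ((Metric.closedBall_subset_closedBall hδ1).trans (hball x hx))
        ((Metric.closedBall_subset_closedBall hδ1).trans ((hball x hx).trans hSΩ)) hdiv
      · rw [← h5]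
        rw [Finset.sum_eq_single a]
        · simp
        · intro b _ hb
          refine Apx_pd_zero b (Apx_mol_zero δ ?_) x
          funext y
          simp [Pi.single_eq_of_ne hb]
        · intro h'; exact absurd (Finset.mem_univ a) h'
      · intro b
        by_cases hb : b = a
        · subst hb
          simpa using Apx_intOn le_rfl hS hSΩ huL
        · simp [Pi.single_eq_of_ne hb]
    have e2 : eLpNorm (fun x => pd a (mol δ (S.indicator u)) x - g x a) q (volume.restrict K) =
        eLpNorm (fun x => mol δ (S.indicator (fun x => g x a)) x - S.indicator (fun x => g x a) x) q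
          (volume.restrict K) := by
      refine eLpNorm_congr_ae ?_
      filter_upwards [ae_restrict_mem hK.measurableSet] with x hx
      rw [e x hx, Set.indicator_of_mem (hKS hx)]
    rw [e2]
    exact (eLpNorm_mono_measure _ Measure.restrict_le_self).trans (hδg a)

end Pool.Agent.SYD
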