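import Pool.Agent.SYD.A0s

/-!
# SYH/Bmp: bump functions of class `A0`
-/

open MeasureTheory Set Filter Topology
open scoped ContDiff Matrix ENNReal

namespace Pool.Agent.SYD

open Pool.Agent.SYH

namespace At

variable {M : Type*} [TopologicalSpace M] [T2Space M] {ι : Type*} (A : At M ι)

theorem bump {i : ι} {m : M} (hm : m ∈ (A.x i).source) {O : Set M} (hO : IsOpen O) (hmO : m ∈ O) :
    ∃ (η : M → ℝ) (β : ι → R4 → R4) (N T : Set M), A.AC univ η β ∧ (∀ m', 0 ≤ η m' ∧ η m' ≤ 1) ∧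
      IsOpen N ∧ m ∈ N ∧ (∀ m' ∈ N, η m' = 1) ∧ IsCompact T ∧ T ⊆ O ∩ (A.x i).source ∧
      ∀ m' ∉ T, η m' = 0 := by
  classical
  have hD : IsOpen (A.D i O) := A.D_open i hO
  have hmD : A.x i m ∈ A.D i O := A.x_mem_D hm hmO
  obtain ⟨r, hr, hb⟩ := Metric.nhds_basis_closedBall.mem_iff.1 (hD.mem_nhds hmD)
  let ψ : ContDiffBump (A.x i m) := ⟨r / 2, r, by positivity, by linarith⟩
  have hψs : ContDiff ℝ ∞ (ψ : R4 → ℝ) := ψ.contDiff
  have hts : tsupport (ψ : R4 → ℝ) = Metric.closedBall (A.x i m) r := ψ.tsupport_eq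
  set S := (A.x i).source with hS
  have hSo : IsOpen S := (A.x i).open_source
  let η : M → ℝ := fun m' => if m' ∈ S then ψ (A.x i m') else 0
  let T : Set M := (A.x i).symm '' Metric.closedBall (A.x i m) r
  let N : Set M := S ∩ A.x i ⁻¹' Metric.ball (A.x i m) (r / 2)
  let β : ι → R4 → R4 := fun j y =>
    if y ∈ A.D j S then (A.G j i y)ᵀ *ᵥ (fun b => pd b ψ (A.tr j i y)) else 0
  have hbt : Metric.closedBall (A.x i m) r ⊆ (A.x i).target := hb.trans inter_subset_left
  have hTc : IsCompact T :=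
    (isCompact_closedBall _ _).image_of_continuousOn ((A.x i).continuousOn_symm.mono hbt)
  have hTs : T ⊆ O ∩ S := by
    rintro _ ⟨y, hy, rfl⟩
    exact ⟨(hb hy).2, (A.x i).map_target (hbt hy)⟩
  have hnb : ∀ m' ∈ S, m' ∉ T → A.x i m' ∉ Metric.closedBall (A.x i m) r := by
    intro m' hm' hT h
    exact hT ⟨A.x i m', h, (A.x i).left_inv hm'⟩
  have hη0 : ∀ m' ∉ T, η m' = 0 := by
    intro m' hm'
    by_cases h : m' ∈ S
    · have h1 := hnb m' h hm'
      show (if m' ∈ S then ψ (A.x i m') else 0) = 0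
      rw [if_pos h]
      rw [← hts] at h1
      exact image_eq_zero_of_notMem_tsupport h1
    · show (if m' ∈ S then ψ (A.x i m') else 0) = 0
      rw [if_neg h]
  have hηS : ∀ m' ∈ S, η m' = ψ (A.x i m') := fun m' h => if_pos h
  have hcont : Continuous η := by
    rw [continuous_iff_continuousAt]
    intro m'
    by_cases h : m' ∈ S
    · have h1 : ContinuousAt (fun m' => ψ (A.x i m')) m' :=
        ψ.continuous.continuousAt.comp ((A.x i).continuousAt h)
      refine h1.congr ?_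
      filter_upwards [hSo.mem_nhds h] with z hz
      exact (hηS z hz).symm
    · have h1 : m' ∈ Tᶜ := fun hT => h (hTs hT).2
      refine (continuousAt_const (y := (0 : ℝ))).congr ?_
      filter_upwards [hTc.isClosed.isOpen_compl.mem_nhds h1] with z hz
      exact (hη0 z hz).symm
  have hβS : ∀ j, ∀ y ∈ A.D j S, β j y = (A.G j i y)ᵀ *ᵥ (fun b => pd b ψ (A.tr j i y)) :=
    fun j y h => if_pos h
  have hβ0 : ∀ j, ∀ y ∈ A.D j Tᶜ, β j y = 0 := by
    intro j y hy
    by_cases h : y ∈ A.D j S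
    · rw [hβS j y h]
      have h1 : A.tr j i y ∉ tsupport (ψ : R4 → ℝ) := by
        rw [hts, A.tr_apply]
        exact hnb _ h.2 hy.2
      have h2 : (fun b => pd b (ψ : R4 → ℝ) (A.tr j i y)) = 0 := by
        funext b
        exact pd_eq_zero b h1
      rw [h2, Matrix.mulVec_zero]
    · exact if_neg h
  have hcov : ∀ j, ∀ y ∈ A.D j univ, y ∈ A.D j S ∨ y ∈ A.D j Tᶜ := by
    intro j y hy
    by_cases h : (A.x j).symm y ∈ S
    · exact Or.inl ⟨hy.1, h⟩
    · exact Or.inr ⟨hy.1, fun hT => h (hTs hT).2⟩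
  have hTo : IsOpen Tᶜ := hTc.isClosed.isOpen_compl
  have htc : ∀ j, ContinuousOn (A.tr j i) (A.D j S) := by
    intro j
    rw [hS, ← A.tr_source]
    exact (A.tr j i).continuousOn
  have hlS : ∀ j a, LpL 2 (A.D j S) (fun y => β j y a) := by
    intro j a
    have h1 : LpL 2 (A.D j S) (fun y => ∑ b, pd b ψ (A.tr j i y) * A.G j i y b a) := by
      refine LpL.sum _ fun b _ => LpL.cont_mul (A.D_open j hSo) ?_ ((A.isWD j i).lp b a)
      exact (pd_smooth b hψs).continuous.comp_continuousOn (htc j)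
    refine h1.congr (Eventually.of_forall fun y hy => ?_)
    rw [hβS j y hy]
    simp only [Matrix.mulVec, dotProduct, Matrix.transpose_apply]
    exact Finset.sum_congr rfl fun b _ => mul_comm _ _
  have hl : ∀ j a, LpL 2 (A.D j univ) (fun y => β j y a) := by
    intro j a
    refine LpL.loc fun y hy => ?_
    rcases hcov j y hy with h | h
    · exact ⟨A.D j S, A.D_open j hSo, h, (hlS j a).mono inter_subset_left⟩
    · refine ⟨A.D j Tᶜ, A.D_open j hTo, h, ?_⟩
      refine (LpL.zero (p := 2) (Ω := A.D j Tᶜ ∩ A.D j univ)).congr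
        (Eventually.of_forall fun y hy => ?_)
      rw [hβ0 j y hy.1]
      rfl
  refine ⟨η, β, N, T, ⟨hcont.continuousOn, hl, ?_⟩, ?_, ?_, ?_, ?_, hTc, hTs, hη0⟩
  · intro j
    have hu : ContinuousOn (fun y => η ((A.x j).symm y)) (A.D j univ) :=
      hcont.comp_continuousOn ((A.x j).continuousOn_symm.mono inter_subset_left)
    refine WG.loc (A.D_open j isOpen_univ) hu (fun a => (hl j a).exp A.one_le) fun y hy => ?_
    rcases hcov j y hy with h | h
    · refine ⟨A.D j S, A.D_open j hSo, h, ?_⟩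
      have hG : IsWD 1 (A.D j S) (A.tr j i) (A.G j i) := by
        have := A.isWD j i
        exact ⟨fun b a => (this.lp b a).exp A.one_le, this.wg⟩
      have h1 := chS (A.D_open j hSo) (htc j) hG hψs
      refine (h1.mono inter_subset_left).congr (fun y hy => ?_)
        (Eventually.of_forall fun y hy => hβS j y hy.1)
      show η ((A.x j).symm y) = ψ (A.tr j i y)
      rw [A.tr_apply]
      exact hηS _ hy.1.2
    · refine ⟨A.D j Tᶜ, A.D_open j hTo, h, ?_⟩
      refine (WG.const (Ω := A.D j Tᶜ ∩ A.D j univ) 0).congr (fun y hy => hη0 _ hy.1.2)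
        (Eventually.of_forall fun y hy => ?_)
      rw [hβ0 j y hy.1]
  · intro m'
    by_cases h : m' ∈ S
    · rw [hηS m' h]
      exact ⟨ψ.nonneg, ψ.le_one⟩
    · have : η m' = 0 := if_neg h
      rw [this]
      exact ⟨le_rfl, zero_le_one⟩
  · exact (A.x i).isOpen_inter_preimage Metric.isOpen_ball
  · exact ⟨hm, Metric.mem_ball_self (by positivity)⟩
  · rintro m' ⟨h1, h2⟩
    rw [hηS m' h1]
    exact ψ.one_of_mem_closedBall (Metric.ball_subset_closedBall h2)

end At

end Pool.Agent.SYD
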