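import Pool.Agent.SYD.ApL
import Pool.Agent.SYH.ChW

/-!
# SYD/ChL: the chain rule for the composition with `e`, functions of class `W^{1,2}` which need not be continuous

As `SYH/ChW.chW`.  `ψ` a test function on `e.source ∩ e ⁻¹' Ω'`, `K = tsupport ψ`, `L = e '' K ⊆ Ω'` compact.  `apxL` with
`q = r = 2` on `L`: smooth `v_n` with `v_n → f`, `∂_b v_n → g_b` in `L²(L)`.  `chS` for `v_n ∘ e` (on `e.source`):
`∫ v_n(e) ∂_a ψ = - ∫ Σ_b G_{ba} ∂_b v_n (e) ψ`.  Let `n → ∞`: `v_n ∘ e → f ∘ e` and `∂_b v_n ∘ e → g_b ∘ e` in `L²(K)`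
(`map_restrict` with `B = L`), `∂_a ψ` is bounded and `G_{ba} ψ ∈ L²(K)`.
-/

open MeasureTheory Set Filter Topology
open scoped ContDiff Matrix ENNReal

namespace Pool.Agent.SYD

open Pool.Agent.SYH

private theorem ChL_seq {Ω K : Set R4} (hΩ : IsOpen Ω) (hK : IsCompact K) (hs : K ⊆ Ω)
    {u : R4 → ℝ} {g : R4 → R4} (hu : LpL 2 Ω u)
    (hg : ∀ a, LpL 2 Ω (fun x => g x a)) (h : WG Ω u g) :
    ∃ v : ℕ → R4 → ℝ, (∀ n, ContDiff ℝ ∞ (v n)) ∧
      (∀ n, eLpNorm (fun x => v n x - u x) 2 (volume.restrict K) ≤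
        ENNReal.ofReal (1 / ((n : ℝ) + 1))) ∧
      ∀ a n, eLpNorm (fun x => pd a (v n) x - g x a) 2 (volume.restrict K) ≤
        ENNReal.ofReal (1 / ((n : ℝ) + 1)) := by
  have key : ∀ n : ℕ, ∃ v : R4 → ℝ, ContDiff ℝ ∞ v ∧
      eLpNorm (fun x => v x - u x) 2 (volume.restrict K) ≤ ENNReal.ofReal (1 / ((n : ℝ) + 1)) ∧
      ∀ a, eLpNorm (fun x => pd a v x - g x a) 2 (volume.restrict K) ≤
        ENNReal.ofReal (1 / ((n : ℝ) + 1)) := fun n =>
    apxL hΩ hK hs (by norm_num) (by norm_num) (by norm_num) (by norm_num) hu hg h (by positivity)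
  choose v hv1 hv2 hv3 using key
  exact ⟨v, hv1, hv2, fun a n => hv3 n a⟩

theorem chWL {e : OpenPartialHomeomorph R4 R4} (hm : MPre e) {G : R4 → Matrix (Fin 4) (Fin 4) ℝ}
    (hG : IsWD 2 e.source e G) {Ω' : Set R4} (hΩ' : IsOpen Ω') (hs : Ω' ⊆ e.target)
    {f : R4 → ℝ} {g : R4 → R4} (hf : LpL 2 Ω' f) (hg : ∀ a, LpL 2 Ω' (fun x => g x a))
    (h : WG Ω' f g) :
    WG (e.source ∩ e ⁻¹' Ω') (fun y => f (e y)) (fun y => (G y)ᵀ *ᵥ g (e y)) := by
  intro ψ hψ a
  set Ω := e.source ∩ e ⁻¹' Ω' with hΩd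
  have hΩ : IsOpen Ω := e.isOpen_inter_preimage hΩ'
  set K := tsupport ψ with hKd
  have hK : IsCompact K := hψ.cpt
  have hKΩ : K ⊆ Ω := hψ.supp
  have hKs : K ⊆ e.source := hKΩ.trans inter_subset_left
  have hcK : ContinuousOn e K := e.continuousOn.mono hKs
  have hL : IsCompact (e '' K) := hK.image_of_continuousOn hcK
  have hLs : e '' K ⊆ Ω' := by
    rintro _ ⟨y, hy, rfl⟩
    exact (hKΩ hy).2
  have hpre : e.source ∩ e ⁻¹' (e '' K) = K := by
    ext y
    constructor
    · rintro ⟨hy, z, hz, hzy⟩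
      rwa [← e.injOn (hKs hz) hy hzy]
    · intro hy
      exact ⟨hKs hy, y, hy, rfl⟩
  have hmap : Measure.map e (volume.restrict K) = volume.restrict (e '' K) := by
    rw [← map_restrict hm hL.measurableSet (hLs.trans hs), hpre]
  have haem : AEMeasurable e (volume.restrict K) := ChV.aem e hK.measurableSet hKs
  obtain ⟨v, hv1, hv2, hv3⟩ := ChL_seq hΩ' hL hLs hf hg h
  have cψ : Continuous ψ := hψ.smooth.continuous
  have cdψ : Continuous (pd a ψ) := (pd_smooth a hψ.smooth).continuous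
  have hG1 : IsWD 1 Ω e G :=
    ⟨fun b a => ((hG.lp b a).exp (by norm_num)).mono inter_subset_left,
      fun b => (hG.wg b).mono inter_subset_left⟩
  have hGK : ∀ b, MemLp (fun x => G x b a) 2 (volume.restrict K) := fun b => hG.lp b a K hKs hK
  have huK : ∀ b, MemLp (fun x => G x b a * ψ x) 2 (volume.restrict K) := by
    intro b
    obtain ⟨C, hC⟩ := hK.exists_bound_of_continuousOn cψ.continuousOn
    refine MemLp.of_le_mul (c := C) (hGK b)
      ((hGK b).1.mul cψ.aestronglyMeasurable) ?_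
    filter_upwards [ae_restrict_mem hK.measurableSet] with x hx
    rw [norm_mul, mul_comm]
    exact mul_le_mul_of_nonneg_right (hC x hx) (norm_nonneg _)
  have hgL : ∀ b, MemLp (fun x => g x b) 2 (volume.restrict (e '' K)) := fun b => hg b _ hLs hL
  have hgK : ∀ b, MemLp (fun x => g (e x) b) 2 (volume.restrict K) := by
    intro b
    have := hgL b
    rw [← hmap] at this
    exact this.comp_of_map haem
  have hfL : MemLp f 2 (volume.restrict (e '' K)) := hf _ hLs hL
  have hfK : MemLp (fun x => f (e x)) 2 (volume.restrict K) := by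
    have := hfL
    rw [← hmap] at this
    exact this.comp_of_map haem
  have hdL : MemLp (pd a ψ) 2 (volume.restrict K) := by
    have : LpL 2 univ (pd a ψ) := LpL.of_cont isOpen_univ cdψ.continuousOn
    exact this _ (subset_univ _) hK
  have hvL : ∀ b n, MemLp (fun x => pd b (v n) x) 2 (volume.restrict (e '' K)) := by
    intro b n
    have : LpL 2 univ (fun x => pd b (v n) x) :=
      LpL.of_cont isOpen_univ (pd_smooth b (hv1 n)).continuous.continuousOn
    exact this _ (subset_univ _) hL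
  have hvK : ∀ b n, MemLp (fun x => pd b (v n) (e x)) 2 (volume.restrict K) := by
    intro b n
    have := hvL b n
    rw [← hmap] at this
    exact this.comp_of_map haem
  have hwL : ∀ n, MemLp (v n) 2 (volume.restrict (e '' K)) := by
    intro n
    have : LpL 2 univ (v n) := LpL.of_cont isOpen_univ (hv1 n).continuous.continuousOn
    exact this _ (subset_univ _) hL
  have hwK : ∀ n, MemLp (fun x => v n (e x)) 2 (volume.restrict K) := by
    intro n
    have := hwL n
    rw [← hmap] at this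
    exact this.comp_of_map haem
  have hnorm : ∀ b n, eLpNorm (fun x => pd b (v n) (e x) - g (e x) b) 2 (volume.restrict K) ≤
      ENNReal.ofReal (1 / ((n : ℝ) + 1)) := by
    intro b n
    have h1 := hv3 b n
    rw [← hmap, eLpNorm_map_measure _ haem] at h1
    · exact h1
    · rw [hmap]
      exact (hvL b n).1.sub (hgL b).1
  have hnorm' : ∀ n, eLpNorm (fun x => v n (e x) - f (e x)) 2 (volume.restrict K) ≤
      ENNReal.ofReal (1 / ((n : ℝ) + 1)) := by
    intro n
    have h1 := hv2 n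
    rw [← hmap, eLpNorm_map_measure _ haem] at h1
    · exact h1
    · rw [hmap]
      exact (hwL n).1.sub hfL.1
  have hid : ∀ n, ∫ x in K, pd a ψ x * v n (e x) =
      -(∑ b, ∫ x in K, (G x b a * ψ x) * pd b (v n) (e x)) := by
    intro n
    have hcs : ContinuousOn e Ω := e.continuousOn.mono inter_subset_left
    have h3 := chS hΩ hcs hG1 (hv1 n) ψ hψ a
    have h0 : ∫ x in K, pd a ψ x * v n (e x) = ∫ x in K, v n (e x) * pd a ψ x := by
      refine integral_congr_ae (Eventually.of_forall fun x => ?_)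
      exact mul_comm _ _
    rw [h0, ← Prd.setInt' a (fun x => v n (e x)), h3, Prd.setInt, ← integral_finsetSum]
    · congr 1
      refine integral_congr_ae (Eventually.of_forall fun x => ?_)
      simp only [Matrix.mulVec, dotProduct, Matrix.transpose_apply]
      rw [Finset.sum_mul]
      exact Finset.sum_congr rfl (fun b _ => by ring)
    · intro b _
      exact MemLp.integrable_mul (huK b) (hvK b n)
  have l1 : Tendsto (fun n => ∫ x in K, pd a ψ x * v n (e x)) atTop
      (𝓝 (∫ x in K, pd a ψ x * f (e x))) :=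
    ChW.lim2 hdL hfK hwK hnorm'
  have l2 : ∀ b, Tendsto (fun n => ∫ x in K, (G x b a * ψ x) * pd b (v n) (e x)) atTop
      (𝓝 (∫ x in K, (G x b a * ψ x) * g (e x) b)) := fun b =>
    ChW.lim2 (huK b) (hgK b) (hvK b) (hnorm b)
  have l4 := (tendsto_finsetSum (Finset.univ : Finset (Fin 4)) (fun b _ => l2 b)).neg
  simp_rw [← hid] at l4
  have h6 := tendsto_nhds_unique l1 l4
  have h0 : ∫ x in K, f (e x) * pd a ψ x = ∫ x in K, pd a ψ x * f (e x) := by
    refine integral_congr_ae (Eventually.of_forall fun x => ?_)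
    exact mul_comm _ _
  rw [Prd.setInt' a (fun x => f (e x)), h0, h6, Prd.setInt, ← integral_finsetSum]
  · congr 1
    refine integral_congr_ae (Eventually.of_forall fun x => ?_)
    simp only [Matrix.mulVec, dotProduct, Matrix.transpose_apply]
    rw [Finset.sum_mul]
    exact Finset.sum_congr rfl (fun b _ => by ring)
  · intro b _
    exact MemLp.integrable_mul (huK b) (hgK b)

end Pool.Agent.SYD
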