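import Pool.Agent.SYH.Par
import Pool.Agent.SYH.SgL

/-!
# SYD/Defs: symplectic atlases of class `W^{1,2}` (finite Dirichlet energy)

`MP_9a66f1_gt`: the four-sphere has no topological symplectic atlas whose transition maps have finite Dirichlet energy.
Basic notions (`R4`, `J`, `Test`, `LpL`, `WG`, `IsWD`, `MPre`, `Curl`, `lam0`, `pair`) are in `Pool/Agent/SYH`.
-/

open MeasureTheory Set Filter Topology
open scoped ContDiff Matrix ENNReal

namespace Pool.Agent.SYD

open Pool.Agent.SYH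

/-- an atlas with measure preserving symplectic transition maps of class `W^{1,2}_loc` -/
structure At (M : Type*) [TopologicalSpace M] (ι : Type*) where
  x : ι → OpenPartialHomeomorph M R4
  G : ι → ι → R4 → Matrix (Fin 4) (Fin 4) ℝ
  cov : ∀ m, ∃ i, m ∈ (x i).source
  wd : ∀ i j, IsWD 2 ((x i).symm.trans (x j)).source ((x i).symm.trans (x j)) (G i j)
  sy : ∀ i j, ∀ᵐ y, y ∈ ((x i).symm.trans (x j)).source → (G i j y)ᵀ * J * G i j y = J
  mp : ∀ i j, MPre ((x i).symm.trans (x j))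

namespace At

variable {M : Type*} [TopologicalSpace M] {ι : Type*} (A : At M ι)

/-- the transition map from chart `i` to chart `j` -/
noncomputable def tr (i j : ι) : OpenPartialHomeomorph R4 R4 := (A.x i).symm.trans (A.x j)

/-- the set `V` in the chart `i` -/
def D (i : ι) (V : Set M) : Set R4 := (A.x i).target ∩ (A.x i).symm ⁻¹' V

/-- `u` is a continuous function on `V`, with differential `β` of class `L^2_loc` (in every chart) -/
structure AC (V : Set M) (u : M → ℝ) (β : ι → R4 → R4) : Prop where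
  cont : ContinuousOn u V
  lp : ∀ i a, LpL 2 (A.D i V) (fun y => β i y a)
  wg : ∀ i, WG (A.D i V) (fun y => u ((A.x i).symm y)) (β i)

/-- `α` is a one-form of class `L^q_loc` on `V` -/
structure Fm (q : ℝ≥0∞) (V : Set M) (α : ι → R4 → R4) : Prop where
  lp : ∀ i a, LpL q (A.D i V) (fun y => α i y a)
  cp : ∀ i j, ∀ᵐ y, y ∈ A.D i (V ∩ (A.x j).source) → α i y = (A.G i j y)ᵀ *ᵥ α j (A.tr i j y)

/-- `f` is a function of class `L^2_loc` on `V`, with differential `α` of class `L^1_loc` (in every chart) -/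
structure PG (V : Set M) (f : M → ℝ) (α : ι → R4 → R4) : Prop where
  l2 : ∀ i, LpL 2 (A.D i V) (fun y => f ((A.x i).symm y))
  fm : A.Fm 1 V α
  wg : ∀ i, WG (A.D i V) (fun y => f ((A.x i).symm y)) (α i)

/-- the standard primitive of the chart `i`, seen in the chart `j` -/
noncomputable def lam (i j : ι) (y : R4) : R4 := (A.G j i y)ᵀ *ᵥ lam0 (A.tr j i y)

/-- `f` and `g` agree almost everywhere near `m` -/
def Eg (m : M) (f g : M → ℝ) : Prop :=
  ∃ O, IsOpen O ∧ m ∈ O ∧ ∀ i, ∀ᵐ y, y ∈ A.D i O → f ((A.x i).symm y) = g ((A.x i).symm y)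

/-- `f` has a differential near `m` -/
def Pg (m : M) (f : M → ℝ) : Prop := ∃ O, IsOpen O ∧ m ∈ O ∧ ∃ α, A.PG O f α

/-- `df = λ_j - λ_i` near `m` -/
def Fg (i j : ι) (m : M) (f : M → ℝ) : Prop :=
  ∃ O, IsOpen O ∧ m ∈ O ∧ O ⊆ (A.x i).source ∩ (A.x j).source ∧
    A.PG O f (fun k y => A.lam j k y - A.lam i k y)

/-- `α = λ_i + dh` on `N` -/
def Nice (α : ι → R4 → R4) (N : Set M) (i : ι) : Prop :=
  IsOpen N ∧ N ⊆ (A.x i).source ∧ ∃ h γ, A.PG N h γ ∧
    ∀ j, ∀ᵐ y, y ∈ A.D j N → α j y = A.lam i j y + γ j y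

/-- a global primitive of the symplectic form -/
structure Prim (α : ι → R4 → R4) : Prop where
  fm : A.Fm 1 univ α
  loc : ∀ m, ∃ N i, m ∈ N ∧ A.Nice α N i

/-- the class of test functions: the algebra generated by the functions which are smooth in one of the charts -/
structure Gd (u : M → ℝ) (β : ι → R4 → R4) : Prop where
  ac : A.AC univ u β
  l1 : ∀ (W : Set M) (h : M → ℝ) (γ : ι → R4 → R4), IsOpen W → A.PG W h γ →
    ∀ i, LpL 1 (A.D i W) (fun y => pair (β i y) (γ i y))
  l2 : ∀ (W : Set M) (v : M → ℝ) (δ : ι → R4 → R4), IsOpen W → A.AC W v δ →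
    ∀ i, LpL 2 (A.D i W) (fun y => pair (β i y) (δ i y))
  st : ∀ (W : Set M) (h : M → ℝ) (γ : ι → R4 → R4) (v : M → ℝ) (δ : ι → R4 → R4) (T : Set M)
    (i : ι), IsOpen W → A.PG W h γ → A.AC univ v δ → IsCompact T → T ⊆ W ∩ (A.x i).source →
    (∀ m ∉ T, v m = 0) →
    ∫ y in A.D i W, (v ((A.x i).symm y) * pair (β i y) (γ i y) +
      h ((A.x i).symm y) * pair (β i y) (δ i y)) = 0

/-- `η` is a test function in the chart `i`, extended by zero; `β` is its differential -/
structure IsBump (i : ι) (ψ : R4 → ℝ) (η : M → ℝ) (β : ι → R4 → R4) : Prop where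
  ac : A.AC univ η β
  test : Test (A.x i).target ψ
  eq : ∀ m ∈ (A.x i).source, η m = ψ (A.x i m)
  off : ∀ m, m ∉ (A.x i).symm '' tsupport ψ → η m = 0

end At

end Pool.Agent.SYD
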