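import Pool.Agent.SYD.A0s
import Pool.Agent.SYH.Dwd

/-!
# SYD/Lam: the standard primitive of the chart `i`

As `SYH/LPr.local_prim` (`p = 2`): `LpL 2`: `lam0 ∘ tr j i` is continuous on `D j (x i).source`, `LpL.cont_mul`.  Compatibility:
`cocycle` and `tr_tr`.  `Curl`: `curl_pull` and `symp`.
-/

open MeasureTheory Set Filter Topology
open scoped ContDiff Matrix ENNReal

namespace Pool.Agent.SYD

open Pool.Agent.SYH

namespace At

variable {M : Type*} [TopologicalSpace M] {ι : Type*} (A : At M ι)

private theorem Lam_cont_lam0 : Continuous lam0 := by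
  unfold lam0
  fun_prop

private theorem Lam_cont (i j : ι) : ContinuousOn (A.tr j i) (A.D j (A.x i).source) := by
  have := (A.tr j i).continuousOn
  rwa [A.tr_source] at this

theorem lam_fm (i : ι) : A.Fm 2 (A.x i).source (A.lam i) := by
  have hV : IsOpen (A.x i).source := (A.x i).open_source
  refine ⟨?_, ?_⟩
  · intro j a
    have e : (fun y => A.lam i j y a) =
        fun y => ∑ b ∈ (Finset.univ : Finset (Fin 4)), lam0 (A.tr j i y) b * A.G j i y b a := by
      funext y
      simp only [lam, Matrix.mulVec, dotProduct, Matrix.transpose_apply]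
      exact Finset.sum_congr rfl fun b _ => mul_comm _ _
    rw [e]
    refine LpL.sum _ fun b _ => ?_
    refine LpL.cont_mul (A.D_open j hV) ?_ ((A.isWD j i).lp b a)
    exact ((continuous_apply b).comp Lam_cont_lam0).comp_continuousOn (Lam_cont A i j)
  · intro j k
    filter_upwards [A.cocycle j k i] with y hy hm
    have hm' : y ∈ A.D j ((A.x k).source ∩ (A.x i).source) := by
      rwa [inter_comm] at hm
    have hk : y ∈ A.D j (A.x k).source := A.D_mono j inter_subset_left hm'
    show (A.G j i y)ᵀ *ᵥ lam0 (A.tr j i y) =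
      (A.G j k y)ᵀ *ᵥ ((A.G k i (A.tr j k y))ᵀ *ᵥ lam0 (A.tr k i (A.tr j k y)))
    rw [hy hm', A.tr_tr hk, Matrix.transpose_mul, Matrix.mulVec_mulVec]

theorem lam_curl (i j : ι) : Curl (A.D j (A.x i).source) (A.lam i j) (fun _ => J) := by
  have hV : IsOpen (A.x i).source := (A.x i).open_source
  refine Curl.congr (curl_pull (A.D_open j hV) (Lam_cont A i j) (A.isWD_two j i)) ?_ ?_
  · exact Eventually.of_forall fun y _ => rfl
  · filter_upwards [A.symp j i] with y hy hm
    exact (hy hm).symm

end At

end Pool.Agent.SYD
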