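import Pool.Agent.SYD.ApL
import Pool.Agent.SYH.Prd
import Pool.Agent.SYH.Dwd

/-!
# SYD/WGm: product rule for a continuous function with gradient in `L²` and an `L²` function with gradient in `L¹`

`K = tsupport ψ`.  `apx` with `q = 2`: smooth `u_n → u` uniformly on `K`, `∂_a u_n → g_a` in `L²(K)`.  `apxL` with `r = 2`,
`q = 1`: smooth `f_n → f` in `L²(K)`, `∂_a f_n → h_a` in `L¹(K)`.  For smooth functions
`∫ u_n f_n ∂_a ψ = - ∫ (u_n ∂_a f_n + f_n ∂_a u_n) ψ` (`int_pd` for `u_n f_n ψ`; or `Prd.ibp`); both sides converge: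
`u_n f_n → u f` in `L¹(K)`, `u_n ∂_a f_n → u h_a` in `L¹(K)`, `f_n ∂_a u_n → f g_a` in `L¹(K)` (Cauchy-Schwarz, `dwd_cs`).
-/

open MeasureTheory Set Filter Topology
open scoped ContDiff Matrix ENNReal

namespace Pool.Agent.SYD

open Pool.Agent.SYH

private theorem WGm_l1 {K : Set R4} {q : R4 → ℝ} {ε : ℝ} (hε : 0 ≤ ε)
    (hm : AEStronglyMeasurable q (volume.restrict K))
    (h : eLpNorm q 1 (volume.restrict K) ≤ ENNReal.ofReal ε) : ∫ x in K, |q x| ≤ ε := by
  rw [eLpNorm_one_eq_lintegral_enorm] at h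
  calc ∫ x in K, |q x| = ∫ x in K, ‖q x‖ := rfl
    _ = (∫⁻ x in K, ‖q x‖ₑ).toReal := integral_norm_eq_lintegral_enorm hm
    _ ≤ (ENNReal.ofReal ε).toReal := ENNReal.toReal_mono ENNReal.ofReal_ne_top h
    _ = ε := ENNReal.toReal_ofReal hε

theorem WG.mulL {Ω : Set R4} (hΩ : IsOpen Ω) {u f : R4 → ℝ} {g h : R4 → R4}
    (hu : ContinuousOn u Ω) (hg : ∀ a, LpL 2 Ω (fun x => g x a)) (hf : LpL 2 Ω f)
    (hh : ∀ a, LpL 1 Ω (fun x => h x a)) (h1 : WG Ω u g) (h2 : WG Ω f h) :
    WG Ω (fun x => u x * f x) (fun x => u x • h x + f x • g x) := by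
  intro ψ hψ a
  set K := tsupport ψ with hKd
  have hK : IsCompact K := hψ.cpt
  have hs : K ⊆ Ω := hψ.supp
  have cψ : Continuous ψ := hψ.smooth.continuous
  have cdψ : Continuous (pd a ψ) := (pd_smooth a hψ.smooth).continuous
  have h12 : (1 : ℝ≥0∞) ≤ 2 := one_le_two
  have p1 : ContinuousOn (fun x => u x * pd a ψ x) Ω := hu.mul cdψ.continuousOn
  have p2 : ContinuousOn (fun x => u x * ψ x) Ω := hu.mul cψ.continuousOn
  have p3 : LpL 2 Ω (fun x => ψ x * g x a) := LpL.cont_mul hΩ cψ.continuousOn (hg a)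
  have A1 : IntegrableOn (fun x => (u x * pd a ψ x) * f x) K :=
    Prd.intOn hK hs (LpL.cont_mul hΩ p1 (hf.exp h12))
  have A2 : IntegrableOn (fun x => (u x * ψ x) * h x a) K :=
    Prd.intOn hK hs (LpL.cont_mul hΩ p2 (hh a))
  have A3 : IntegrableOn (fun x => (ψ x * g x a) * f x) K :=
    Prd.intOn hK hs (LpL.mul p3 hf)
  have e1 : ∫ x, (u x * f x) * pd a ψ x = ∫ x in K, (u x * pd a ψ x) * f x := by
    rw [Prd.setInt' a (fun x => u x * f x)]
    refine integral_congr_ae (Eventually.of_forall fun x => ?_)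
    simp only
    ring
  have e2 : ∫ x, (u x • h x + f x • g x) a * ψ x =
      (∫ x in K, (u x * ψ x) * h x a) + ∫ x in K, (ψ x * g x a) * f x := by
    rw [Prd.setInt (fun x => (u x • h x + f x • g x) a), ← integral_add A2 A3]
    refine integral_congr_ae (Eventually.of_forall fun x => ?_)
    simp only [Pi.add_apply, Pi.smul_apply, smul_eq_mul]
    ring
  have M1 : MemLp (fun x => u x * pd a ψ x) 2 (volume.restrict K) :=
    LpL.of_cont hΩ p1 K hs hK
  have M3 : MemLp (fun x => ψ x * g x a) 2 (volume.restrict K) := p3 K hs hK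
  obtain ⟨C, hC⟩ := hK.exists_bound_of_continuousOn (p2.mono hs)
  have hC' : ∀ x ∈ K, |u x * ψ x| ≤ max C 0 := fun x hx => (hC x hx).trans (le_max_left _ _)
  have hC0 : 0 ≤ max C 0 := le_max_right _ _
  have hzero : (∫ x in K, (u x * pd a ψ x) * f x) +
      ((∫ x in K, (u x * ψ x) * h x a) + ∫ x in K, (ψ x * g x a) * f x) = 0 := by
    apply dwd_zero (C := (eLpNorm (fun x => u x * pd a ψ x) 2 (volume.restrict K)).toReal +
      max C 0 + (eLpNorm (fun x => ψ x * g x a) 2 (volume.restrict K)).toReal) (by positivity)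
    intro ε hε
    obtain ⟨v, hv, hv1, hv2⟩ := apxL hΩ hK hs (q := 1) (r := 2) le_rfl ENNReal.one_ne_top h12
      ENNReal.ofNat_ne_top hf hh h2 hε
    have cv : Continuous v := hv.continuous
    have cdv : Continuous (pd a v) := (pd_smooth a hv).continuous
    have B1 : IntegrableOn (fun x => (u x * pd a ψ x) * v x) K :=
      ((p1.mono hs).mul cv.continuousOn).integrableOn_compact hK
    have B2 : IntegrableOn (fun x => (u x * ψ x) * pd a v x) K :=
      ((p2.mono hs).mul cdv.continuousOn).integrableOn_compact hK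
    have vL : LpL 2 Ω v := LpL.of_cont hΩ cv.continuousOn
    have B3 : IntegrableOn (fun x => (ψ x * g x a) * v x) K :=
      Prd.intOn hK hs (LpL.mul p3 vL)
    have hsm := WG.mul hΩ hu cv.continuousOn (fun b => (hg b).exp h12)
      (fun b => LpL.of_cont hΩ (pd_smooth b hv).continuous.continuousOn) h1 (WG.of_smooth hv) ψ hψ a
    have f1 : ∫ x, (u x * v x) * pd a ψ x = ∫ x in K, (u x * pd a ψ x) * v x := by
      rw [Prd.setInt' a (fun x => u x * v x)]
      refine integral_congr_ae (Eventually.of_forall fun x => ?_)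
      simp only
      ring
    have f2 : ∫ x, (u x • (fun b => pd b v x) + v x • g x) a * ψ x =
        (∫ x in K, (u x * ψ x) * pd a v x) + ∫ x in K, (ψ x * g x a) * v x := by
      rw [Prd.setInt (fun x => (u x • (fun b => pd b v x) + v x • g x) a), ← integral_add B2 B3]
      refine integral_congr_ae (Eventually.of_forall fun x => ?_)
      simp only [Pi.add_apply, Pi.smul_apply, smul_eq_mul]
      ring
    rw [f1, f2] at hsm
    have c1 : ∫ x in K, (u x * pd a ψ x) * (v x - f x) =
        (∫ x in K, (u x * pd a ψ x) * v x) - ∫ x in K, (u x * pd a ψ x) * f x := by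
      rw [← integral_sub B1 A1]
      refine integral_congr_ae (Eventually.of_forall fun x => ?_)
      simp only
      ring
    have c2 : ∫ x in K, (u x * ψ x) * (pd a v x - h x a) =
        (∫ x in K, (u x * ψ x) * pd a v x) - ∫ x in K, (u x * ψ x) * h x a := by
      rw [← integral_sub B2 A2]
      refine integral_congr_ae (Eventually.of_forall fun x => ?_)
      simp only
      ring
    have c3 : ∫ x in K, (ψ x * g x a) * (v x - f x) =
        (∫ x in K, (ψ x * g x a) * v x) - ∫ x in K, (ψ x * g x a) * f x := by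
      rw [← integral_sub B3 A3]
      refine integral_congr_ae (Eventually.of_forall fun x => ?_)
      simp only
      ring
    have hQ : MemLp (fun x => v x - f x) 2 (volume.restrict K) :=
      (vL K hs hK).sub (hf K hs hK)
    have b1 := dwd_cs M1 hQ hε.le hv1
    have b3 := dwd_cs M3 hQ hε.le hv1
    have hm : AEStronglyMeasurable (fun x => pd a v x - h x a) (volume.restrict K) :=
      cdv.aestronglyMeasurable.sub (hh a K hs hK).1
    have hint : IntegrableOn (fun x => pd a v x - h x a) K :=
      (cdv.continuousOn.integrableOn_compact hK).sub (Prd.intOn hK hs (hh a))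
    have b2 : |∫ x in K, (u x * ψ x) * (pd a v x - h x a)| ≤ max C 0 * ε := by
      calc |∫ x in K, (u x * ψ x) * (pd a v x - h x a)|
          ≤ ∫ x in K, |(u x * ψ x) * (pd a v x - h x a)| := abs_integral_le_integral_abs
        _ ≤ ∫ x in K, max C 0 * |pd a v x - h x a| := by
            apply setIntegral_mono_on
            · exact (hint.continuousOn_mul (p2.mono hs) hK).abs
            · exact hint.abs.const_mul _
            · exact hK.measurableSet
            · intro x hx
              rw [abs_mul]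
              exact mul_le_mul_of_nonneg_right (hC' x hx) (abs_nonneg _)
        _ = max C 0 * ∫ x in K, |pd a v x - h x a| := by rw [integral_const_mul]
        _ ≤ max C 0 * ε := mul_le_mul_of_nonneg_left (WGm_l1 hε.le hm (hv2 a)) hC0
    have key : (∫ x in K, (u x * pd a ψ x) * f x) +
        ((∫ x in K, (u x * ψ x) * h x a) + ∫ x in K, (ψ x * g x a) * f x) =
        -((∫ x in K, (u x * pd a ψ x) * (v x - f x)) +
          (∫ x in K, (u x * ψ x) * (pd a v x - h x a)) +
          ∫ x in K, (ψ x * g x a) * (v x - f x)) := by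
      rw [c1, c2, c3, hsm]
      ring
    rw [key, abs_neg]
    calc _ ≤ |∫ x in K, (u x * pd a ψ x) * (v x - f x)| +
          |∫ x in K, (u x * ψ x) * (pd a v x - h x a)| +
          |∫ x in K, (ψ x * g x a) * (v x - f x)| := abs_add_three _ _ _
      _ ≤ _ := by
          rw [add_mul, add_mul]
          exact add_le_add (add_le_add b1 b2) b3
  rw [e1, e2]
  linarith

end Pool.Agent.SYD
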