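import Pool.Agent.SYD.A0s
import Pool.Agent.SYD.WGm

/-!
# SYD/PGs: calculus of the functions of class `PG`

Everything chart by chart (`A.D_open`, `A.D_mono`, `LpL.*`, `WGL.*`, `Fm.*`).  `PG.mul`: `WG.mulL` in each chart
(`u ∘ (x i).symm` is continuous: `A0s_cont`), `LpL.cont_mul`, `LpL.mul`; compatibility: at `y ∈ D i (V ∩ (x j).source)` the values
of `u` and `f` at `(x i).symm y = (x j).symm (tr i j y)` agree (`symm_tr`), and `AC.fm`, `PG.fm`.
`PG.unique`: `WG.unique` is `WG.unique` for two gradients of the same function.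
-/

open MeasureTheory Set Filter Topology
open scoped ContDiff Matrix ENNReal

namespace Pool.Agent.SYD

open Pool.Agent.SYH

namespace At

variable {M : Type*} [TopologicalSpace M] {ι : Type*} {A : At M ι}
  {V W : Set M} {f g u : M → ℝ} {α β : ι → R4 → R4}

/-- constants are of class `L^q_loc` -/
theorem PGs_const {q : ℝ≥0∞} {Ω : Set R4} (t : ℝ) : LpL q Ω (fun _ => t) := by
  intro K _ hK
  have : IsFiniteMeasure (volume.restrict K) := ⟨by
    rw [Measure.restrict_apply_univ]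
    exact hK.measure_lt_top⟩
  exact memLp_const t

/-- the function of a `PG` is of class `L^1_loc` in the charts -/
theorem PG.l1 (h : A.PG V f α) (i : ι) : LpL 1 (A.D i V) (fun y => f ((A.x i).symm y)) :=
  (h.l2 i).exp A.one_le

theorem PG.mono (h : A.PG V f α) (hs : W ⊆ V) : A.PG W f α where
  l2 := fun i => (h.l2 i).mono (A.D_mono i hs)
  fm := h.fm.mono hs
  wg := fun i => (h.wg i).mono (A.D_mono i hs)

theorem PG.const (A : At M ι) (V : Set M) (t : ℝ) : A.PG V (fun _ => t) (fun _ _ => 0) where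
  l2 := fun _ => PGs_const t
  fm := Fm.zero
  wg := fun _ => WG.const t

theorem PG.add (h : A.PG V f α) (h' : A.PG V g β) :
    A.PG V (fun m => f m + g m) (fun i y => α i y + β i y) where
  l2 := fun i => (h.l2 i).add (h'.l2 i)
  fm := h.fm.add h'.fm
  wg := fun i => WGL.add (h.l1 i) (h.fm.lp i) (h'.l1 i) (h'.fm.lp i) (h.wg i) (h'.wg i)

theorem PG.smul (h : A.PG V f α) (t : ℝ) : A.PG V (fun m => t * f m) (fun i y => t • α i y) where
  l2 := fun i => (h.l2 i).const_mul t
  fm := h.fm.smul t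
  wg := fun i => (h.wg i).smul t

theorem PG.mul (hV : IsOpen V) (h : A.AC V u β) (h' : A.PG V f α) :
    A.PG V (fun m => u m * f m)
      (fun i y => u ((A.x i).symm y) • α i y + f ((A.x i).symm y) • β i y) where
  l2 := fun i => (h'.l2 i).cont_mul (A.D_open i hV) (A0s_cont h.cont i)
  fm := by
    refine ⟨fun i a => ?_, fun i j => ?_⟩
    · exact ((h'.fm.lp i a).cont_mul (A.D_open i hV) (A0s_cont h.cont i)).add
        ((h'.l2 i).mul (h.lp i a))
    · filter_upwards [(h.fm hV).cp i j, h'.fm.cp i j] with y h1 h2 hy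
      have h3 : y ∈ A.D i (A.x j).source := A.D_mono i inter_subset_right hy
      simp only [A.symm_tr h3]
      rw [h1 hy, h2 hy, Matrix.mulVec_add, Matrix.mulVec_smul, Matrix.mulVec_smul]
  wg := fun i => WG.mulL (A.D_open i hV) (A0s_cont h.cont i) (h.lp i) (h'.l2 i) (h'.fm.lp i)
    (h.wg i) (h'.wg i)

theorem PG.congr (h : A.PG V f α)
    (hf : ∀ i, ∀ᵐ y, y ∈ A.D i V → g ((A.x i).symm y) = f ((A.x i).symm y))
    (hα : ∀ i, ∀ᵐ y, y ∈ A.D i V → β i y = α i y) : A.PG V g β where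
  l2 := fun i => (h.l2 i).congr (hf i)
  fm := h.fm.congr hα
  wg := fun i => WGL.congr (h.wg i) (hf i) (hα i)

theorem PG.unique (hV : IsOpen V) (h : A.PG V f α) (h' : A.PG V f β) (i : ι) :
    ∀ᵐ y, y ∈ A.D i V → β i y = α i y :=
  WG.unique (A.D_open i hV) (h.fm.lp i) (h'.fm.lp i) (h.wg i) (h'.wg i)

/-- the pairing of forms is invariant under the transition maps -/
theorem pair_inv {q q' : ℝ≥0∞} (hα : A.Fm q V α) (hβ : A.Fm q' W β) (i j : ι) :
    ∀ᵐ y, y ∈ A.D i (V ∩ W ∩ (A.x j).source) →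
      pair (α i y) (β i y) = pair (α j (A.tr i j y)) (β j (A.tr i j y)) := by
  filter_upwards [hα.cp i j, hβ.cp i j, A.symp i j] with y h1 h2 h3 hy
  have h4 : y ∈ A.D i (V ∩ (A.x j).source) := ⟨hy.1, hy.2.1.1, hy.2.2⟩
  have h5 : y ∈ A.D i (W ∩ (A.x j).source) := ⟨hy.1, hy.2.1.2, hy.2.2⟩
  have h6 : y ∈ A.D i (A.x j).source := ⟨hy.1, hy.2.2⟩
  rw [h1 h4, h2 h5, pair_symp (h3 h6)]

end At

end Pool.Agent.SYD
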