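import Pool.Agent.SYD.PoD
import Pool.Agent.SYD.ChL
import Pool.Agent.SYD.Lam
import Pool.Agent.SYD.PGs

/-!
# SYD/FEx: `λ_j - λ_i` is locally exact

Chart `i`: on `Ω = D i (x j).source` (open) the form `θ = lam j i - lam i i` is of class `L²_loc` (`lam_fm`), with `Curl Ω θ 0`
(`lam_curl`, `Curl.sub`, as `J - J = 0`).  `closedBall (x i m) R ⊆ Ω`, `B = ball (x i m) R`; `poincare_L2` gives `f_i` on `B`.
`O = (x i).source ∩ x i ⁻¹' B` (open, `⊆ (x i).source ∩ (x j).source`), `f = f_i ∘ x i` on `O` (e.g. `f m = f_i (x i m)`).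
Chart `k`: `D k O = (tr k i).source ∩ tr k i ⁻¹' B`; there `f ((x k).symm y) = f_i (tr k i y)`: `L²_loc` by `LpL.comp`,
and `chWL` for `e = tr k i`, `Ω' = B ∩ D i (x k).source` gives the weak gradient `(G k i y)ᵀ θ (tr k i y)`, which equals
`lam j k y - lam i k y` a.e. by the compatibility in `lam_fm` (`V = (x j).source`, `V = (x i).source`).
The form `lam j - lam i` is `Fm 2`, so `Fm 1`, on `O` (`Fm.sub`, `Fm.mono`, `Fm.exp`).
-/

open MeasureTheory Set Filter Topology
open scoped ContDiff Matrix ENNReal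

namespace Pool.Agent.SYD

open Pool.Agent.SYH

namespace At

variable {M : Type*} [TopologicalSpace M] {ι : Type*} (A : At M ι)

private theorem FEx_lpconst {Ω : Set R4} (c : ℝ) : LpL 1 Ω (fun _ => c) := by
  intro K _ hK
  have : IsFiniteMeasure (volume.restrict K) := ⟨by simpa using hK.measure_lt_top⟩
  exact memLp_const _

theorem Fg_ex {i j : ι} {m : M} (hi : m ∈ (A.x i).source) (hj : m ∈ (A.x j).source) :
    ∃ f, A.Fg i j m f := by
  have hWo : IsOpen ((A.x i).source ∩ (A.x j).source) :=
    (A.x i).open_source.inter (A.x j).open_source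
  have hfm : A.Fm 2 ((A.x i).source ∩ (A.x j).source) (fun k y => A.lam j k y - A.lam i k y) :=
    Fm.sub ((A.lam_fm j).mono inter_subset_right) ((A.lam_fm i).mono inter_subset_left)
  have hcurl : ∀ k, Curl (A.D k ((A.x i).source ∩ (A.x j).source))
      (fun y => A.lam j k y - A.lam i k y) 0 := by
    intro k
    have h1 := Curl.sub ((A.lam_curl j k).mono (A.D_mono k inter_subset_right))
      ((A.lam_curl i k).mono (A.D_mono k inter_subset_left))
      (fun a => (((A.lam_fm j).mono inter_subset_right).lp k a).exp A.one_le)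
      (fun a => (((A.lam_fm i).mono inter_subset_left).lp k a).exp A.one_le)
      (fun a b => FEx_lpconst (J a b)) (fun a b => FEx_lpconst (J a b))
    have e : (fun _ : R4 => J - J) = (0 : R4 → Matrix (Fin 4) (Fin 4) ℝ) := by
      funext x
      exact sub_self J
    rw [e] at h1
    exact h1
  have hz : A.x i m ∈ A.D i ((A.x i).source ∩ (A.x j).source) := A.x_mem_D hi ⟨hi, hj⟩
  have hDo : IsOpen (A.D i ((A.x i).source ∩ (A.x j).source)) := A.D_open i hWo
  obtain ⟨R, hR, hs⟩ := Metric.nhds_basis_closedBall.mem_iff.1 (hDo.mem_nhds hz)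
  obtain ⟨F, hFm, hFw⟩ := poincare_L2 hDo hR hs (hfm.lp i) (hcurl i)
  have hN : IsOpen ((A.x i).source ∩ A.x i ⁻¹' Metric.ball (A.x i m) R) :=
    (A.x i).isOpen_inter_preimage Metric.isOpen_ball
  have hNV : (A.x i).source ∩ A.x i ⁻¹' Metric.ball (A.x i m) R ⊆
      (A.x i).source ∩ (A.x j).source := by
    rintro m' ⟨h1, h2⟩
    have h3 := hs (Metric.ball_subset_closedBall h2)
    have h4 := (A.mem_D.1 h3).2
    rwa [(A.x i).left_inv h1] at h4
  refine ⟨fun m' => F (A.x i m'), _, hN, ⟨hi, Metric.mem_ball_self hR⟩, hNV, ?_, ?_, ?_⟩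
  · intro k
    have ht : Metric.ball (A.x i m) R ∩ A.D i (A.x k).source ⊆ (A.tr k i).target := by
      rw [A.tr_target]
      exact inter_subset_right
    have hF2 : LpL 2 (Metric.ball (A.x i m) R ∩ A.D i (A.x k).source) F := by
      intro K hK _
      exact hFm.mono_measure (Measure.restrict_mono
        ((hK.trans inter_subset_left).trans Metric.ball_subset_closedBall) le_rfl)
    refine (hF2.comp (A.mpre k i) ht).mono ?_
    intro y hy
    obtain ⟨h2, h3, h4⟩ := A.mem_D.1 hy
    have h5 : y ∈ (A.tr k i).source := by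
      rw [A.tr_source]
      exact A.mem_D.2 ⟨h2, h3⟩
    refine ⟨h5, ?_, ?_⟩
    · rw [A.tr_apply]
      exact h4
    · rw [← A.tr_target]
      exact (A.tr k i).map_source h5
  · exact (hfm.mono hNV).exp A.one_le
  · intro k
    have hO : IsOpen (Metric.ball (A.x i m) R ∩ A.D i (A.x k).source) :=
      Metric.isOpen_ball.inter (A.D_open i (A.x k).open_source)
    have ht : Metric.ball (A.x i m) R ∩ A.D i (A.x k).source ⊆ (A.tr k i).target := by
      rw [A.tr_target]
      exact inter_subset_right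
    have hG : IsWD 2 (A.tr k i).source (A.tr k i) (A.G k i) := by
      rw [A.tr_source]
      exact A.isWD_two k i
    have hF2 : LpL 2 (Metric.ball (A.x i m) R ∩ A.D i (A.x k).source) F := by
      intro K hK _
      exact hFm.mono_measure (Measure.restrict_mono
        ((hK.trans inter_subset_left).trans Metric.ball_subset_closedBall) le_rfl)
    have hsub : Metric.ball (A.x i m) R ∩ A.D i (A.x k).source ⊆
        A.D i ((A.x i).source ∩ (A.x j).source) :=
      fun y hy => hs (Metric.ball_subset_closedBall hy.1)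
    have h1 := chWL (A.mpre k i) hG hO ht hF2 (fun a => (hfm.lp i a).mono hsub)
      (AtB_mono hFw inter_subset_left)
    have hsub2 : A.D k ((A.x i).source ∩ A.x i ⁻¹' Metric.ball (A.x i m) R) ⊆
        (A.tr k i).source ∩ A.tr k i ⁻¹' (Metric.ball (A.x i m) R ∩ A.D i (A.x k).source) := by
      intro y hy
      obtain ⟨h2, h3, h4⟩ := A.mem_D.1 hy
      have h5 : y ∈ (A.tr k i).source := by
        rw [A.tr_source]
        exact A.mem_D.2 ⟨h2, h3⟩
      refine ⟨h5, ?_, ?_⟩
      · rw [A.tr_apply]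
        exact h4
      · rw [← A.tr_target]
        exact (A.tr k i).map_source h5
    refine (AtB_mono h1 hsub2).congr (fun y _ => ?_) ?_
    · rw [A.tr_apply]
    · filter_upwards [hfm.cp k i] with y hy hy'
      have hs3 : (A.x i).source ∩ A.x i ⁻¹' Metric.ball (A.x i m) R ⊆
          (A.x i).source ∩ (A.x j).source ∩ (A.x i).source := fun m' hm' => ⟨hNV hm', hm'.1⟩
      exact hy (A.D_mono k hs3 hy')

end At

end Pool.Agent.SYD
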