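import Pool.Agent.SYD.GdI

/-!
# SYD/GdA: the class `Gd` is an algebra

`l1`, `l2`: `pair` is bilinear, continuous factors (`LpL.cont_mul`, `A0s_cont`).
`Gd.mul`, `st`: `pair (u₁ β₂ + u₂ β₁) γ = u₁ pair β₂ γ + u₂ pair β₁ γ`.  `st` for `u₂` with `v' = u₁ v`, `δ' = u₁ δ + v β₁`
(`AC.mul`) and for `u₁` with `v'' = u₂ v`, `δ'' = u₂ δ + v β₂`.  The sum of the two integrands is the integrand for `u₁ u₂`, because
`h v pair β₂ β₁ + h v pair β₁ β₂ = 0`; `st_integrable` for both (`l1`, and `l2` for `AC W v' δ'`).
`Gd.add` (with `st_integrable`), `Gd.smul`, `Gd.const` (`pair 0 _ = 0`): clear.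
-/

open MeasureTheory Set Filter Topology
open scoped ContDiff Matrix ENNReal

namespace Pool.Agent.SYD

open Pool.Agent.SYH

private theorem pair_zl (v : R4) : pair 0 v = 0 := by
  simp [pair]

private theorem pair_sl (t : ℝ) (u v : R4) : pair (t • u) v = t * pair u v := by
  simp only [pair, Pi.smul_apply, smul_eq_mul]
  ring

private theorem pair_sr (t : ℝ) (u v : R4) : pair u (t • v) = t * pair u v := by
  simp only [pair, Pi.smul_apply, smul_eq_mul]
  ring

private theorem pair_al (u v w : R4) : pair (u + v) w = pair u w + pair v w := by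
  simp only [pair, Pi.add_apply]
  ring

private theorem pair_ar (u v w : R4) : pair u (v + w) = pair u v + pair u w := by
  simp only [pair, Pi.add_apply]
  ring

private theorem pair_anti (u v : R4) : pair u v = - pair v u := by
  simp only [pair]
  ring

namespace At

variable {M : Type*} [TopologicalSpace M] [T2Space M] {ι : Type*} {A : At M ι}
  {u v : M → ℝ} {α β : ι → R4 → R4}

theorem Gd.const (A : At M ι) (t : ℝ) : A.Gd (fun _ => t) (fun _ _ => 0) where
  ac := AC.const A univ t
  l1 := fun W h γ _ _ i => by simpa only [pair_zl] using LpL.zero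
  l2 := fun W v δ _ _ i => by simpa only [pair_zl] using LpL.zero
  st := fun W h γ v δ T i _ _ _ _ _ _ => by
    simp only [pair_zl, mul_zero, add_zero, integral_zero]

theorem Gd.smul (h : A.Gd u β) (t : ℝ) : A.Gd (fun m => t * u m) (fun i y => t • β i y) where
  ac := h.ac.smul t
  l1 := fun W f γ hW hf i => by
    simpa only [pair_sl] using (h.l1 W f γ hW hf i).const_mul t
  l2 := fun W f δ hW hf i => by
    simpa only [pair_sl] using (h.l2 W f δ hW hf i).const_mul t
  st := fun W f γ v δ T i hW hf hv hT hs h0 => by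
    have h1 := h.st W f γ v δ T i hW hf hv hT hs h0
    have h2 : ∀ y, v ((A.x i).symm y) * pair (t • β i y) (γ i y) +
        f ((A.x i).symm y) * pair (t • β i y) (δ i y) =
        t * (v ((A.x i).symm y) * pair (β i y) (γ i y) +
          f ((A.x i).symm y) * pair (β i y) (δ i y)) := by
      intro y
      rw [pair_sl, pair_sl]
      ring
    simp only [h2]
    rw [integral_const_mul, h1, mul_zero]

theorem Gd.add (h : A.Gd u α) (h' : A.Gd v β) :
    A.Gd (fun m => u m + v m) (fun i y => α i y + β i y) where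
  ac := h.ac.add isOpen_univ h'.ac
  l1 := fun W f γ hW hf i => by
    simpa only [pair_al] using (h.l1 W f γ hW hf i).add (h'.l1 W f γ hW hf i)
  l2 := fun W f δ hW hf i => by
    simpa only [pair_al] using (h.l2 W f δ hW hf i).add (h'.l2 W f δ hW hf i)
  st := fun W f γ w δ T i hW hf hv hT hs h0 => by
    have h1 := h.st W f γ w δ T i hW hf hv hT hs h0
    have h2 := h'.st W f γ w δ T i hW hf hv hT hs h0
    have hvW : A.AC W w δ := hv.mono (subset_univ _)
    have i1 := st_integrable hW hf hv hT hs h0 (h.l1 W f γ hW hf i) (h.l2 W w δ hW hvW i)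
    have i2 := st_integrable hW hf hv hT hs h0 (h'.l1 W f γ hW hf i) (h'.l2 W w δ hW hvW i)
    have h3 : ∀ y, w ((A.x i).symm y) * pair (α i y + β i y) (γ i y) +
        f ((A.x i).symm y) * pair (α i y + β i y) (δ i y) =
        (w ((A.x i).symm y) * pair (α i y) (γ i y) +
          f ((A.x i).symm y) * pair (α i y) (δ i y)) +
        (w ((A.x i).symm y) * pair (β i y) (γ i y) +
          f ((A.x i).symm y) * pair (β i y) (δ i y)) := by
      intro y
      rw [pair_al, pair_al]
      ring
    simp only [h3]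
    rw [integral_add i1 i2, h1, h2, add_zero]

theorem Gd.mul (h : A.Gd u α) (h' : A.Gd v β) :
    A.Gd (fun m => u m * v m)
      (fun i y => u ((A.x i).symm y) • β i y + v ((A.x i).symm y) • α i y) where
  ac := h.ac.mul isOpen_univ h'.ac
  l1 := fun W f γ hW hf i => by
    have hu := (A0s_cont h.ac.cont i).mono (A.D_mono i (subset_univ W))
    have hv := (A0s_cont h'.ac.cont i).mono (A.D_mono i (subset_univ W))
    simpa only [pair_al, pair_sl] using
      (LpL.cont_mul (A.D_open i hW) hu (h'.l1 W f γ hW hf i)).add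
        (LpL.cont_mul (A.D_open i hW) hv (h.l1 W f γ hW hf i))
  l2 := fun W f δ hW hf i => by
    have hu := (A0s_cont h.ac.cont i).mono (A.D_mono i (subset_univ W))
    have hv := (A0s_cont h'.ac.cont i).mono (A.D_mono i (subset_univ W))
    simpa only [pair_al, pair_sl] using
      (LpL.cont_mul (A.D_open i hW) hu (h'.l2 W f δ hW hf i)).add
        (LpL.cont_mul (A.D_open i hW) hv (h.l2 W f δ hW hf i))
  st := fun W f γ w δ T i hW hf hv hT hs h0 => by
    have e1 := h.ac.mul isOpen_univ hv
    have e2 := h'.ac.mul isOpen_univ hv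
    have z1 : ∀ m ∉ T, u m * w m = 0 := fun m hm => by rw [h0 m hm, mul_zero]
    have z2 : ∀ m ∉ T, v m * w m = 0 := fun m hm => by rw [h0 m hm, mul_zero]
    have h1 := h'.st W f γ _ _ T i hW hf e1 hT hs z1
    have h2 := h.st W f γ _ _ T i hW hf e2 hT hs z2
    have i1 := st_integrable hW hf e1 hT hs z1 (h'.l1 W f γ hW hf i)
      (h'.l2 W _ _ hW (e1.mono (subset_univ _)) i)
    have i2 := st_integrable hW hf e2 hT hs z2 (h.l1 W f γ hW hf i)
      (h.l2 W _ _ hW (e2.mono (subset_univ _)) i)
    have h3 := integral_add i1 i2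
    rw [h1, h2, add_zero] at h3
    rw [← h3]
    refine integral_congr_ae (Eventually.of_forall fun y => ?_)
    simp only [pair_al, pair_ar, pair_sl, pair_sr]
    rw [pair_anti (α i y) (β i y)]
    ring

end At

end Pool.Agent.SYD
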