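import Pool.Agent.SYD.PGs

/-!
# SYD/GdB: bump functions: the differential is bounded in its own chart; pairings

`S = (x r).source`, `T = (x r).symm '' tsupport ψ` compact `⊆ S`.
`bump_own`: on `D r univ` the function `η ∘ (x r).symm` is `ψ`, so `β r = ∇ψ` a.e. (`WG.unique`, `WG.of_smooth`).
`pair_lp`: `q = 1` or `2`; `ε` a form of class `L^q_loc` on `W`.  On `D i (W ∩ S)`: `pair (β i y) (ε i y) = pair (β r z) (ε r z)` with
`z = tr i r y` (`pair_inv`), and `pair (β r) (ε r)` is of class `L^q_loc` on `D r (W ∩ S)` because `β r = ∇ψ` is bounded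
(continuous): `LpL.cont_mul`; then `LpL.comp (A.mpre i r)`.  On `D i (W ∩ Tᶜ)`: `β i = 0` a.e. (`AC.zero_of_const`).  These two open sets
cover `D i W`: `LpL.loc`.
-/

open MeasureTheory Set Filter Topology
open scoped ContDiff Matrix ENNReal

namespace Pool.Agent.SYD

open Pool.Agent.SYH

namespace At

variable {M : Type*} [TopologicalSpace M] [T2Space M] {ι : Type*} {A : At M ι}
  {r : ι} {ψ : R4 → ℝ} {η : M → ℝ} {β : ι → R4 → R4}

theorem IsBump.own (h : A.IsBump r ψ η β) :
    ∀ᵐ y, y ∈ A.D r univ → β r y = fun a => pd a ψ y := by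
  have hO : IsOpen (A.D r univ) := A.D_open r isOpen_univ
  have h1 : WG (A.D r univ) ψ (β r) := by
    refine (h.ac.wg r).congr (fun y hy => ?_) (Eventually.of_forall fun _ _ => rfl)
    have e := h.eq ((A.x r).symm y) ((A.x r).map_target hy.1)
    rw [(A.x r).right_inv hy.1] at e
    exact e.symm
  have h2 : WG (A.D r univ) ψ (fun x a => pd a ψ x) := WG.of_smooth h.test.smooth
  exact WG.unique hO
    (fun a => LpL.of_cont hO (pd_smooth a h.test.smooth).continuous.continuousOn)
    (fun a => A0s_one h.ac.lp r a) h2 h1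

theorem IsBump.pair_lp (h : A.IsBump r ψ η β) {q : ℝ≥0∞} {W : Set M} (hW : IsOpen W)
    {ε : ι → R4 → R4} (hε : A.Fm q W ε) (i : ι) :
    LpL q (A.D i W) (fun y => pair (β i y) (ε i y)) := by
  set S := (A.x r).source with hS
  have hSo : IsOpen S := (A.x r).open_source
  set T : Set M := (A.x r).symm '' tsupport ψ with hT
  have hTt : tsupport ψ ⊆ (A.x r).target := h.test.supp
  have hTc : IsCompact T :=
    h.test.cpt.isCompact.image_of_continuousOn ((A.x r).continuousOn_symm.mono hTt)
  have hTs : T ⊆ S := by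
    rintro _ ⟨y, hy, rfl⟩
    exact (A.x r).map_target (hTt hy)
  have hTo : IsOpen Tᶜ := hTc.isClosed.isOpen_compl
  -- the pairing in the chart `r`
  have hF : LpL q (A.D r W) (fun z => pair (β r z) (ε r z)) := by
    have hO : IsOpen (A.D r W) := A.D_open r hW
    have hc : ∀ a b, LpL q (A.D r W) (fun z => pd a ψ z * ε r z b) := fun a b =>
      LpL.cont_mul hO (pd_smooth a h.test.smooth).continuous.continuousOn (hε.lp r b)
    refine (((hc 0 1).sub (hc 1 0)).add ((hc 2 3).sub (hc 3 2))).congr ?_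
    filter_upwards [h.own] with z hz hzW
    rw [hz (A.D_mono r (subset_univ _) hzW)]
    rfl
  refine LpL.loc fun y hy => ?_
  by_cases hyS : (A.x i).symm y ∈ S
  · refine ⟨A.D i S, A.D_open i hSo, ⟨hy.1, hyS⟩, ?_⟩
    rw [← A.D_inter, inter_comm]
    have hsub : A.D r (W ∩ (A.x i).source) ⊆ (A.tr i r).target := by
      rw [A.tr_target]
      exact A.D_mono r inter_subset_right
    have h1 := LpL.comp (A.mpre i r) hsub (hF.mono (A.D_mono r inter_subset_left))
    rw [← A.D_tr] at h1
    refine h1.congr ?_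
    filter_upwards [pair_inv (h.ac.fm isOpen_univ) hε i r] with z hz hzW
    refine hz ?_
    rw [univ_inter]
    exact hzW
  · refine ⟨A.D i Tᶜ, A.D_open i hTo, ⟨hy.1, fun hm => hyS (hTs hm)⟩, ?_⟩
    refine (LpL.zero (p := q) (Ω := A.D i Tᶜ ∩ A.D i W)).congr ?_
    filter_upwards [AC.zero_of_const isOpen_univ h.ac hTo (subset_univ _)
      (fun m hm => h.off m hm) i] with z hz hzW
    rw [hz hzW.1]
    simp [pair]

end At

end Pool.Agent.SYD
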