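import Pool.Agent.SYD.PGs

/-!
# SYD/GdI: the integrand in the Stokes formula of `Gd` is integrable

`v = 0` off the compact set `T ⊆ W ∩ (x i).source` and `δ = 0` a.e. off `T` (`AC.zero_of_const` on `Tᶜ`), so the integrand vanishes
a.e. off the compact set `K = x i '' T ⊆ D i W`.  On `K`: `v` is bounded and `pair β γ ∈ L¹` (`h1`), and
`h ∈ L²`, `pair β δ ∈ L²` (`h2`).  Compare `SYH/Par` (`mul_pair_integrable`).
-/

open MeasureTheory Set Filter Topology
open scoped ContDiff Matrix ENNReal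

namespace Pool.Agent.SYD

open Pool.Agent.SYH

namespace At

variable {M : Type*} [TopologicalSpace M] [T2Space M] {ι : Type*} {A : At M ι}

private theorem GdI_image {W T : Set M} {i : ι} (hs : T ⊆ W ∩ (A.x i).source) :
    A.x i '' T ⊆ A.D i W := by
  rintro _ ⟨m, hm, rfl⟩
  exact A.x_mem_D (hs hm).2 (hs hm).1

private theorem GdI_mem {W T : Set M} {i : ι} {y : R4} (hy : y ∈ A.D i W)
    (h : (A.x i).symm y ∈ T) : y ∈ A.x i '' T :=
  ⟨_, h, (A.x i).right_inv hy.1⟩

theorem st_integrable {W T : Set M} {h v : M → ℝ} {β γ δ : ι → R4 → R4} {i : ι} (hW : IsOpen W)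
    (hh : A.PG W h γ) (hv : A.AC univ v δ) (hT : IsCompact T) (hs : T ⊆ W ∩ (A.x i).source)
    (h0 : ∀ m ∉ T, v m = 0) (h1 : LpL 1 (A.D i W) (fun y => pair (β i y) (γ i y)))
    (h2 : LpL 2 (A.D i W) (fun y => pair (β i y) (δ i y))) :
    IntegrableOn (fun y => v ((A.x i).symm y) * pair (β i y) (γ i y) +
      h ((A.x i).symm y) * pair (β i y) (δ i y)) (A.D i W) := by
  have hK : IsCompact (A.x i '' T) :=
    hT.image_of_continuousOn ((A.x i).continuousOn.mono fun m hm => (hs hm).2)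
  have hKs : A.x i '' T ⊆ A.D i W := GdI_image hs
  have hc : ContinuousOn (fun y => v ((A.x i).symm y)) (A.D i W) :=
    A0s_cont (hv.cont.mono (subset_univ W)) i
  have hL1 : LpL 1 (A.D i W) (fun y => v ((A.x i).symm y) * pair (β i y) (γ i y)) :=
    LpL.cont_mul (A.D_open i hW) hc h1
  have hL2 : LpL 1 (A.D i W) (fun y => h ((A.x i).symm y) * pair (β i y) (δ i y)) :=
    (hh.l2 i).mul h2
  have hL := hL1.add hL2
  have h3 : IntegrableOn (fun y => v ((A.x i).symm y) * pair (β i y) (γ i y) +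
      h ((A.x i).symm y) * pair (β i y) (δ i y)) (A.x i '' T) := by
    have := hL _ hKs hK
    rwa [memLp_one_iff_integrable] at this
  refine h3.of_ae_sdiff_eq_zero (A.D_open i hW).measurableSet.nullMeasurableSet ?_
  have h4 := AC.zero_of_const (A := A) isOpen_univ hv (t := 0) hT.isClosed.isOpen_compl
    (subset_univ _) (fun m hm => h0 m hm) i
  filter_upwards [h4] with y hy hy'
  have h5 : (A.x i).symm y ∉ T := fun h => hy'.2 (GdI_mem hy'.1 h)
  have h6 : δ i y = 0 := hy ⟨hy'.1.1, h5⟩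
  rw [h0 _ h5, h6]
  simp [pair]

end At

end Pool.Agent.SYD
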