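import Pool.Agent.SYD.GdB
import Pool.Agent.SYD.GdI

/-!
# SYD/GdS: bump functions satisfy the Stokes formula

`S = (x r).source`, `T' = (x r).symm '' tsupport ψ` compact.  The integrand `I_i = v pair (β i) (γ i) + h pair (β i) (δ i)` vanishes a.e.
off `T ∩ T'` (`v = 0` off `T`, `δ = 0` a.e. off `T`, `β = 0` a.e. off `T'`: `AC.zero_of_const`).  So the integral over `D i W` is the integral over
`D i (W ∩ S)`, which is the integral over `D r (W ∩ (x i).source)` of `I_r` (`int_comp (A.mpre i r)`, `D_tr`, `pair_inv`, `symm_tr`), and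
this is the integral over `D r W`.
In the chart `r`: `w = v h` is of class `PG` on `W` with the differential `ω = v γ + h δ` (`PG.mul`), so `WG (D r W) (w ∘ (x r).symm) (ω r)`, and
`I_r = pair (β r) (ω r) = pair (∇ψ) (ω r)` a.e. (`IsBump.own`).  Let `κ` be a test function on `D r W` which is `1` on a neighbourhood of the compact
set `x r '' (T ∩ T') ⊆ D r W` (Mathlib `exists_contMDiff..` / `exists_smooth_..`; `SYH` uses `ContDiffBump`; e.g.
`exists_contDiff_tsupport_subset` and compactness).  `ψ' = κ ψ` is a test function on `D r W`, and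
`pair (∇ψ) (ω r) = pair (∇ψ') (ω r)` a.e. on `D r W`: off `x r '' T` (open, inside `D r W`) `ω r = 0` a.e. (`v = 0`, `δ = 0`); at the points of
`x r '' T` off `tsupport ψ`, `ψ` and `ψ'` vanish nearby; near the remaining points `ψ' = ψ`.
`pair (∇ψ') (ω r) = Σ ± ∂_a ψ' (ω r)_b` with `(a, b) = (0,1), (1,0), (2,3), (3,2)`; `∫ (ω r)_b ∂_a ψ' = - ∫ w ∂_b ∂_a ψ'` (test function `∂_a ψ'`),
and the sum is zero by `pd_comm`.
-/

open MeasureTheory Set Filter Topology
open scoped ContDiff Matrix ENNReal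

namespace Pool.Agent.SYD

open Pool.Agent.SYH

private theorem GdS_zl (v : R4) : pair 0 v = 0 := by
  simp [pair]

private theorem GdS_zr (v : R4) : pair v 0 = 0 := by
  simp [pair]

private theorem GdS_sr (t : ℝ) (u v : R4) : pair u (t • v) = t * pair u v := by
  simp only [pair, Pi.smul_apply, smul_eq_mul]
  ring

private theorem GdS_ar (u v w : R4) : pair u (v + w) = pair u v + pair u w := by
  simp only [pair, Pi.add_apply]
  ring

/-- a smooth cut-off function -/
private theorem GdS_cut {K Ω : Set R4} (hK : IsCompact K) (hΩ : IsOpen Ω) (hs : K ⊆ Ω) :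
    ∃ κ : R4 → ℝ, Test Ω κ ∧ ∀ y ∈ K, ∀ᶠ z in 𝓝 y, κ z = 1 := by
  obtain ⟨L, hL, hKL, hLΩ⟩ := exists_compact_between hK hΩ hs
  obtain ⟨f, hf1, hf2, -⟩ := exists_contMDiffMap_one_nhds_of_subset_interior (n := (⊤ : ℕ∞))
    (modelWithCornersSelf ℝ R4) hK.isClosed hKL
  have hsup : Function.support (f : R4 → ℝ) ⊆ L := by
    intro x hx
    by_contra h
    exact hx (hf2 x h)
  refine ⟨f, ⟨f.contMDiff.contDiff, HasCompactSupport.of_support_subset_isCompact hL hsup,
    (closure_minimal hsup hL.isClosed).trans hLΩ⟩, fun y hy => ?_⟩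
  exact (eventually_nhdsSet_iff_forall.1 hf1) y hy

/-- the pairing of an exact smooth form with an exact form has integral zero -/
private theorem GdS_smooth {Ω : Set R4} (hΩ : IsOpen Ω) {ψ w : R4 → ℝ} {g : R4 → R4}
    (hψ : Test Ω ψ) (hg : ∀ a, LpL 1 Ω (fun x => g x a)) (hw : WG Ω w g) :
    ∫ y in Ω, pair (fun a => pd a ψ y) (g y) = 0 := by
  have hI : ∀ a b : Fin 4, Integrable (fun x => g x a * pd b ψ x) := fun a b =>
    (hg a).int (hψ.pd b).smooth.continuous (hψ.pd b).cpt (hψ.pd b).supp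
  have hE : ∀ a b : Fin 4, ∫ x, g x a * pd b ψ x = ∫ x, g x b * pd a ψ x := by
    intro a b
    have h1 := hw _ (hψ.pd b) a
    have h2 := hw _ (hψ.pd a) b
    have h3 : ∫ x, w x * pd a (pd b ψ) x = ∫ x, w x * pd b (pd a ψ) x := by
      simp only [pd_comm a b hψ.smooth]
    rw [h1, h2] at h3
    linarith
  rw [setIntegral_eq_integral_of_forall_compl_eq_zero]
  · have e : ∀ y, pair (fun a => pd a ψ y) (g y) =
        (g y 1 * pd 0 ψ y - g y 0 * pd 1 ψ y) + (g y 3 * pd 2 ψ y - g y 2 * pd 3 ψ y) := by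
      intro y
      simp only [pair]
      ring
    simp only [e]
    have i1 : Integrable (fun y => g y 1 * pd 0 ψ y - g y 0 * pd 1 ψ y) := (hI 1 0).sub (hI 0 1)
    have i2 : Integrable (fun y => g y 3 * pd 2 ψ y - g y 2 * pd 3 ψ y) := (hI 3 2).sub (hI 2 3)
    rw [integral_add i1 i2,
      integral_sub (hI 1 0) (hI 0 1), integral_sub (hI 3 2) (hI 2 3), hE 1 0, hE 3 2]
    ring
  · intro y hy
    have h1 : y ∉ tsupport ψ := fun h => hy (hψ.supp h)
    have h2 : (fun a => pd a ψ y) = 0 := by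
      funext a
      exact pd_eq_zero a h1
    rw [h2, GdS_zl]

namespace At

variable {M : Type*} [TopologicalSpace M] [T2Space M] {ι : Type*} {A : At M ι}
  {r : ι} {ψ : R4 → ℝ} {η : M → ℝ} {β : ι → R4 → R4}

theorem IsBump.st (hb : A.IsBump r ψ η β) {W T : Set M} {h v : M → ℝ} {γ δ : ι → R4 → R4} {i : ι}
    (hW : IsOpen W) (hh : A.PG W h γ) (hv : A.AC univ v δ) (hT : IsCompact T)
    (hs : T ⊆ W ∩ (A.x i).source) (h0 : ∀ m ∉ T, v m = 0) :
    ∫ y in A.D i W, (v ((A.x i).symm y) * pair (β i y) (γ i y) +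
      h ((A.x i).symm y) * pair (β i y) (δ i y)) = 0 := by
  set S : Set M := (A.x r).source with hS
  set T' : Set M := (A.x r).symm '' tsupport ψ with hT'
  have hT'c : IsCompact T' :=
    hb.test.cpt.image_of_continuousOn ((A.x r).continuousOn_symm.mono hb.test.supp)
  have hT'S : T' ⊆ S := by
    rintro _ ⟨y, hy, rfl⟩
    exact (A.x r).map_target (hb.test.supp hy)
  have hβ0 : ∀ j, ∀ᵐ y, y ∈ A.D j T'ᶜ → β j y = 0 := fun j =>
    AC.zero_of_const (A := A) isOpen_univ hb.ac (t := 0) hT'c.isClosed.isOpen_compl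
      (subset_univ _) (fun m hm => hb.off m hm) j
  have hδ0 : ∀ j, ∀ᵐ y, y ∈ A.D j Tᶜ → δ j y = 0 := fun j =>
    AC.zero_of_const (A := A) isOpen_univ hv (t := 0) hT.isClosed.isOpen_compl
      (subset_univ _) (fun m hm => h0 m hm) j
  have mD : ∀ j {V : Set M}, IsOpen V → MeasurableSet (A.D j V) := fun j V hV =>
    (A.D_open j hV).measurableSet
  have hSo : IsOpen S := (A.x r).open_source
  -- step 1
  have e1 : ∫ y in A.D i W, (v ((A.x i).symm y) * pair (β i y) (γ i y) +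
      h ((A.x i).symm y) * pair (β i y) (δ i y)) =
      ∫ y in A.D i (W ∩ S), (v ((A.x i).symm y) * pair (β i y) (γ i y) +
      h ((A.x i).symm y) * pair (β i y) (δ i y)) := by
    apply setIntegral_eq_of_subset_of_ae_sdiff_eq_zero (mD i hW).nullMeasurableSet
      (A.D_mono i inter_subset_left)
    filter_upwards [hβ0 i] with y hy hy'
    have h1 : (A.x i).symm y ∉ T' := fun hm => hy'.2 ⟨hy'.1.1, hy'.1.2, hT'S hm⟩
    rw [hy ⟨hy'.1.1, h1⟩, GdS_zl, GdS_zl, mul_zero, mul_zero, add_zero]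
  -- step 2
  have e2 : ∫ y in A.D i (W ∩ S), (v ((A.x i).symm y) * pair (β i y) (γ i y) +
      h ((A.x i).symm y) * pair (β i y) (δ i y)) =
      ∫ y in A.D r (W ∩ (A.x i).source), (v ((A.x r).symm y) * pair (β r y) (γ r y) +
      h ((A.x r).symm y) * pair (β r y) (δ r y)) := by
    have h3 := int_comp (A.mpre i r) (B := A.D r (W ∩ (A.x i).source))
      (mD r (hW.inter (A.x i).open_source))
      (by rw [A.tr_target]; exact A.D_mono r inter_subset_right)
      (fun y => v ((A.x r).symm y) * pair (β r y) (γ r y) +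
      h ((A.x r).symm y) * pair (β r y) (δ r y))
    rw [← A.D_tr i r W] at h3
    rw [← h3]
    refine setIntegral_congr_ae (mD i (hW.inter hSo)) ?_
    filter_upwards [pair_inv (hb.ac.fm isOpen_univ) hh.fm i r,
      pair_inv (hb.ac.fm isOpen_univ) (hv.fm isOpen_univ) i r] with y hy1 hy2 hy'
    have hyS : y ∈ A.D i (A.x r).source := ⟨hy'.1, hy'.2.2⟩
    rw [hy1 ⟨hy'.1, ⟨mem_univ _, hy'.2.1⟩, hy'.2.2⟩,
      hy2 ⟨hy'.1, ⟨mem_univ _, mem_univ _⟩, hy'.2.2⟩, A.symm_tr hyS]
  -- step 3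
  have e3 : ∫ y in A.D r (W ∩ (A.x i).source), (v ((A.x r).symm y) * pair (β r y) (γ r y) +
      h ((A.x r).symm y) * pair (β r y) (δ r y)) =
      ∫ y in A.D r W, (v ((A.x r).symm y) * pair (β r y) (γ r y) +
      h ((A.x r).symm y) * pair (β r y) (δ r y)) := by
    symm
    apply setIntegral_eq_of_subset_of_ae_sdiff_eq_zero (mD r hW).nullMeasurableSet
      (A.D_mono r inter_subset_left)
    filter_upwards [hδ0 r] with y hy hy'
    have h1 : (A.x r).symm y ∉ T := fun hm => hy'.2 ⟨hy'.1.1, hy'.1.2, (hs hm).2⟩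
    rw [hy ⟨hy'.1.1, h1⟩, h0 _ h1, GdS_zr, zero_mul, mul_zero, add_zero]
  rw [e1, e2, e3]
  -- the chart `r`
  have hpg := PG.mul hW (hv.mono (subset_univ W)) hh
  have hDo : IsOpen (A.D r W) := A.D_open r hW
  have hKc : IsCompact (A.x r '' (T ∩ T')) :=
    (hT.inter hT'c).image_of_continuousOn
      ((A.x r).continuousOn.mono (inter_subset_right.trans hT'S))
  have hKs : A.x r '' (T ∩ T') ⊆ A.D r W := by
    rintro _ ⟨m, hm, rfl⟩
    exact A.x_mem_D (hT'S hm.2) (hs hm.1).1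
  obtain ⟨κ, hκ, hκ1⟩ := GdS_cut hKc hDo hKs
  have hψ' : Test (A.D r W) (fun y => ψ y * κ y) := hκ.mul hb.test.smooth
  have key := GdS_smooth hDo hψ' (hpg.fm.lp r) (hpg.wg r)
  refine Eq.trans (setIntegral_congr_ae hDo.measurableSet ?_) key
  filter_upwards [hb.own, hδ0 r] with y hy1 hy2 hy
  have hyβ : β r y = fun a => pd a ψ y := hy1 ⟨hy.1, mem_univ _⟩
  have hlin : pair (fun a => pd a (fun y => ψ y * κ y) y)
      (v ((A.x r).symm y) • γ r y + h ((A.x r).symm y) • δ r y) =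
      v ((A.x r).symm y) * pair (fun a => pd a (fun y => ψ y * κ y) y) (γ r y) +
      h ((A.x r).symm y) * pair (fun a => pd a (fun y => ψ y * κ y) y) (δ r y) := by
    rw [GdS_ar, GdS_sr, GdS_sr]
  rw [hlin]
  by_cases hm : (A.x r).symm y ∈ T
  · by_cases hyt : y ∈ tsupport ψ
    · have h1 : y ∈ A.x r '' (T ∩ T') :=
        ⟨(A.x r).symm y, ⟨hm, y, hyt, rfl⟩, (A.x r).right_inv hy.1⟩
      have h2 : (fun z => ψ z * κ z) =ᶠ[𝓝 y] ψ := by
        filter_upwards [hκ1 y h1] with z hz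
        rw [hz, mul_one]
      have h3 : (fun a => pd a (fun z => ψ z * κ z) y) = β r y := by
        rw [hyβ]
        funext a
        unfold pd
        rw [h2.fderiv_eq]
      rw [h3]
    · have h1 : β r y = 0 := by
        rw [hyβ]
        funext a
        exact pd_eq_zero a hyt
      have h2 : y ∉ tsupport (fun z => ψ z * κ z) := fun h => hyt (tsupport_mul_subset_left h)
      have h3 : (fun a => pd a (fun z => ψ z * κ z) y) = 0 := by
        funext a
        exact pd_eq_zero a h2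
      rw [h1, h3]
  · rw [hy2 ⟨hy.1, hm⟩, h0 _ hm, GdS_zr, GdS_zr, zero_mul, zero_mul, mul_zero]

theorem IsBump.gd (hb : A.IsBump r ψ η β) : A.Gd η β where
  ac := hb.ac
  l1 := fun W h γ hW hh i => hb.pair_lp hW hh.fm i
  l2 := fun W v δ hW hv i => hb.pair_lp hW (hv.fm hW) i
  st := fun W h γ v δ T i hW hh hv hT hs h0 => hb.st hW hh hv hT hs h0

end At

end Pool.Agent.SYD
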