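import Pool.Agent.SYD.Ins

/-!
# SYD/GlF: from the potentials to a global one-form

`σ` is a primitive on `univ` in the sense of `SYT` (`Coh`).  For every `m` choose an open `N m ∋ m` and `γ m` with
`PG (N m) (σ m) (γ m)` and, for all `m' ∈ N m`, `Fg (c m) (c m') m' (σ m - σ m')`; in particular (`m' = m`) `N m ⊆ (x (c m)).source` can be
achieved (`c m` satisfies `m ∈ (x (c m)).source`; intersect).
(1) For `m, m'` and `m'' ∈ N m ∩ N m'`: `Fg (c m) (c m') m'' (σ m - σ m')` (`Fg.add` of `Fg (c m) (c m'') m'' (σ m - σ m'')` and `Fg.neg` of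
`Fg (c m') (c m'') m'' (σ m' - σ m'')`), i.e. near `m''` the function `σ m - σ m'` has the differential `λ_{c m'} - λ_{c m}`; it also
has the differential `γ m - γ m'`; `PG.unique` and `ae_loc`: a.e. on `D j (N m ∩ N m')`:
`lam (c m) j + γ m j = lam (c m') j + γ m' j`.
(2) `M` is compact: finitely many `N (m_k)`, `k < n`, cover `M`.  `α j y = lam (c m_k) j y + γ (m_k) j y` for the least `k` with
`(x j).symm y ∈ N (m_k)` (and `0` if there is none).  By (1), `α j = lam (c m_k) j + γ (m_k) j` a.e. on `D j (N m_k)` for all `k`, and then a.e. on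
`D j (N m)` for all `m` by (1) again.  `Fm 1 univ α`: `Fm.loc`, `Fm.congr`, `Fm.add`, `lam_fm`, `PG.fm`.
-/

open MeasureTheory Set Filter Topology
open scoped ContDiff Matrix ENNReal

namespace Pool.Agent.SYD

open Pool.Agent.SYH

namespace At

variable {M : Type*} [TopologicalSpace M] [T2Space M] [CompactSpace M] {ι : Type*}

theorem prim_of_coh (A : At M ι) {c : M → ι} (hc : ∀ m, m ∈ (A.x (c m)).source)
    {σ : M → M → ℝ} (h : A.sys.Coh c univ σ) : ∃ α, A.Prim α := by
  -- the neighbourhoods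
  have h0 : ∀ m, ∃ N : Set M, IsOpen N ∧ m ∈ N ∧ N ⊆ (A.x (c m)).source ∧
      (∃ γ, A.PG N (σ m) γ) ∧ ∀ m' ∈ N, A.Fg (c m) (c m') m' (fun x => σ m x - σ m' x) := by
    intro m
    obtain ⟨h1, h2⟩ := h m (mem_univ m)
    obtain ⟨O, hO, hmO, γ, hγ⟩ := (show A.Pg m (σ m) from h1)
    obtain ⟨N', hN', hoN', hmN'⟩ := eventually_nhds_iff.1 h2
    refine ⟨O ∩ N' ∩ (A.x (c m)).source, (hO.inter hoN').inter (A.x (c m)).open_source,
      ⟨⟨hmO, hmN'⟩, hc m⟩, inter_subset_right, ⟨γ, ?_⟩, ?_⟩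
    · exact hγ.mono (inter_subset_left.trans inter_subset_left)
    · intro m' hm'
      exact hN' m' hm'.1.2
  choose N hNo hmN hNs hNγ hNF using h0
  choose γ hγ using hNγ
  -- compatibility
  have h1 : ∀ m m' j, ∀ᵐ y, y ∈ A.D j (N m ∩ N m') →
      A.lam (c m) j y + γ m j y = A.lam (c m') j y + γ m' j y := by
    intro m m' j
    refine ae_loc (P := fun y => A.lam (c m) j y + γ m j y = A.lam (c m') j y + γ m' j y)
      fun y hy => ?_
    have hy2 := hy.2
    have f1 := hNF m _ hy2.1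
    have f2 := hNF m' _ hy2.2
    obtain ⟨O, hO, hmO, -, hP⟩ := Fg.add f1 (Fg.neg f2)
    have hV : IsOpen (O ∩ (N m ∩ N m')) := hO.inter ((hNo m).inter (hNo m'))
    have p1 : A.PG (O ∩ (N m ∩ N m')) (σ m) (γ m) :=
      (hγ m).mono (inter_subset_right.trans inter_subset_left)
    have p2 : A.PG (O ∩ (N m ∩ N m')) (σ m') (γ m') :=
      (hγ m').mono (inter_subset_right.trans inter_subset_right)
    have p3 := (hP.mono (inter_subset_left : O ∩ (N m ∩ N m') ⊆ O))
    have p4 := p1.add (p2.smul (-1))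
    have p5 := p4.congr (g := fun x => (σ m x - σ ((A.x j).symm y) x) +
      -(σ m' x - σ ((A.x j).symm y) x)) (β := fun i y => γ m i y + (-1 : ℝ) • γ m' i y)
      (fun i => Eventually.of_forall fun z _ => by ring)
      (fun i => Eventually.of_forall fun z _ => rfl)
    refine ⟨A.D j (O ∩ (N m ∩ N m')), A.D_open j hV, ⟨hy.1, hmO, hy2⟩, ?_⟩
    filter_upwards [p3.unique hV p5 j] with z hz hz'
    have e := hz hz'
    have e2 : γ m j z = γ m' j z + (A.lam (c m') j z - A.lam (c m) j z) := by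
      rw [← e]
      module
    rw [e2]
    module
  -- a finite cover
  obtain ⟨t, ht⟩ := isCompact_univ.elim_finite_subcover N hNo
    (fun m _ => mem_iUnion.2 ⟨m, hmN m⟩)
  have h2 : ∀ m, ∃ k ∈ t, m ∈ N k := by
    intro m
    obtain ⟨k, hk⟩ := mem_iUnion.1 (ht (mem_univ m))
    obtain ⟨hk1, hk2⟩ := mem_iUnion.1 hk
    exact ⟨k, hk1, hk2⟩
  choose κ hκt hκN using h2
  refine ⟨fun j y => A.lam (c (κ ((A.x j).symm y))) j y + γ (κ ((A.x j).symm y)) j y, ?_⟩
  have key : ∀ m j, ∀ᵐ y, y ∈ A.D j (N m) →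
      A.lam (c (κ ((A.x j).symm y))) j y + γ (κ ((A.x j).symm y)) j y =
        A.lam (c m) j y + γ m j y := by
    intro m j
    have h3 : ∀ᵐ y, ∀ k ∈ t, y ∈ A.D j (N m ∩ N k) →
        A.lam (c m) j y + γ m j y = A.lam (c k) j y + γ k j y := by
      exact (ae_ball_iff t.countable_toSet).2 fun k _ => h1 m k j
    filter_upwards [h3] with y hy hyN
    exact (hy _ (hκt _) ⟨hyN.1, hyN.2, hκN _⟩).symm
  refine ⟨?_, ?_⟩
  · refine Fm.loc isOpen_univ fun m _ => ⟨N m, hNo m, hmN m, ?_⟩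
    have f1 : A.Fm 1 (N m) (A.lam (c m)) := ((A.lam_fm (c m)).mono (hNs m)).exp A.one_le
    have f2 := (f1.add (hγ m).fm).congr (fun j => key m j)
    exact f2.mono inter_subset_left
  · intro m
    exact ⟨N m, c m, hmN m, hNo m, hNs m, σ m, γ m, hγ m, fun j => key m j⟩

end At

end Pool.Agent.SYD
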