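import Pool.Agent.SYD.A0s

/-!
# SYD/Ins1: germs up to null sets

`Eg.const`: `D i O` is open and nonempty for a chart `i ∋ m` (`x_mem_D`, `D_open`), so it has positive measure
(`Measure.dense_of_ae` or `IsOpen.measure_pos`).  `Eg.pw`: let `N` be an open neighbourhood of `m` on which the hypothesis holds.  For
`y ∈ D i (N ∩ O)` there is a neighbourhood where `f ∘ (x i).symm = g ∘ (x i).symm` a.e., so this holds a.e. on `D i (N ∩ O)`
(`ae_loc`); on `D i (N \ O)` it holds everywhere.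
-/

open MeasureTheory Set Filter Topology
open scoped ContDiff Matrix ENNReal

namespace Pool.Agent.SYD

open Pool.Agent.SYH

namespace At

variable {M : Type*} [TopologicalSpace M] {ι : Type*} {A : At M ι}
  {m : M} {f g h f' g' : M → ℝ}

theorem Eg.near (h : A.Eg m f g) : ∀ᶠ m' in 𝓝 m, A.Eg m' f g := by
  obtain ⟨O, h1, h2, h3⟩ := h
  filter_upwards [h1.mem_nhds h2] with m' hm'
  exact ⟨O, h1, hm', h3⟩

theorem Eg.of (A : At M ι) (h : ∀ᶠ m' in 𝓝 m, f m' = g m') : A.Eg m f g := by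
  obtain ⟨O, h1, h2, h3⟩ := eventually_nhds_iff.1 h
  exact ⟨O, h2, h3, fun i => Eventually.of_forall fun y hy => h1 _ hy.2⟩

theorem Eg.symm (h : A.Eg m f g) : A.Eg m g f := by
  obtain ⟨O, h1, h2, h3⟩ := h
  refine ⟨O, h1, h2, fun i => ?_⟩
  filter_upwards [h3 i] with y hy hyO
  exact (hy hyO).symm

theorem Eg.trans (h1 : A.Eg m f g) (h2 : A.Eg m g h) : A.Eg m f h := by
  obtain ⟨O', h1', h2', h3'⟩ := h2
  obtain ⟨O, h1, h2, h3⟩ := h1
  refine ⟨O ∩ O', h1.inter h1', ⟨h2, h2'⟩, fun i => ?_⟩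
  filter_upwards [h3 i, h3' i] with y hy hy' hyO
  exact (hy ⟨hyO.1, hyO.2.1⟩).trans (hy' ⟨hyO.1, hyO.2.2⟩)

theorem Eg.add (h1 : A.Eg m f g) (h2 : A.Eg m f' g') :
    A.Eg m (fun x => f x + f' x) (fun x => g x + g' x) := by
  obtain ⟨O', h1', h2', h3'⟩ := h2
  obtain ⟨O, h1, h2, h3⟩ := h1
  refine ⟨O ∩ O', h1.inter h1', ⟨h2, h2'⟩, fun i => ?_⟩
  filter_upwards [h3 i, h3' i] with y hy hy' hyO
  show f _ + f' _ = g _ + g' _
  rw [hy ⟨hyO.1, hyO.2.1⟩, hy' ⟨hyO.1, hyO.2.2⟩]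

theorem Eg.neg (h1 : A.Eg m f g) : A.Eg m (fun x => -f x) (fun x => -g x) := by
  obtain ⟨O, h1, h2, h3⟩ := h1
  refine ⟨O, h1, h2, fun i => ?_⟩
  filter_upwards [h3 i] with y hy hyO
  show -f _ = -g _
  rw [hy hyO]

theorem Eg.const {c c' : ℝ} (h : A.Eg m (fun _ => c) (fun _ => c')) : c = c' := by
  obtain ⟨O, h1, h2, h3⟩ := h
  obtain ⟨i, hi⟩ := A.cov m
  by_contra hne
  have h4 : ∀ᵐ y, y ∉ A.D i O := by
    filter_upwards [h3 i] with y hy hyO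
    exact hne (hy hyO)
  have h5 : volume (A.D i O) = 0 := by
    have h6 := ae_iff.1 h4
    simpa using h6
  have h7 : 0 < volume (A.D i O) :=
    (A.D_open i h1).measure_pos volume ⟨A.x i m, A.x_mem_D hi h2⟩
  exact h7.ne' h5

theorem Eg.pw {O : Set M} (hO : IsOpen O)
    (h : ∀ᶠ m' in 𝓝 m, (m' ∈ O → A.Eg m' f g) ∧ (m' ∉ O → f m' = g m')) : A.Eg m f g := by
  obtain ⟨N, h1, h2, h3⟩ := eventually_nhds_iff.1 h
  refine ⟨N, h2, h3, fun i => ?_⟩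
  have h4 : ∀ᵐ y, y ∈ A.D i (N ∩ O) → f ((A.x i).symm y) = g ((A.x i).symm y) := by
    refine ae_loc fun y hy => ?_
    obtain ⟨O', h5, h6, h7⟩ := (h1 _ hy.2.1).1 hy.2.2
    exact ⟨A.D i O', A.D_open i h5, ⟨hy.1, h6⟩, h7 i⟩
  filter_upwards [h4] with y hy hyN
  by_cases hyO : (A.x i).symm y ∈ O
  · exact hy ⟨hyN.1, hyN.2, hyO⟩
  · exact (h1 _ hyN.2).2 hyO

end At

end Pool.Agent.SYD
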