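import Pool.Agent.SYD.PGc
import Pool.Agent.SYD.Cut
import Pool.Agent.SYD.Ins1

/-!
# SYD/Ins2: germs of class `PG`, germs of potentials of `λ_j - λ_i`

All by `PG.mono` (to the intersection of the neighbourhoods), `PG.congr`, `PG.add`, `PG.smul`, `PG.const`, `PG.mul`.
`Fg.sub`: the difference has the differential `(λ_j - λ_i) - (λ_j - λ_i) = 0`: `PG.locConst`.
-/

open MeasureTheory Set Filter Topology
open scoped ContDiff Matrix ENNReal

namespace Pool.Agent.SYD

open Pool.Agent.SYH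

namespace At

variable {M : Type*} [TopologicalSpace M] {ι : Type*} {A : At M ι}
  {m : M} {f g u : M → ℝ} {β : ι → R4 → R4} {i j k : ι}

theorem Pg.congr (h : A.Pg m f) (h' : A.Eg m f g) : A.Pg m g := by
  obtain ⟨O, hO, hm, α, hα⟩ := h
  obtain ⟨O', hO', hm', h1⟩ := h'
  refine ⟨O ∩ O', hO.inter hO', ⟨hm, hm'⟩, α, (hα.mono inter_subset_left).congr (fun i => ?_)
    (fun _ => Eventually.of_forall fun _ _ => rfl)⟩
  filter_upwards [h1 i] with y hy hd
  exact (hy (A.D_mono i inter_subset_right hd)).symm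

theorem Pg.add (h : A.Pg m f) (h' : A.Pg m g) : A.Pg m (fun x => f x + g x) := by
  obtain ⟨O, hO, hm, α, hα⟩ := h
  obtain ⟨O', hO', hm', α', hα'⟩ := h'
  exact ⟨O ∩ O', hO.inter hO', ⟨hm, hm'⟩, _,
    (hα.mono inter_subset_left).add (hα'.mono inter_subset_right)⟩

theorem Pg.neg (h : A.Pg m f) : A.Pg m (fun x => -f x) := by
  obtain ⟨O, hO, hm, α, hα⟩ := h
  refine ⟨O, hO, hm, _, (hα.smul (-1)).congr (fun i => Eventually.of_forall fun y _ => ?_)
    (fun _ => Eventually.of_forall fun _ _ => rfl)⟩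
  simp

theorem Pg.const (A : At M ι) (m : M) (c : ℝ) : A.Pg m (fun _ => c) :=
  ⟨univ, isOpen_univ, mem_univ _, _, PG.const A univ c⟩

theorem Pg.mul (h : A.AC univ u β) (h' : A.Pg m f) : A.Pg m (fun x => u x * f x) := by
  obtain ⟨O, hO, hm, α, hα⟩ := h'
  exact ⟨O, hO, hm, _, PG.mul hO (h.mono (subset_univ _)) hα⟩

theorem Fg.near (h : A.Fg i j m f) : ∀ᶠ m' in 𝓝 m, A.Fg i j m' f := by
  obtain ⟨O, hO, hm, hs, hf⟩ := h
  filter_upwards [hO.mem_nhds hm] with m' hm'
  exact ⟨O, hO, hm', hs, hf⟩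

theorem Fg.congr (h : A.Fg i j m f) (h' : A.Eg m f g) : A.Fg i j m g := by
  obtain ⟨O, hO, hm, hs, hα⟩ := h
  obtain ⟨O', hO', hm', h1⟩ := h'
  refine ⟨O ∩ O', hO.inter hO', ⟨hm, hm'⟩, fun x hx => hs hx.1,
    (hα.mono inter_subset_left).congr (fun i => ?_)
    (fun _ => Eventually.of_forall fun _ _ => rfl)⟩
  filter_upwards [h1 i] with y hy hd
  exact (hy (A.D_mono i inter_subset_right hd)).symm

theorem Fg.pg (h : A.Fg i j m f) : A.Pg m f := by
  obtain ⟨O, hO, hm, hs, hf⟩ := h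
  exact ⟨O, hO, hm, _, hf⟩

theorem Fg.sub (h : A.Fg i j m f) (h' : A.Fg i j m g) :
    ∃ c : ℝ, A.Eg m (fun x => f x - g x) (fun _ => c) := by
  obtain ⟨O, hO, hm, hs, hf⟩ := h
  obtain ⟨O', hO', hm', hs', hf'⟩ := h'
  have h1 : A.PG (O ∩ O') (fun x => f x - g x) (fun _ _ => 0) := by
    refine ((hf.mono inter_subset_left).add ((hf'.mono inter_subset_right).smul (-1))).congr
      (fun i => Eventually.of_forall fun y _ => ?_) (fun i => Eventually.of_forall fun y _ => ?_)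
    · ring
    · simp
  exact h1.locConst (hO.inter hO') ⟨hm, hm'⟩

theorem Fg.add (h : A.Fg i j m f) (h' : A.Fg j k m g) : A.Fg i k m (fun x => f x + g x) := by
  obtain ⟨O, hO, hm, hs, hf⟩ := h
  obtain ⟨O', hO', hm', hs', hf'⟩ := h'
  refine ⟨O ∩ O', hO.inter hO', ⟨hm, hm'⟩, fun x hx => ⟨(hs hx.1).1, (hs' hx.2).2⟩,
    ((hf.mono inter_subset_left).add (hf'.mono inter_subset_right)).congr
      (fun _ => Eventually.of_forall fun _ _ => rfl) (fun l => Eventually.of_forall fun y _ => ?_)⟩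
  abel

theorem Fg.neg (h : A.Fg i j m f) : A.Fg j i m (fun x => -f x) := by
  obtain ⟨O, hO, hm, hs, hf⟩ := h
  refine ⟨O, hO, hm, fun x hx => (hs hx).symm, (hf.smul (-1)).congr
      (fun _ => Eventually.of_forall fun y _ => ?_) (fun l => Eventually.of_forall fun y _ => ?_)⟩
  · simp
  · simp

theorem Fg.const (c : ℝ) (h : m ∈ (A.x i).source) : A.Fg i i m (fun _ => c) := by
  refine ⟨(A.x i).source, (A.x i).open_source, h, fun x hx => ⟨hx, hx⟩,
    (PG.const A _ c).congr (fun _ => Eventually.of_forall fun _ _ => rfl)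
      (fun l => Eventually.of_forall fun y _ => ?_)⟩
  simp

end At

end Pool.Agent.SYD
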