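import Pool.Agent.SYD.Poi
import Pool.Agent.SYH.Apx
import Pool.Agent.SYH.DivB

/-!
# SYD/LDa: the `L¹` Poincare inequality for continuous Sobolev functions

`B = closedBall z r ⊆ Ω` is compact.  `apx` with `q = 1`, `K = B`, `ε = 1/(n+1)`: smooth `v_n` with `v_n → u` uniformly on `B` and
`∂_a v_n → g_a` in `L¹(B)`.  Apply `poinc` with `q = 1` to `f = v_n - Σ_a c_a x_a` (smooth; `∂_a f = ∂_a v_n - c_a`):
`∫_B ∫_B |v_n x - v_n y - Σ c_a (x_a - y_a)| ≤ C r vol(B) Σ_a ∫_B |∂_a v_n - c_a|`.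
Right side `≤ C r vol(B) (Σ_a ∫_B |g_a - c_a| + 4 ε)`; left side `≥ ∫_B ∫_B |u x - u y - Σ c_a (x_a - y_a)| - 2 ε vol(B)²` (pointwise
`|u x - u y - ..| ≤ |v_n x - v_n y - ..| + 2 ε` on `B × B`).  Let `ε → 0` (`ENNReal.le_of_forall_pos_le_add`, all quantities but possibly
the right side are finite; if `Σ_a ∫_B |g_a - c_a| = ⊤` nothing is to be shown, and it is not).
-/

open MeasureTheory Set Filter Topology
open scoped ContDiff Matrix ENNReal

namespace Pool.Agent.SYD

open Pool.Agent.SYH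

theorem LDa_lim {L R K : ℝ≥0∞} (hK : K ≠ ⊤) (h : ∀ ε > 0, L ≤ R + K * ENNReal.ofReal ε) :
    L ≤ R := by
  have h1 : Tendsto (fun ε : ℝ => R + K * ENNReal.ofReal ε) (𝓝[>] 0) (𝓝 (R + K * 0)) := by
    refine Tendsto.const_add R ?_
    refine ENNReal.Tendsto.const_mul ?_ (Or.inr hK)
    have h2 := (ENNReal.continuous_ofReal.tendsto 0)
    rw [ENNReal.ofReal_zero] at h2
    exact h2.mono_left nhdsWithin_le_nhds
  rw [mul_zero, add_zero] at h1
  exact ge_of_tendsto h1 (by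
    filter_upwards [self_mem_nhdsWithin] with ε hε
    exact h ε hε)

theorem LDa_pd {v : R4 → ℝ} (hv : ContDiff ℝ ∞ v) (c : R4) (a : Fin 4) (x : R4) :
    pd a (fun x => v x - ∑ b, c b * x b) x = pd a v x - c a := by
  have h1 : DifferentiableAt ℝ v x := (hv.differentiable (by simp)).differentiableAt
  have h2 : HasFDerivAt (fun x : R4 => ∑ b, c b * x b)
      (∑ b, c b • (ContinuousLinearMap.proj b : R4 →L[ℝ] ℝ)) x := by
    refine HasFDerivAt.fun_sum fun b _ => ?_
    exact (ContinuousLinearMap.proj (R := ℝ) (φ := fun _ : Fin 4 => ℝ) b).hasFDerivAt.const_mul (c b)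
  unfold pd
  rw [(h1.hasFDerivAt.fun_sub h2).fderiv]
  simp [Pi.single_apply]

theorem poincC : ∃ C : ℝ≥0∞, C ≠ ⊤ ∧ ∀ (Ω : Set R4) (u : R4 → ℝ) (g : R4 → R4) (c : R4) (z : R4)
    (r : ℝ), IsOpen Ω → ContinuousOn u Ω → (∀ a, LpL 1 Ω (fun x => g x a)) → WG Ω u g → 0 < r →
    Metric.closedBall z r ⊆ Ω →
    ∫⁻ x in Metric.closedBall z r, ∫⁻ y in Metric.closedBall z r,
        ‖u x - u y - ∑ a, c a * (x a - y a)‖ₑ ≤
      C * ENNReal.ofReal r * volume (Metric.closedBall z r) *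
        ∑ a, ∫⁻ x in Metric.closedBall z r, ‖g x a - c a‖ₑ := by
  obtain ⟨C, hC, hP⟩ := poinc (le_refl (1 : ℝ))
  refine ⟨C, hC, fun Ω u g c z r hΩ hu hg hw hr hB => ?_⟩
  set B := Metric.closedBall z r with hBdef
  have hBc : IsCompact B := isCompact_closedBall z r
  have hBm : MeasurableSet B := hBc.measurableSet
  have hV : volume B ≠ ⊤ := hBc.measure_lt_top.ne
  set V := volume B with hVdef
  have hK : C * ENNReal.ofReal r * V * 4 + 2 * (V * V) ≠ ⊤ := by
    refine ENNReal.add_ne_top.2 ⟨?_, ?_⟩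
    · exact ENNReal.mul_ne_top (ENNReal.mul_ne_top (ENNReal.mul_ne_top hC ENNReal.ofReal_ne_top) hV)
        (by norm_num)
    · exact ENNReal.mul_ne_top (by norm_num) (ENNReal.mul_ne_top hV hV)
  refine LDa_lim hK fun ε hε => ?_
  obtain ⟨v, hv, hv1, hv2⟩ := apx hΩ hBc hB le_rfl ENNReal.one_ne_top hu hg hw hε
  have hf : ContDiff ℝ 1 (fun x : R4 => v x - ∑ b, c b * x b) := by
    refine (hv.of_le (by simp)).sub ?_
    refine ContDiff.sum fun b _ => ?_
    exact contDiff_const.mul (contDiff_apply ℝ ℝ b)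
  have h1 := hP (fun x => v x - ∑ b, c b * x b) z r hf hr
  simp only [ENNReal.rpow_one, Real.rpow_one, LDa_pd hv] at h1
  rw [← hBdef, ← hVdef] at h1
  -- the left side
  have hL : ∫⁻ x in B, ∫⁻ y in B, ‖u x - u y - ∑ a, c a * (x a - y a)‖ₑ ≤
      (∫⁻ x in B, ∫⁻ y in B, ‖(v x - ∑ b, c b * x b) - (v y - ∑ b, c b * y b)‖ₑ) +
        2 * (V * V) * ENNReal.ofReal ε := by
    have e1 : ∀ x ∈ B, ∫⁻ y in B, ‖u x - u y - ∑ a, c a * (x a - y a)‖ₑ ≤
        (∫⁻ y in B, ‖(v x - ∑ b, c b * x b) - (v y - ∑ b, c b * y b)‖ₑ) +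
          ENNReal.ofReal (2 * ε) * V := by
      intro x hx
      have e2 : ∀ y ∈ B, ‖u x - u y - ∑ a, c a * (x a - y a)‖ₑ ≤
          ‖(v x - ∑ b, c b * x b) - (v y - ∑ b, c b * y b)‖ₑ + ENNReal.ofReal (2 * ε) := by
        intro y hy
        have e3 : ‖u x - u y - ∑ a, c a * (x a - y a)‖ ≤
            ‖(v x - ∑ b, c b * x b) - (v y - ∑ b, c b * y b)‖ + 2 * ε := by
          have e4 : u x - u y - ∑ a, c a * (x a - y a) =
              ((v x - ∑ b, c b * x b) - (v y - ∑ b, c b * y b)) +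
                ((v y - u y) - (v x - u x)) := by
            simp only [mul_sub, Finset.sum_sub_distrib]
            ring
          rw [e4]
          refine (norm_add_le _ _).trans ?_
          have e5 : ‖(v y - u y) - (v x - u x)‖ ≤ 2 * ε := by
            refine (norm_sub_le _ _).trans ?_
            have := hv1 y hy
            have := hv1 x hx
            rw [Real.norm_eq_abs, Real.norm_eq_abs]
            linarith
          linarith
        rw [← ofReal_norm, ← ofReal_norm,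
          ← ENNReal.ofReal_add (norm_nonneg _) (by positivity)]
        exact ENNReal.ofReal_le_ofReal e3
      calc ∫⁻ y in B, ‖u x - u y - ∑ a, c a * (x a - y a)‖ₑ
          ≤ ∫⁻ y in B, (‖(v x - ∑ b, c b * x b) - (v y - ∑ b, c b * y b)‖ₑ +
              ENNReal.ofReal (2 * ε)) := setLIntegral_mono' hBm e2
        _ = _ := by
            rw [lintegral_add_right _ measurable_const, setLIntegral_const]
    calc ∫⁻ x in B, ∫⁻ y in B, ‖u x - u y - ∑ a, c a * (x a - y a)‖ₑ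
        ≤ ∫⁻ x in B, ((∫⁻ y in B, ‖(v x - ∑ b, c b * x b) - (v y - ∑ b, c b * y b)‖ₑ) +
          ENNReal.ofReal (2 * ε) * V) := setLIntegral_mono' hBm e1
      _ = _ := by
          rw [lintegral_add_right _ measurable_const, setLIntegral_const,
            ENNReal.ofReal_mul (by norm_num)]
          congr 1
          rw [ENNReal.ofReal_ofNat]
          ring
  -- the right side
  have hR : ∑ a, ∫⁻ x in B, ‖pd a v x - c a‖ₑ ≤
      (∑ a, ∫⁻ x in B, ‖g x a - c a‖ₑ) + 4 * ENNReal.ofReal ε := by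
    have e1 : ∀ a, ∫⁻ x in B, ‖pd a v x - c a‖ₑ ≤
        (∫⁻ x in B, ‖g x a - c a‖ₑ) + ENNReal.ofReal ε := by
      intro a
      have e2 : ∀ x, ‖pd a v x - c a‖ₑ ≤ ‖g x a - c a‖ₑ + ‖pd a v x - g x a‖ₑ := by
        intro x
        have e3 : pd a v x - c a = (g x a - c a) + (pd a v x - g x a) := by ring
        rw [e3]
        exact enorm_add_le _ _
      have hm : AEMeasurable (fun x => ‖g x a - c a‖ₑ) (volume.restrict B) :=
        ((hg a B hB hBc).aestronglyMeasurable.sub aestronglyMeasurable_const).enorm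
      calc ∫⁻ x in B, ‖pd a v x - c a‖ₑ
          ≤ ∫⁻ x in B, (‖g x a - c a‖ₑ + ‖pd a v x - g x a‖ₑ) := lintegral_mono e2
        _ = (∫⁻ x in B, ‖g x a - c a‖ₑ) + ∫⁻ x in B, ‖pd a v x - g x a‖ₑ :=
            lintegral_add_left' hm _
        _ ≤ _ := by
            gcongr
            have := hv2 a
            rwa [eLpNorm_one_eq_lintegral_enorm] at this
    calc ∑ a, ∫⁻ x in B, ‖pd a v x - c a‖ₑ
        ≤ ∑ a : Fin 4, ((∫⁻ x in B, ‖g x a - c a‖ₑ) + ENNReal.ofReal ε) :=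
          Finset.sum_le_sum fun a _ => e1 a
      _ = _ := by
          rw [Finset.sum_add_distrib, Finset.sum_const, Finset.card_univ, Fintype.card_fin,
            nsmul_eq_mul]
          norm_num
  calc ∫⁻ x in B, ∫⁻ y in B, ‖u x - u y - ∑ a, c a * (x a - y a)‖ₑ
      ≤ C * ENNReal.ofReal r * V * ((∑ a, ∫⁻ x in B, ‖g x a - c a‖ₑ) + 4 * ENNReal.ofReal ε) +
        2 * (V * V) * ENNReal.ofReal ε := by
        refine hL.trans ?_
        gcongr
        exact h1.trans (by gcongr)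
    _ = _ := by ring

end Pool.Agent.SYD
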