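import Pool.Agent.SYD.LDa

/-!
# SYD/LDb: the `L¹` Taylor estimate at a point with small mean oscillations of the gradient

`w y = u y - Σ_a c_a y_a`, `B_k = closedBall x (r / 2^k)`, `V_k = vol(B_k) = 16^{-k} V_0` (positive, finite; `Real.volume_pi_closedBall` or
`addHaar_closedBall_mul`).  `A_k = (1 / V_k) ∫_{B_k} |w - w x|`; `A_k → 0` because `u` is continuous at `x`.
For `y ∈ B_k`, `y' ∈ B_{k+1}`: `|w y - w x| ≤ |w y - w y'| + |w y' - w x|`; mean value over `B_k × B_{k+1}`, `B_{k+1} ⊆ B_k`, `V_{k+1} = V_k / 16`: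
`A_k ≤ (16 / V_k²) ∫_{B_k} ∫_{B_k} |w y - w y'| + A_{k+1} ≤ 16 C (r / 2^k) η + A_{k+1}`
(`poincC` with `closedBall x (r / 2^k)` and `hη`).  Hence `A_0 ≤ 32 C r η + A_K` for all `K`, so `A_0 ≤ 32 C r η`.
-/

open MeasureTheory Set Filter Topology
open scoped ContDiff Matrix ENNReal

namespace Pool.Agent.SYD

open Pool.Agent.SYH

theorem LDb_vol (x : R4) {r : ℝ} (hr : 0 < r) (k : ℕ) :
    volume (Metric.closedBall x (r / 2 ^ k)) ≠ 0 ∧ volume (Metric.closedBall x (r / 2 ^ k)) ≠ ⊤ ∧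
    volume (Metric.closedBall x (r / 2 ^ k)) = 16 * volume (Metric.closedBall x (r / 2 ^ (k + 1))) := by
  have h : ∀ j : ℕ, volume (Metric.closedBall x (r / 2 ^ j)) =
      ENNReal.ofReal ((2 * (r / 2 ^ j)) ^ 4) := by
    intro j
    rw [Real.volume_pi_closedBall x (by positivity)]
    simp
  refine ⟨?_, ?_, ?_⟩
  · rw [h]
    have : 0 < (2 * (r / 2 ^ k)) ^ 4 := by positivity
    exact (ENNReal.ofReal_pos.2 this).ne'
  · rw [h]
    exact ENNReal.ofReal_ne_top
  · rw [h, h, show (16 : ℝ≥0∞) = ENNReal.ofReal 16 by norm_num,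
      ← ENNReal.ofReal_mul (by norm_num)]
    congr 1
    rw [pow_succ]
    field_simp
    ring

theorem LDb_vol0 (x : R4) {r : ℝ} (hr : 0 < r) (k : ℕ) :
    16 ^ k * volume (Metric.closedBall x (r / 2 ^ k)) = volume (Metric.closedBall x r) := by
  induction k with
  | zero => simp
  | succ k ih =>
    rw [← ih, (LDb_vol x hr k).2.2]
    ring

theorem LDb_rad (r : ℝ) (k : ℕ) :
    ENNReal.ofReal (r / 2 ^ k) = ENNReal.ofReal r * (2⁻¹) ^ k := by
  rw [div_eq_mul_inv, ENNReal.ofReal_mul' (by positivity), ← inv_pow,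
    ENNReal.ofReal_pow (by norm_num), ENNReal.ofReal_inv_of_pos (by norm_num)]
  norm_num

theorem taylor1 : ∃ C : ℝ≥0∞, C ≠ ⊤ ∧ ∀ (Ω : Set R4) (u : R4 → ℝ) (g : R4 → R4) (c : R4) (x : R4)
    (r : ℝ) (η : ℝ≥0∞), IsOpen Ω → ContinuousOn u Ω → (∀ a, LpL 1 Ω (fun x => g x a)) →
    WG Ω u g → 0 < r → Metric.closedBall x r ⊆ Ω →
    (∀ k : ℕ, ∑ a, ∫⁻ y in Metric.closedBall x (r / 2 ^ k), ‖g y a - c a‖ₑ ≤
      η * volume (Metric.closedBall x (r / 2 ^ k))) →
    ∫⁻ y in Metric.closedBall x r, ‖u y - u x - ∑ a, c a * (y a - x a)‖ₑ ≤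
      C * η * ENNReal.ofReal r * volume (Metric.closedBall x r) := by
  obtain ⟨C0, hC0, hP⟩ := poincC
  refine ⟨32 * C0, ENNReal.mul_ne_top (by norm_num) hC0,
    fun Ω u g c x r η hΩ hu hg hw hr hB hη => ?_⟩
  set B : ℕ → Set R4 := fun k => Metric.closedBall x (r / 2 ^ k) with hBdef
  have hB0 : B 0 = Metric.closedBall x r := by simp [hBdef]
  have hrk : ∀ k, 0 < r / 2 ^ k := fun k => by positivity
  have hsub : ∀ k, B k ⊆ Metric.closedBall x r := fun k => by
    refine Metric.closedBall_subset_closedBall ?_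
    exact div_le_self hr.le (one_le_pow₀ (by norm_num))
  have hsub1 : ∀ k, B (k + 1) ⊆ B k := fun k => by
    refine Metric.closedBall_subset_closedBall ?_
    rw [pow_succ]
    apply div_le_div_of_nonneg_left hr.le (by positivity)
    have : (0 : ℝ) < 2 ^ k := by positivity
    linarith
  have hBm : ∀ k, MeasurableSet (B k) := fun k => Metric.isClosed_closedBall.measurableSet
  set F : R4 → ℝ≥0∞ := fun y => ‖u y - u x - ∑ a, c a * (y a - x a)‖ₑ with hF
  set V : ℕ → ℝ≥0∞ := fun k => volume (B k) with hV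
  set I : ℕ → ℝ≥0∞ := fun k => ∫⁻ y in B k, F y with hI
  have hcont : ContinuousOn (fun y => u y - u x - ∑ a, c a * (y a - x a)) Ω := by
    refine (hu.sub continuousOn_const).sub (Continuous.continuousOn ?_)
    fun_prop
  have hFm : ∀ k, AEMeasurable F (volume.restrict (B k)) := fun k =>
    ((hcont.mono ((hsub k).trans hB)).aestronglyMeasurable (hBm k)).enorm
  have hstep0 : ∀ k, V (k + 1) * I k ≤
      C0 * ENNReal.ofReal (r / 2 ^ k) * V k * (η * V k) + V k * I (k + 1) := by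
    intro k
    have e1 : ∀ y ∈ B k, V (k + 1) * F y ≤
        (∫⁻ y' in B k, ‖u y - u y' - ∑ a, c a * (y a - y' a)‖ₑ) + I (k + 1) := by
      intro y _
      have e2 : ∀ y' ∈ B (k + 1), F y ≤
          ‖u y - u y' - ∑ a, c a * (y a - y' a)‖ₑ + F y' := by
        intro y' _
        have e3 : u y - u x - ∑ a, c a * (y a - x a) =
            (u y - u y' - ∑ a, c a * (y a - y' a)) + (u y' - u x - ∑ a, c a * (y' a - x a)) := by
          simp only [mul_sub, Finset.sum_sub_distrib]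
          ring
        simp only [hF]
        rw [e3]
        exact enorm_add_le _ _
      calc V (k + 1) * F y = ∫⁻ y' in B (k + 1), F y := by
            rw [setLIntegral_const, mul_comm]
        _ ≤ ∫⁻ y' in B (k + 1), (‖u y - u y' - ∑ a, c a * (y a - y' a)‖ₑ + F y') :=
            setLIntegral_mono' (hBm _) e2
        _ = (∫⁻ y' in B (k + 1), ‖u y - u y' - ∑ a, c a * (y a - y' a)‖ₑ) + I (k + 1) :=
            lintegral_add_right' _ (hFm (k + 1))
        _ ≤ _ := by
            gcongr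
            exact hsub1 k
    have e4 := hP Ω u g c x (r / 2 ^ k) hΩ hu hg hw (hrk k) ((hsub k).trans hB)
    calc V (k + 1) * I k = ∫⁻ y in B k, V (k + 1) * F y := by
          rw [lintegral_const_mul' _ _ (LDb_vol x hr (k + 1)).2.1]
      _ ≤ ∫⁻ y in B k, ((∫⁻ y' in B k, ‖u y - u y' - ∑ a, c a * (y a - y' a)‖ₑ) + I (k + 1)) :=
          setLIntegral_mono' (hBm _) e1
      _ = (∫⁻ y in B k, ∫⁻ y' in B k, ‖u y - u y' - ∑ a, c a * (y a - y' a)‖ₑ) +
          V k * I (k + 1) := by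
          rw [lintegral_add_right _ measurable_const, setLIntegral_const, mul_comm (I (k + 1))]
      _ ≤ _ := by
          gcongr
          exact e4.trans (by gcongr; exact hη k)
  have hstep : ∀ k, I k ≤ 16 * (C0 * ENNReal.ofReal (r / 2 ^ k) * (η * V k)) + 16 * I (k + 1) := by
    intro k
    have h1 := hstep0 k
    have h2 : V k = 16 * V (k + 1) := (LDb_vol x hr k).2.2
    have h3 : C0 * ENNReal.ofReal (r / 2 ^ k) * V k * (η * V k) + V k * I (k + 1) =
        V (k + 1) * (16 * (C0 * ENNReal.ofReal (r / 2 ^ k) * (η * V k)) + 16 * I (k + 1)) := by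
      calc C0 * ENNReal.ofReal (r / 2 ^ k) * V k * (η * V k) + V k * I (k + 1)
          = V k * (C0 * ENNReal.ofReal (r / 2 ^ k) * (η * V k) + I (k + 1)) := by ring
        _ = 16 * V (k + 1) * (C0 * ENNReal.ofReal (r / 2 ^ k) * (η * V k) + I (k + 1)) := by
            congr 1
        _ = _ := by ring
    rw [h3] at h1
    exact (ENNReal.mul_le_mul_iff_right (LDb_vol x hr (k + 1)).1 (LDb_vol x hr (k + 1)).2.1).1 h1
  set D : ℝ≥0∞ := 16 * C0 * η * ENNReal.ofReal r * V 0 with hD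
  have hV0 : V 0 = volume (Metric.closedBall x r) := by rw [hV]; simp only [hB0]
  have hVk : ∀ k, 16 ^ k * V k = V 0 := fun k => by rw [hV0]; exact LDb_vol0 x hr k
  have hind : ∀ K, I 0 ≤ D * (∑ k ∈ Finset.range K, (2⁻¹ : ℝ≥0∞) ^ k) + 16 ^ K * I K := by
    intro K
    induction K with
    | zero => simp
    | succ K ih =>
      refine ih.trans ?_
      have h1 : 16 ^ K * I K ≤ D * (2⁻¹) ^ K + 16 ^ (K + 1) * I (K + 1) := by
        calc (16 : ℝ≥0∞) ^ K * I K ≤
            16 ^ K * (16 * (C0 * ENNReal.ofReal (r / 2 ^ K) * (η * V K)) + 16 * I (K + 1)) := by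
              gcongr
              exact hstep K
          _ = 16 * C0 * η * ENNReal.ofReal r * (16 ^ K * V K) * (2⁻¹) ^ K +
                16 ^ (K + 1) * I (K + 1) := by
              rw [LDb_rad]
              ring
          _ = _ := by rw [hVk, hD]
      calc D * (∑ k ∈ Finset.range K, (2⁻¹ : ℝ≥0∞) ^ k) + 16 ^ K * I K
          ≤ D * (∑ k ∈ Finset.range K, (2⁻¹ : ℝ≥0∞) ^ k) +
              (D * (2⁻¹) ^ K + 16 ^ (K + 1) * I (K + 1)) := by gcongr
        _ = _ := by
            rw [Finset.sum_range_succ]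
            ring
  have hgeo : ∀ K, ∑ k ∈ Finset.range K, (2⁻¹ : ℝ≥0∞) ^ k ≤ 2 := by
    intro K
    refine (ENNReal.sum_le_tsum _).trans ?_
    rw [ENNReal.tsum_geometric, ENNReal.one_sub_inv_two, inv_inv]
  have hV0t : V 0 ≠ ⊤ := (LDb_vol x hr 0).2.1
  have hfin : I 0 ≤ D * 2 := by
    refine LDa_lim hV0t fun ε hε => ?_
    have hxΩ : x ∈ Ω := hB (Metric.mem_closedBall_self hr.le)
    have hca : ContinuousAt (fun y => u y - u x - ∑ a, c a * (y a - x a)) x :=
      hcont.continuousAt (hΩ.mem_nhds hxΩ)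
    obtain ⟨δ, hδ, hδ'⟩ := Metric.continuousAt_iff.1 hca ε hε
    obtain ⟨K, hK⟩ := exists_pow_lt_of_lt_one (div_pos hδ hr) (by norm_num : (1 / 2 : ℝ) < 1)
    have hK' : r / 2 ^ K < δ := by
      rw [lt_div_iff₀ hr] at hK
      calc r / 2 ^ K = (1 / 2) ^ K * r := by rw [one_div, inv_pow]; ring
        _ < δ := hK
    have hIK : I K ≤ ENNReal.ofReal ε * V K := by
      rw [← setLIntegral_const]
      refine setLIntegral_mono' (hBm K) fun y hy => ?_
      have h1 : dist y x < δ := (Metric.mem_closedBall.1 hy).trans_lt hK'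
      have h2 := hδ' h1
      have h3 : u x - u x - ∑ a, c a * (x a - x a) = 0 := by simp
      rw [h3, dist_zero_right] at h2
      simp only [hF]
      rw [← ofReal_norm]
      exact ENNReal.ofReal_le_ofReal h2.le
    calc I 0 ≤ D * (∑ k ∈ Finset.range K, (2⁻¹ : ℝ≥0∞) ^ k) + 16 ^ K * I K := hind K
      _ ≤ D * 2 + 16 ^ K * (ENNReal.ofReal ε * V K) := by
          gcongr
          exact hgeo K
      _ = D * 2 + (16 ^ K * V K) * ENNReal.ofReal ε := by ring
      _ = _ := by rw [hVk]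
  calc ∫⁻ y in Metric.closedBall x r, ‖u y - u x - ∑ a, c a * (y a - x a)‖ₑ = I 0 := by
        rw [hI]
        simp only [hB0, hF]
    _ ≤ D * 2 := hfin
    _ = _ := by
        rw [hD, hV0]
        ring

end Pool.Agent.SYD
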