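import Pool.Agent.SYH.BasL

/-!
# SYD/LDc: uniform Lebesgue points

`osc_k (x) = Σ_a (1 / V_k) ∫_{closedBall x (2^{-k})} |g y a - g x a| dy`, `V_k = vol(closedBall 0 (2^{-k}))`.  Replace `g a` by
`g' a = ` a (strongly) measurable function equal to `S.indicator (g a)` a.e., where `S` is a compact neighbourhood of `K` in `Ω`
(`exists_compact_between`; `S` contains `closedBall x (2^{-k})` for `x ∈ K`, `k ≥ k₀`); remove from `K` the null set (a measurable
superset) where `g' ≠ g`.  `osc_k` for `g'` is a measurable function of `x` (`Measurable.lintegral_prod_right'` for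
`(x, y) ↦ indicator (dist y x ≤ 2^{-k}) ‖g' y a - g' x a‖ₑ`).  For almost every `x`: `osc_k (x) → 0` as `k → ∞`
(`IsUnifLocDoublingMeasure.ae_tendsto_average_norm_sub`, or `Besicovitch`, for the integrable functions `g' a`).  Egorov
(`tendstoUniformlyOn_of_ae_tendsto` for the real functions `(osc_k x).toReal`, or `.._of_ae_tendsto'` on `K`) gives a measurable `t` with
`volume t ≤ ε` and uniform convergence on `K \ t`; `F = K \ (t ∪ N)`.
-/

open MeasureTheory Set Filter Topology
open scoped ContDiff Matrix ENNReal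

namespace Pool.Agent.SYD

open Pool.Agent.SYH

private theorem ldc_meas {G : R4 → ℝ} (hG : StronglyMeasurable G) (r : ℝ) :
    Measurable (fun x => ∫⁻ y in Metric.closedBall x r, ‖G y - G x‖ₑ) := by
  have h1 : MeasurableSet {p : R4 × R4 | dist p.2 p.1 ≤ r} := by
    apply IsClosed.measurableSet
    exact isClosed_le (continuous_snd.dist continuous_fst) continuous_const
  have h2 : Measurable (fun p : R4 × R4 => ‖G p.2 - G p.1‖ₑ) :=
    ((hG.measurable.comp measurable_snd).sub (hG.measurable.comp measurable_fst)).enorm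
  have h3 := Measurable.lintegral_prod_right' (ν := (volume : Measure R4)) (h2.indicator h1)
  have e : (fun x => ∫⁻ y in Metric.closedBall x r, ‖G y - G x‖ₑ) = fun x => ∫⁻ y,
      ({p : R4 × R4 | dist p.2 p.1 ≤ r}.indicator (fun p => ‖G p.2 - G p.1‖ₑ)) (x, y) := by
    funext x
    rw [← lintegral_indicator Metric.isClosed_closedBall.measurableSet]
    congr 1
  rw [e]
  exact h3

private theorem ldc_fin {G : R4 → ℝ} (hG : Integrable G) (x : R4) (r : ℝ) :
    ∫⁻ y in Metric.closedBall x r, ‖G y - G x‖ₑ ≠ ⊤ := by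
  have h1 : IntegrableOn (fun y => G y - G x) (Metric.closedBall x r) :=
    hG.integrableOn.sub (integrableOn_const (isCompact_closedBall x r).measure_lt_top.ne)
  exact h1.2.ne

private theorem ldc_lim {G : R4 → ℝ} (hG : Integrable G) : ∀ᵐ x, Tendsto (fun k : ℕ =>
    (∫⁻ y in Metric.closedBall x (1 / 2 ^ k), ‖G y - G x‖ₑ) /
      volume (Metric.closedBall x (1 / 2 ^ k : ℝ))) atTop (𝓝 0) := by
  have h1 := (IsUnifLocDoublingMeasure.vitaliFamily (volume : Measure R4) 1).ae_tendsto_lintegral_enorm_sub_div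
    hG.locallyIntegrable
  filter_upwards [h1] with x hx
  have hδ : Tendsto (fun k : ℕ => (1 / 2 ^ k : ℝ)) atTop (𝓝[>] 0) := by
    rw [tendsto_nhdsWithin_iff]
    refine ⟨?_, Eventually.of_forall fun k => ?_⟩
    · have := tendsto_pow_atTop_nhds_zero_of_lt_one (r := (1 / 2 : ℝ)) (by norm_num) (by norm_num)
      simpa [one_div, inv_pow] using this
    · exact mem_Ioi.2 (by positivity)
  have h2 := IsUnifLocDoublingMeasure.tendsto_closedBall_filterAt (volume : Measure R4) (K := 1)
    (x := x) (fun _ : ℕ => x) (fun k : ℕ => (1 / 2 ^ k : ℝ)) hδ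
    (Eventually.of_forall fun k => Metric.mem_closedBall_self (by positivity))
  exact hx.comp h2

theorem unifLeb {Ω K : Set R4} (hΩ : IsOpen Ω) (hK : IsCompact K) (hs : K ⊆ Ω) {g : R4 → R4}
    (hg : ∀ a, LpL 1 Ω (fun x => g x a)) {ε : ℝ≥0∞} (hε : ε ≠ 0) :
    ∃ F ⊆ K, MeasurableSet F ∧ volume (K \ F) ≤ ε ∧ ∀ η : ℝ≥0∞, η ≠ 0 → ∃ k₀ : ℕ,
      ∀ k ≥ k₀, ∀ x ∈ F, Metric.closedBall x (1 / 2 ^ k) ⊆ Ω ∧
        ∑ a, ∫⁻ y in Metric.closedBall x (1 / 2 ^ k), ‖g y a - g x a‖ₑ ≤
          η * volume (Metric.closedBall x (1 / 2 ^ k)) := by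
  classical
  obtain ⟨S, hSc, hKS, hSΩ⟩ := exists_compact_between hK hΩ hs
  obtain ⟨δ, hδ, hδS⟩ := hK.exists_cthickening_subset_open isOpen_interior hKS
  have hSm : MeasurableSet S := hSc.measurableSet
  have hint : ∀ a, Integrable (S.indicator (fun x => g x a)) := fun a =>
    IntegrableOn.integrable_indicator (memLp_one_iff_integrable.1 (hg a S hSΩ hSc)) hSm
  choose G hGm hGe using fun a => (hint a).1
  have hGi : ∀ a, Integrable (G a) := fun a => (hint a).congr (hGe a)
  have hpos : ∀ (x : R4) (k : ℕ), volume (Metric.closedBall x (1 / 2 ^ k : ℝ)) ≠ 0 := fun x k =>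
    (Metric.measure_closedBall_pos volume x (by positivity)).ne'
  have hfin : ∀ (x : R4) (k : ℕ), volume (Metric.closedBall x (1 / 2 ^ k : ℝ)) ≠ ⊤ := fun x k =>
    (isCompact_closedBall x _).measure_lt_top.ne
  set O : ℕ → R4 → ℝ≥0∞ := fun k x =>
    (∑ a, ∫⁻ y in Metric.closedBall x (1 / 2 ^ k), ‖G a y - G a x‖ₑ) /
      volume (Metric.closedBall x (1 / 2 ^ k : ℝ)) with hO
  have hOm : ∀ k, Measurable (O k) := by
    intro k
    have e : O k = fun x => (∑ a, ∫⁻ y in Metric.closedBall x (1 / 2 ^ k), ‖G a y - G a x‖ₑ) /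
      volume (Metric.closedBall (0 : R4) (1 / 2 ^ k : ℝ)) := by
      funext x
      rw [← Measure.addHaar_closedBall_center volume x]
    rw [e]
    exact (Finset.measurable_sum _ fun a _ => ldc_meas (hGm a) _).div_const _
  have hOfin : ∀ k x, O k x ≠ ⊤ := by
    intro k x
    refine ENNReal.div_ne_top ?_ (hpos x k)
    exact ENNReal.sum_ne_top.2 fun a _ => ldc_fin (hGi a) x _
  have hOlim : ∀ᵐ x, Tendsto (fun k => O k x) atTop (𝓝 0) := by
    have h1 := ae_all_iff.2 fun a => ldc_lim (hGi a)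
    filter_upwards [h1] with x hx
    have h2 := tendsto_finsetSum Finset.univ fun a _ => hx a
    rw [Finset.sum_const_zero] at h2
    refine h2.congr fun k => ?_
    simp only [hO, ENNReal.div_eq_inv_mul, Finset.mul_sum]
  obtain ⟨ε', -, hε'0, hε'⟩ := ENNReal.lt_iff_exists_real_btwn.1 (pos_iff_ne_zero.2 hε)
  have hε'pos : 0 < ε' := ENNReal.ofReal_pos.1 hε'0
  obtain ⟨t, htK, htm, htε, hunif⟩ := tendstoUniformlyOn_of_ae_tendsto (μ := (volume : Measure R4))
    (f := fun k x => (O k x).toReal) (g := fun _ => (0 : ℝ)) (s := K)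
    (fun k => (hOm k).ennreal_toReal.stronglyMeasurable) stronglyMeasurable_const
    hK.measurableSet hK.measure_lt_top.ne (by
      filter_upwards [hOlim] with x hx _
      exact (ENNReal.tendsto_toReal ENNReal.zero_ne_top).comp hx) hε'pos
  set N := toMeasurable volume {x | ¬ ∀ a, S.indicator (fun x => g x a) x = G a x} with hN
  have hN0 : volume N = 0 := by
    rw [hN, measure_toMeasurable]
    exact ae_iff.1 (ae_all_iff.2 hGe)
  have hNm : MeasurableSet N := measurableSet_toMeasurable _ _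
  refine ⟨(K \ t) \ N, fun x hx => hx.1.1, (hK.measurableSet.diff htm).diff hNm, ?_, ?_⟩
  · have hsub : K \ ((K \ t) \ N) ⊆ t ∪ N := by
      intro x hx
      by_cases h1 : x ∈ t
      · exact Or.inl h1
      · by_cases h2 : x ∈ N
        · exact Or.inr h2
        · exact absurd ⟨⟨hx.1, h1⟩, h2⟩ hx.2
    calc volume (K \ ((K \ t) \ N)) ≤ volume (t ∪ N) := measure_mono hsub
      _ ≤ volume t + volume N := measure_union_le _ _
      _ ≤ ENNReal.ofReal ε' + 0 := add_le_add htε hN0.le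
      _ ≤ ε := by rw [add_zero]; exact hε'.le
  · intro η hη
    obtain ⟨η', -, hη'0, hη'⟩ := ENNReal.lt_iff_exists_real_btwn.1 (pos_iff_ne_zero.2 hη)
    have hη'pos : 0 < η' := ENNReal.ofReal_pos.1 hη'0
    obtain ⟨k₁, hk₁⟩ := eventually_atTop.1 (Metric.tendstoUniformlyOn_iff.1 hunif η' hη'pos)
    obtain ⟨k₂, hk₂⟩ := exists_pow_lt_of_lt_one hδ (by norm_num : (1 / 2 : ℝ) < 1)
    refine ⟨max k₁ k₂, fun k hk x hx => ?_⟩
    have hkδ : (1 / 2 ^ k : ℝ) ≤ δ := by
      have h1 : (1 / 2 : ℝ) ^ k ≤ (1 / 2 : ℝ) ^ k₂ :=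
        pow_le_pow_of_le_one (by norm_num) (by norm_num) (le_of_max_le_right hk)
      have h2 : (1 / 2 ^ k : ℝ) = (1 / 2 : ℝ) ^ k := by rw [one_div, one_div, inv_pow]
      rw [h2]
      exact h1.trans hk₂.le
    have hBS : Metric.closedBall x (1 / 2 ^ k) ⊆ S :=
      (Metric.closedBall_subset_closedBall hkδ).trans
        ((Metric.closedBall_subset_cthickening hx.1.1 δ).trans (hδS.trans interior_subset))
    refine ⟨hBS.trans hSΩ, ?_⟩
    have hxS : x ∈ S := interior_subset (hKS hx.1.1)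
    have hxN : ∀ a, S.indicator (fun x => g x a) x = G a x := by
      by_contra hcon
      exact hx.2 (subset_toMeasurable _ _ hcon)
    have e1 : ∀ a, ∫⁻ y in Metric.closedBall x (1 / 2 ^ k), ‖g y a - g x a‖ₑ =
        ∫⁻ y in Metric.closedBall x (1 / 2 ^ k), ‖G a y - G a x‖ₑ := by
      intro a
      refine setLIntegral_congr_fun_ae Metric.isClosed_closedBall.measurableSet ?_
      filter_upwards [hGe a] with y hy hyB
      rw [← hy, ← hxN a, indicator_of_mem (hBS hyB), indicator_of_mem hxS]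
    have e2 : ∑ a, ∫⁻ y in Metric.closedBall x (1 / 2 ^ k), ‖g y a - g x a‖ₑ =
        O k x * volume (Metric.closedBall x (1 / 2 ^ k : ℝ)) := by
      rw [hO]
      simp only [e1]
      rw [ENNReal.div_mul_cancel (hpos x k) (hfin x k)]
    rw [e2]
    gcongr
    have h1 := hk₁ k (le_of_max_le_left hk) x hx.1
    rw [Real.dist_eq, zero_sub, abs_neg, abs_of_nonneg ENNReal.toReal_nonneg] at h1
    rw [← ENNReal.ofReal_toReal (hOfin k x)]
    exact (ENNReal.ofReal_le_ofReal h1.le).trans hη'.le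

end Pool.Agent.SYD
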