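import Pool.Agent.SYD.LDb
import Pool.Agent.SYD.LDc

/-!
# SYD/LDd: continuous Sobolev functions are differentiable along sets of almost full measure

`F` from `unifLeb`.  Let `η > 0`, `k₀` from `unifLeb`.  Let `x, x' ∈ F`, `0 < ρ = dist x' x < 1 / 2^{k₀+1}`; choose `k ≥ k₀ + 1` with
`1 / 2^{k+1} < ρ ≤ 1 / 2^k` (`exists_nat_pow_near_of_lt_one` or so), `r = 1 / 2^k`, so `ρ ≤ r < 2 ρ`.
`B' = closedBall x' r ⊆ B = closedBall x (2 r)`, `2 r = 1 / 2^{k-1}`, `vol B = 16 vol B'`.  `taylor1` (constant `C`) at `x'` with radius `r` and `c = g x'`,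
and at `x` with radius `2 r` and `c = g x` (`2 r / 2^j = 1 / 2^{k-1+j}`, `r / 2^j = 1 / 2^{k+j}`: the hypotheses are `unifLeb`):
(1) `∫_{B'} |u y - u x' - g x' · (y - x')| ≤ C η r vol B'`, (2) `∫_{B'} |u y - u x - g x · (y - x)| ≤ C η 2 r 16 vol B'`.
The difference of the two integrands (without `|..|`) is `D + (g x' - g x) · (y - x')` up to sign, with `D = u x' - u x - g x · (x' - x)`:
`u y - u x - g x · (y - x) - (u y - u x' - g x' · (y - x')) = u x' - u x - g x · (x' - x) + (g x' - g x) · (y - x')`.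
For `y ∈ B'`: `|(g x' - g x) · (y - x')| ≤ r Σ_a |g x' a - g x a|`, and
`Σ_a |g x' a - g x a| vol B' ≤ Σ_a ∫_{B'} |g y a - g x' a| + Σ_a ∫_B |g y a - g x a| ≤ η vol B' + 16 η vol B'`.
So `|D| vol B' ≤ (33 C + 17) η r vol B'`, `|D| ≤ (33 C + 17) η 2 ρ`.  (`C ≠ ⊤`, `η` small: `HasFDerivWithinAt` via
`hasFDerivWithinAt_iff_isLittleO` / `isLittleO_iff`.)
-/

open MeasureTheory Set Filter Topology
open scoped ContDiff Matrix ENNReal

namespace Pool.Agent.SYD

open Pool.Agent.SYH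

/-- the linear form with the coefficients `c` -/
noncomputable def lin (c : R4) : R4 →L[ℝ] ℝ :=
  ∑ a, c a • (ContinuousLinearMap.proj a : R4 →L[ℝ] ℝ)

private theorem LDd_vol2 (x x' : R4) {r : ℝ} (hr : 0 < r) :
    volume (Metric.closedBall x (2 * r)) = 16 * volume (Metric.closedBall x' r) := by
  rw [Real.volume_pi_closedBall _ (by positivity), Real.volume_pi_closedBall _ hr.le]
  have : (16 : ℝ≥0∞) = ENNReal.ofReal 16 := by simp
  rw [this, ← ENNReal.ofReal_mul (by norm_num)]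
  congr 1
  simp only [Fintype.card_fin]
  ring

private theorem LDd_key {Ω : Set R4} {u : R4 → ℝ} {g : R4 → R4} (hu : ContinuousOn u Ω)
    (hg : ∀ a, LpL 1 Ω (fun x => g x a)) {C η : ℝ≥0∞} {x x' : R4} {r : ℝ} (hr : 0 < r)
    (hd : dist x' x ≤ r) (hB : Metric.closedBall x' r ⊆ Ω)
    (h1 : ∫⁻ y in Metric.closedBall x' r, ‖u y - u x' - ∑ a, g x' a * (y a - x' a)‖ₑ
      ≤ C * η * ENNReal.ofReal r * volume (Metric.closedBall x' r))
    (h2 : ∫⁻ y in Metric.closedBall x (2 * r), ‖u y - u x - ∑ a, g x a * (y a - x a)‖ₑ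
      ≤ C * η * ENNReal.ofReal (2 * r) * volume (Metric.closedBall x (2 * r)))
    (h3 : ∑ a, ∫⁻ y in Metric.closedBall x' r, ‖g y a - g x' a‖ₑ
      ≤ η * volume (Metric.closedBall x' r))
    (h4 : ∑ a, ∫⁻ y in Metric.closedBall x (2 * r), ‖g y a - g x a‖ₑ
      ≤ η * volume (Metric.closedBall x (2 * r))) :
    ‖u x' - u x - ∑ a, g x a * (x' a - x a)‖ₑ ≤ (33 * C + 17) * η * ENNReal.ofReal r := by
  have hsub : Metric.closedBall x' r ⊆ Metric.closedBall x (2 * r) := by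
    intro y hy
    rw [Metric.mem_closedBall] at hy ⊢
    have := dist_triangle y x' x
    linarith
  have V0 : volume (Metric.closedBall x' r) ≠ 0 := by
    rw [Real.volume_pi_closedBall _ hr.le]
    have : 0 < (2 * r) ^ Fintype.card (Fin 4) := by positivity
    simp only [ne_eq, ENNReal.ofReal_eq_zero, not_le]
    exact this
  have V1 : volume (Metric.closedBall x' r) ≠ ⊤ := by
    rw [Real.volume_pi_closedBall _ hr.le]
    exact ENNReal.ofReal_ne_top
  rw [LDd_vol2 x x' hr] at h2 h4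
  have h2' := (lintegral_mono_set (μ := volume)
    (f := fun y => ‖u y - u x - ∑ a, g x a * (y a - x a)‖ₑ) hsub).trans h2
  have h4' : ∑ a, ∫⁻ y in Metric.closedBall x' r, ‖g y a - g x a‖ₑ
      ≤ η * (16 * volume (Metric.closedBall x' r)) :=
    (Finset.sum_le_sum fun a _ => lintegral_mono_set hsub).trans h4
  set B := Metric.closedBall x' r with hBdef
  set Vv := volume B with hV
  have hcp : IsCompact B := isCompact_closedBall x' r
  have hmB : MeasurableSet B := Metric.isClosed_closedBall.measurableSet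
  have mu : AEMeasurable u (volume.restrict B) := (hu.mono hB).aemeasurable hmB
  have mg : ∀ a, AEMeasurable (fun y => g y a) (volume.restrict B) := fun a =>
    ((hg a) B hB hcp).aestronglyMeasurable.aemeasurable
  have mt : ∀ c z : R4, ∀ w : ℝ, AEMeasurable (fun y : R4 => ‖u y - w - ∑ a, c a * (y a - z a)‖ₑ)
      (volume.restrict B) := fun c z w => by
    refine ((mu.sub_const _).sub ?_).enorm
    have : Continuous fun y : R4 => ∑ a, c a * (y a - z a) := by fun_prop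
    exact this.aemeasurable
  have mgg : ∀ a, ∀ w : ℝ, AEMeasurable (fun y : R4 => ‖g y a - w‖ₑ) (volume.restrict B) :=
    fun a w => ((mg a).sub_const _).enorm
  have hpt : ∀ y ∈ B, ‖u x' - u x - ∑ a, g x a * (x' a - x a)‖ₑ
      ≤ ‖u y - u x' - ∑ a, g x' a * (y a - x' a)‖ₑ
        + (‖u y - u x - ∑ a, g x a * (y a - x a)‖ₑ
        + ENNReal.ofReal r * ∑ a, (‖g y a - g x' a‖ₑ + ‖g y a - g x a‖ₑ)) := by
    intro y hy
    have e : u x' - u x - ∑ a, g x a * (x' a - x a)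
        = -(u y - u x' - ∑ a, g x' a * (y a - x' a))
          + ((u y - u x - ∑ a, g x a * (y a - x a))
          + ∑ a, ((g y a - g x' a) - (g y a - g x a)) * (y a - x' a)) := by
      have e1 : ∑ a, ((g y a - g x' a) - (g y a - g x a)) * (y a - x' a)
          = ∑ a, g x a * (y a - x a) - ∑ a, g x' a * (y a - x' a)
            - ∑ a, g x a * (x' a - x a) := by
        rw [← Finset.sum_sub_distrib, ← Finset.sum_sub_distrib]
        exact Finset.sum_congr rfl fun a _ => by ring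
      rw [e1]; ring
    rw [e]
    refine (enorm_add_le _ _).trans ?_
    rw [enorm_neg]
    refine add_le_add le_rfl ((enorm_add_le _ _).trans (add_le_add le_rfl ?_))
    refine (enorm_sum_le _ _).trans ?_
    rw [Finset.mul_sum]
    refine Finset.sum_le_sum fun a _ => ?_
    rw [enorm_mul, mul_comm]
    refine mul_le_mul' ?_ (enorm_sub_le)
    rw [Metric.mem_closedBall] at hy
    have h5 : ‖y a - x' a‖ ≤ r := (norm_le_pi_norm (y - x') a).trans (by rwa [← dist_eq_norm])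
    rw [← ofReal_norm]
    exact ENNReal.ofReal_le_ofReal h5
  have hint : ‖u x' - u x - ∑ a, g x a * (x' a - x a)‖ₑ * Vv
      ≤ (33 * C + 17) * η * ENNReal.ofReal r * Vv := by
    calc ‖u x' - u x - ∑ a, g x a * (x' a - x a)‖ₑ * Vv
        = ∫⁻ _ in B, ‖u x' - u x - ∑ a, g x a * (x' a - x a)‖ₑ := by
          rw [setLIntegral_const]
      _ ≤ ∫⁻ y in B, (‖u y - u x' - ∑ a, g x' a * (y a - x' a)‖ₑ
        + (‖u y - u x - ∑ a, g x a * (y a - x a)‖ₑ
        + ENNReal.ofReal r * ∑ a, (‖g y a - g x' a‖ₑ + ‖g y a - g x a‖ₑ))) :=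
          setLIntegral_mono' hmB hpt
      _ = (∫⁻ y in B, ‖u y - u x' - ∑ a, g x' a * (y a - x' a)‖ₑ)
        + ((∫⁻ y in B, ‖u y - u x - ∑ a, g x a * (y a - x a)‖ₑ)
        + ENNReal.ofReal r * (∑ a, (∫⁻ y in B, ‖g y a - g x' a‖ₑ)
          + ∑ a, ∫⁻ y in B, ‖g y a - g x a‖ₑ)) := by
          have e6 : ∫⁻ y in B, ∑ a, (‖g y a - g x' a‖ₑ + ‖g y a - g x a‖ₑ)
              = ∑ a, ∫⁻ y in B, (‖g y a - g x' a‖ₑ + ‖g y a - g x a‖ₑ) :=
            lintegral_finsetSum' Finset.univ fun a _ => (mgg a (g x' a)).add (mgg a (g x a))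
          rw [lintegral_add_left' (mt _ _ _), lintegral_add_left' (mt _ _ _),
            lintegral_const_mul' _ _ ENNReal.ofReal_ne_top, e6, ← Finset.sum_add_distrib]
          congr 3
          refine Finset.sum_congr rfl fun a _ => ?_
          rw [lintegral_add_left' (mgg a _)]
      _ ≤ C * η * ENNReal.ofReal r * Vv + (C * η * ENNReal.ofReal (2 * r) * (16 * Vv)
        + ENNReal.ofReal r * (η * Vv + η * (16 * Vv))) :=
          add_le_add h1 (add_le_add h2' (mul_le_mul' le_rfl (add_le_add h3 h4')))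
      _ = (33 * C + 17) * η * ENNReal.ofReal r * Vv := by
          rw [ENNReal.ofReal_mul (by norm_num : (0 : ℝ) ≤ 2)]
          have : ENNReal.ofReal 2 = 2 := by simp
          rw [this]
          ring
  exact (ENNReal.mul_le_mul_iff_left V0 V1).1 hint

theorem diffOn {Ω K : Set R4} (hΩ : IsOpen Ω) (hK : IsCompact K) (hs : K ⊆ Ω) {u : R4 → ℝ}
    {g : R4 → R4} (hu : ContinuousOn u Ω) (hg : ∀ a, LpL 1 Ω (fun x => g x a)) (h : WG Ω u g)
    {ε : ℝ≥0∞} (hε : ε ≠ 0) :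
    ∃ F ⊆ K, MeasurableSet F ∧ volume (K \ F) ≤ ε ∧
      ∀ x ∈ F, HasFDerivWithinAt u (lin (g x)) F x := by
  obtain ⟨C, hC, hT⟩ := taylor1
  obtain ⟨F, hFK, hFm, hFv, hF⟩ := unifLeb hΩ hK hs hg hε
  refine ⟨F, hFK, hFm, hFv, fun x hx => ?_⟩
  rw [hasFDerivWithinAt_iff_isLittleO, Asymptotics.isLittleO_iff]
  intro c hc
  have hC0 : C = ENNReal.ofReal C.toReal := (ENNReal.ofReal_toReal hC).symm
  have C00 : 0 ≤ C.toReal := ENNReal.toReal_nonneg
  set C0 := C.toReal with hC0d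
  set η0 : ℝ := c / (2 * (33 * C0 + 17)) with hη0
  have η0pos : 0 < η0 := by positivity
  obtain ⟨k₀, hk₀⟩ := hF (ENNReal.ofReal η0) (by simpa using η0pos)
  have hpos : (0 : ℝ) < 1 / 2 ^ (k₀ + 1) := by positivity
  filter_upwards [self_mem_nhdsWithin, mem_nhdsWithin_of_mem_nhds (Metric.ball_mem_nhds x hpos)]
    with x' hx' hd
  rw [Metric.mem_ball] at hd
  rcases eq_or_ne x' x with rfl | hne
  · simp
  have hρ : 0 < dist x' x := dist_pos.2 hne
  have hρ1 : dist x' x ≤ 1 := by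
    refine hd.le.trans ?_
    rw [div_le_one (by positivity)]
    exact one_le_pow₀ (by norm_num)
  obtain ⟨n, hn1, hn2⟩ := exists_nat_pow_near_of_lt_one hρ hρ1 (y := (1 / 2 : ℝ)) (by norm_num)
    (by norm_num)
  have hnk : k₀ + 1 ≤ n := by
    have h5 : (1 / 2 : ℝ) ^ (n + 1) < (1 / 2) ^ (k₀ + 1) := by
      refine hn1.trans ?_
      rwa [one_div_pow]
    have := (pow_lt_pow_iff_right_of_lt_one₀ (by norm_num : (0 : ℝ) < 1 / 2) (by norm_num)).1 h5
    omega
  have er : (1 / 2 : ℝ) ^ n = 1 / 2 ^ n := one_div_pow _ _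
  have er1 : (1 / 2 : ℝ) ^ (n + 1) = 1 / 2 ^ n / 2 := by
    rw [pow_succ, er]; ring
  rw [er] at hn2
  rw [er1] at hn1
  have rpos : (0 : ℝ) < 1 / 2 ^ n := by positivity
  obtain ⟨m, rfl⟩ : ∃ m, n = m + 1 := ⟨n - 1, by omega⟩
  have e2r : 2 * (1 / 2 ^ (m + 1) : ℝ) = 1 / 2 ^ m := by
    rw [pow_succ]; field_simp
  have q1 : ∀ k : ℕ, ∑ a, ∫⁻ y in Metric.closedBall x' ((1 / 2 ^ (m + 1)) / 2 ^ k),
      ‖g y a - g x' a‖ₑ ≤ ENNReal.ofReal η0
        * volume (Metric.closedBall x' ((1 / 2 ^ (m + 1)) / 2 ^ k)) := by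
    intro k
    have e : (1 / 2 ^ (m + 1) : ℝ) / 2 ^ k = 1 / 2 ^ (m + 1 + k) := by
      rw [pow_add (2 : ℝ) (m + 1) k]; field_simp
    rw [e]
    exact (hk₀ (m + 1 + k) (by omega) x' hx').2
  have q2 : ∀ k : ℕ, ∑ a, ∫⁻ y in Metric.closedBall x ((2 * (1 / 2 ^ (m + 1))) / 2 ^ k),
      ‖g y a - g x a‖ₑ ≤ ENNReal.ofReal η0
        * volume (Metric.closedBall x ((2 * (1 / 2 ^ (m + 1))) / 2 ^ k)) := by
    intro k
    have e : (2 * (1 / 2 ^ (m + 1)) : ℝ) / 2 ^ k = 1 / 2 ^ (m + k) := by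
      rw [e2r, pow_add (2 : ℝ) m k]; field_simp
    rw [e]
    exact (hk₀ (m + k) (by omega) x hx).2
  have b1 : Metric.closedBall x' (1 / 2 ^ (m + 1)) ⊆ Ω := (hk₀ (m + 1) (by omega) x' hx').1
  have b2 : Metric.closedBall x (2 * (1 / 2 ^ (m + 1))) ⊆ Ω := by
    rw [e2r]; exact (hk₀ m (by omega) x hx).1
  have t1 := hT Ω u g (g x') x' (1 / 2 ^ (m + 1)) (ENNReal.ofReal η0) hΩ hu hg h rpos b1 q1
  have t2 := hT Ω u g (g x) x (2 * (1 / 2 ^ (m + 1))) (ENNReal.ofReal η0) hΩ hu hg h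
    (by positivity) b2 q2
  have key := LDd_key hu hg rpos hn2 b1 t1 t2
    (by simpa using q1 0) (by simpa using q2 0)
  have e3 : (lin (g x)) (x' - x) = ∑ a, g x a * (x' a - x a) := by
    unfold lin
    rw [_root_.sum_apply]
    exact Finset.sum_congr rfl fun a _ => by simp
  rw [e3]
  have e4 : (33 * C + 17) * ENNReal.ofReal η0 * ENNReal.ofReal (1 / 2 ^ (m + 1))
      = ENNReal.ofReal ((33 * C0 + 17) * η0 * (1 / 2 ^ (m + 1))) := by
    rw [ENNReal.ofReal_mul (by positivity), ENNReal.ofReal_mul (by positivity),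
      ENNReal.ofReal_add (by positivity) (by positivity), ENNReal.ofReal_mul (by positivity),
      ← hC0]
    congr 2
    simp
  rw [e4, ← ofReal_norm, ENNReal.ofReal_le_ofReal_iff (by positivity)] at key
  refine key.trans ?_
  have e5 : (33 * C0 + 17) * η0 = c / 2 := by
    rw [hη0]; field_simp
  rw [e5, ← dist_eq_norm]
  nlinarith
end Pool.Agent.SYD
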