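import Pool.Agent.SYD.Wkl
import Pool.Agent.SYH.Dwd
import Pool.Agent.SYH.WGu
import Pool.Agent.SYH.SgL

/-!
# SYD/LimS: uniform limits of symplectic Sobolev maps with bounded energy are symplectic Sobolev maps

`φ` is continuous on `W` (`TendstoUniformlyOn.continuousOn`).  `U = hyperfilter ℕ`; `weak_lim` for each entry `G n · b a` gives `G x b a`, in `L²(W)` (so
`LpL 2 W`: `MemLp.mono_measure`), with convergence along `U` against every `v ∈ L²(W)`.
(1) `IsWD 2 W φ G`: for a test function `ψ` on `W`: `∫ (φ n x)_b ∂_a ψ → ∫ φ_b ∂_a ψ` (uniform convergence on `tsupport ψ`, which is compact), and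
`∫ (φ n x)_b ∂_a ψ = - ∫ G n x b a ψ → - ∫ G x b a ψ` along `U`.
(2) `curl_pull` for `φ n`: `Curl W ((G n)ᵀ lam0 (φ n)) ((G n)ᵀ J (G n))`, and the right side is `s J` a.e.; `Curl.congr`.  Let `n → U` in
`DivEq`: the terms are `∫ ((G n)ᵀ lam0 (φ n))_b ∂_a ψ = Σ_c ∫ G n x c b lam0 (φ n x) c ∂_a ψ`; the difference to
`Σ_c ∫ G n x c b lam0 (φ x) c ∂_a ψ` is at most `sup_{tsupport ψ} |lam0 (φ n) - lam0 φ| ‖G n‖_{L²} ‖∂_a ψ‖_{L²} → 0`, and
`lam0 (φ x) c ∂_a ψ ∈ L²(W)`.  So `Curl W (Gᵀ lam0 φ) (s J)`.  `curl_pull` for `φ`: `Curl W (Gᵀ lam0 φ) (Gᵀ J G)`.  Subtract (`Curl.sub`):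
`Curl W 0 (Gᵀ J G - s J)`, i.e. `∫ (Gᵀ J G - s J)_{ab} ψ = 0` for all test functions; so `Gᵀ J G = s J` a.e. on `W` (the entries are of class
`L^1_loc`: `SgL_entry_lp` in `SYH/SgL`; e.g. `WG.unique` for `WG W 0 0` and `WG W 0 (..)`, or
`IsOpen.ae_eq_zero_of_integral_contDiff_smul_eq_zero`).
-/

open MeasureTheory Set Filter Topology
open scoped ContDiff Matrix ENNReal

namespace Pool.Agent.SYD

open Pool.Agent.SYH

private theorem LimS_mem {W : Set R4} (hW : IsOpen W) {w ψ : R4 → ℝ} (hw : ContinuousOn w W)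
    (hψ : Test W ψ) : MemLp (fun x => w x * ψ x) 2 (volume.restrict W) := by
  have h1 : LpL 2 W (fun x => w x * ψ x) :=
    LpL.cont_mul hW hw (LpL.of_cont hW hψ.smooth.continuous.continuousOn)
  have h2 := h1 (tsupport ψ) hψ.supp hψ.cpt
  have h3 : MemLp ((tsupport ψ).indicator (fun x => w x * ψ x)) 2 volume := by
    rw [memLp_indicator_iff_restrict hψ.cpt.isClosed.measurableSet]
    exact h2
  have h4 : (tsupport ψ).indicator (fun x => w x * ψ x) = fun x => w x * ψ x := by
    funext x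
    by_cases hx : x ∈ tsupport ψ
    · rw [indicator_of_mem hx]
    · rw [indicator_of_notMem hx, image_eq_zero_of_notMem_tsupport hx, mul_zero]
  rw [h4] at h3
  exact h3.mono_measure Measure.restrict_le_self

private theorem LimS_eq {W : Set R4} {ψ : R4 → ℝ} (hψ : Test W ψ) (g w : R4 → ℝ) :
    ∫ x, g x * (w x * ψ x) = ∫ x in W, g x * (w x * ψ x) := by
  refine (setIntegral_eq_integral_of_forall_compl_eq_zero fun x hx => ?_).symm
  have h1 : x ∉ tsupport ψ := fun h => hx (hψ.supp h)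
  rw [image_eq_zero_of_notMem_tsupport h1, mul_zero, mul_zero]

private theorem LimS_conv {W : Set R4} (hW : IsOpen W) {U : Ultrafilter ℕ}
    (hU : (U : Filter ℕ) ≤ atTop) {g : ℕ → R4 → ℝ} {h : R4 → ℝ} {C : ℝ≥0∞} (hC : C ≠ ⊤)
    (hm : ∀ n, AEStronglyMeasurable (g n) (volume.restrict W))
    (hb : ∀ n, eLpNorm (g n) 2 (volume.restrict W) ≤ C)
    (hh : ∀ v : R4 → ℝ, MemLp v 2 (volume.restrict W) →
      Tendsto (fun n => ∫ x in W, g n x * v x) U (𝓝 (∫ x in W, h x * v x)))
    {w : ℕ → R4 → ℝ} {w' : R4 → ℝ} (hw : ∀ n, ContinuousOn (w n) W) (hw' : ContinuousOn w' W)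
    (hu : TendstoUniformlyOn w w' atTop W) {ψ : R4 → ℝ} (hψ : Test W ψ) :
    Tendsto (fun n => ∫ x, g n x * (w n x * ψ x)) U (𝓝 (∫ x, h x * (w' x * ψ x))) := by
  have hg2 : ∀ n, MemLp (g n) 2 (volume.restrict W) :=
    fun n => ⟨hm n, (hb n).trans_lt hC.lt_top⟩
  have hv : MemLp (fun x => w' x * ψ x) 2 (volume.restrict W) := LimS_mem hW hw' hψ
  have hQ : ∀ n, MemLp (fun x => (w n x - w' x) * ψ x) 2 (volume.restrict W) :=
    fun n => LimS_mem hW ((hw n).sub hw') hψ
  have hψ2 : MemLp ψ 2 (volume.restrict W) := by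
    have := LimS_mem hW (continuousOn_const (c := (1 : ℝ))) hψ
    simpa using this
  have hzero : Tendsto (fun n => ∫ x in W, g n x * ((w n x - w' x) * ψ x)) atTop (𝓝 0) := by
    rw [Metric.tendsto_atTop]
    intro ε hε
    set B : ℝ := C.toReal * (eLpNorm ψ 2 (volume.restrict W)).toReal with hB
    have hB0 : 0 ≤ B := mul_nonneg ENNReal.toReal_nonneg ENNReal.toReal_nonneg
    set δ : ℝ := ε / (2 * (B + 1)) with hδ
    have hδ0 : 0 < δ := by positivity
    have h1 := (Metric.tendstoUniformlyOn_iff.1 hu) δ hδ0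
    obtain ⟨N, hN⟩ := eventually_atTop.1 h1
    refine ⟨N, fun n hn => ?_⟩
    have h2 : eLpNorm (fun x => (w n x - w' x) * ψ x) 2 (volume.restrict W) ≤
        ENNReal.ofReal (δ * (eLpNorm ψ 2 (volume.restrict W)).toReal) := by
      rw [ENNReal.ofReal_mul hδ0.le, ENNReal.ofReal_toReal hψ2.2.ne]
      refine eLpNorm_le_mul_eLpNorm_of_ae_le_mul ?_ 2
      refine (ae_restrict_iff' hW.measurableSet).2 (Eventually.of_forall fun x hx => ?_)
      rw [norm_mul]
      refine mul_le_mul_of_nonneg_right ?_ (norm_nonneg _)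
      have h3 := hN n hn x hx
      rw [dist_comm, dist_eq_norm] at h3
      exact h3.le
    have h4 := dwd_cs (hg2 n) (hQ n) (by positivity) h2
    have h5 : (eLpNorm (g n) 2 (volume.restrict W)).toReal ≤ C.toReal :=
      ENNReal.toReal_mono hC (hb n)
    rw [dist_zero_right, Real.norm_eq_abs]
    calc |∫ x in W, g n x * ((w n x - w' x) * ψ x)|
        ≤ (eLpNorm (g n) 2 (volume.restrict W)).toReal *
          (δ * (eLpNorm ψ 2 (volume.restrict W)).toReal) := h4
      _ ≤ C.toReal * (δ * (eLpNorm ψ 2 (volume.restrict W)).toReal) :=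
          mul_le_mul_of_nonneg_right h5 (by positivity)
      _ = δ * B := by rw [hB]; ring
      _ < ε := by
          rw [hδ, div_mul_eq_mul_div, div_lt_iff₀ (by positivity)]
          nlinarith
  have hsum := (hh _ hv).add (hzero.mono_left hU)
  rw [add_zero] at hsum
  rw [LimS_eq hψ]
  refine hsum.congr fun n => ?_
  have i1 : Integrable (fun x => g n x * (w' x * ψ x)) (volume.restrict W) :=
    (hg2 n).integrable_mul hv
  have i2 : Integrable (fun x => g n x * ((w n x - w' x) * ψ x)) (volume.restrict W) :=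
    (hg2 n).integrable_mul (hQ n)
  rw [LimS_eq hψ, ← integral_add i1 i2]
  refine integral_congr_ae (Eventually.of_forall fun x => ?_)
  show g n x * (w' x * ψ x) + g n x * ((w n x - w' x) * ψ x) = g n x * (w n x * ψ x)
  ring

private theorem LimS_conv0 {W : Set R4} (hW : IsOpen W) {U : Ultrafilter ℕ}
    (hU : (U : Filter ℕ) ≤ atTop)
    {w : ℕ → R4 → ℝ} {w' : R4 → ℝ} (hw : ∀ n, ContinuousOn (w n) W) (hw' : ContinuousOn w' W)
    (hu : TendstoUniformlyOn w w' atTop W) {ψ : R4 → ℝ} (hψ : Test W ψ) :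
    Tendsto (fun n => ∫ x, w n x * ψ x) U (𝓝 (∫ x, w' x * ψ x)) := by
  have hK : MeasurableSet (tsupport ψ) := hψ.cpt.isClosed.measurableSet
  have hκ : MemLp ((tsupport ψ).indicator (fun _ : R4 => (1 : ℝ))) 2 (volume.restrict W) := by
    refine (memLp_indicator_const 2 hK 1 (Or.inr ?_)).mono_measure Measure.restrict_le_self
    exact hψ.cpt.measure_lt_top.ne
  have h1 := LimS_conv hW hU (g := fun _ => (tsupport ψ).indicator (fun _ : R4 => (1 : ℝ)))
    (h := (tsupport ψ).indicator (fun _ : R4 => (1 : ℝ))) hκ.2.ne (fun _ => hκ.1) (fun _ => le_rfl)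
    (fun v _ => tendsto_const_nhds) hw hw' hu hψ
  have h2 : ∀ w : R4 → ℝ, (fun x => (tsupport ψ).indicator (fun _ : R4 => (1 : ℝ)) x *
      (w x * ψ x)) = fun x => w x * ψ x := by
    intro w
    funext x
    by_cases hx : x ∈ tsupport ψ
    · rw [indicator_of_mem hx, one_mul]
    · rw [indicator_of_notMem hx, image_eq_zero_of_notMem_tsupport hx, mul_zero, mul_zero]
  simp only [h2] at h1
  exact h1

private theorem LimS_split {Ω : Set R4} {α : R4 → R4} {S : R4 → Matrix (Fin 4) (Fin 4) ℝ}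
    (hα : ∀ a, LpL 1 Ω (fun x => α x a)) (hS : ∀ a b, LpL 1 Ω (fun x => S x a b))
    (h : Curl Ω α S) {ψ : R4 → ℝ} (hψ : Test Ω ψ) (a d : Fin 4) :
    (∫ x, α x d * pd a ψ x) - (∫ x, α x a * pd d ψ x) + ∫ x, S x a d * ψ x = 0 := by
  have i1 : Integrable (fun x => α x d * pd a ψ x) :=
    (hα d).int (hψ.pd a).smooth.continuous (hψ.pd a).cpt (hψ.pd a).supp
  have i2 : Integrable (fun x => α x a * pd d ψ x) :=
    (hα a).int (hψ.pd d).smooth.continuous (hψ.pd d).cpt (hψ.pd d).supp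
  have i3 : Integrable (fun x => S x a d * ψ x) :=
    (hS a d).int hψ.smooth.continuous hψ.cpt hψ.supp
  have h0 := h a d ψ hψ
  have i4 : Integrable (fun x => α x d * pd a ψ x - α x a * pd d ψ x) := i1.sub i2
  rw [← integral_sub i1 i2, ← integral_add i4 i3, ← h0]
  refine integral_congr_ae (Eventually.of_forall fun x => ?_)
  show α x d * pd a ψ x - α x a * pd d ψ x + S x a d * ψ x =
    ∑ e, (α x d • (Pi.single a (1 : ℝ) : R4) - α x a • (Pi.single d (1 : ℝ) : R4)) e * pd e ψ x +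
      S x a d * ψ x
  congr 1
  simp only [Pi.sub_apply, Pi.smul_apply, smul_eq_mul, sub_mul, Finset.sum_sub_distrib,
    mul_assoc]
  congr 1
  · rw [Finset.sum_eq_single a]
    · simp
    · intro b _ hb
      simp [hb]
    · simp
  · rw [Finset.sum_eq_single d]
    · simp
    · intro b _ hb
      simp [hb]
    · simp

private theorem LimS_lam0 : Continuous lam0 := by
  unfold lam0
  fun_prop

private theorem LimS_lam0_unif {W : Set R4} {φ : R4 → R4} {f : ℕ → R4 → R4}
    (hφ : TendstoUniformlyOn f φ atTop W) (c : Fin 4) :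
    TendstoUniformlyOn (fun n x => lam0 (f n x) c) (fun x => lam0 (φ x) c) atTop W := by
  let L : R4 →ₗ[ℝ] ℝ :=
    { toFun := fun y => lam0 y c
      map_add' := fun x y => by
        simp only [lam0, Matrix.add_vecMul, smul_add, Pi.add_apply]
      map_smul' := fun t x => by
        simp only [lam0, Matrix.smul_vecMul, Pi.smul_apply, smul_eq_mul, RingHom.id_apply]
        ring }
  have h1 : UniformContinuous (fun y : R4 => lam0 y c) :=
    (LinearMap.toContinuousLinearMap L).uniformContinuous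
  exact h1.comp_tendstoUniformlyOn hφ

private theorem LimS_sum {W : Set R4} (hW : IsOpen W) {φ : R4 → R4}
    {G : R4 → Matrix (Fin 4) (Fin 4) ℝ} (hφ : ContinuousOn φ W) (hG : IsWD 2 W φ G)
    {ψ : R4 → ℝ} (hψ : Test W ψ) (d : Fin 4) :
    ∫ x, ((G x)ᵀ *ᵥ lam0 (φ x)) d * ψ x = ∑ c, ∫ x, G x c d * (lam0 (φ x) c * ψ x) := by
  have h12 : (1 : ℝ≥0∞) ≤ 2 := by norm_num
  have hi : ∀ c ∈ (Finset.univ : Finset (Fin 4)),
      Integrable (fun x => G x c d * (lam0 (φ x) c * ψ x)) := by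
    intro c _
    have h1 : LpL 1 W (fun x => lam0 (φ x) c * G x c d) :=
      LpL.cont_mul hW ((continuous_apply c).comp_continuousOn (LimS_lam0.comp_continuousOn hφ))
        ((hG.lp c d).exp h12)
    have h2 := h1.int hψ.smooth.continuous hψ.cpt hψ.supp
    refine h2.congr (Eventually.of_forall fun x => ?_)
    show lam0 (φ x) c * G x c d * ψ x = G x c d * (lam0 (φ x) c * ψ x)
    ring
  rw [← integral_finsetSum _ hi]
  refine integral_congr_ae (Eventually.of_forall fun x => ?_)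
  show (∑ c, G x c d * lam0 (φ x) c) * ψ x = ∑ c, G x c d * (lam0 (φ x) c * ψ x)
  rw [Finset.sum_mul]
  exact Finset.sum_congr rfl fun c _ => mul_assoc _ _ _

theorem lim_symp {W : Set R4} (hW : IsOpen W) {φ : R4 → R4} {f : ℕ → R4 → R4}
    {G : ℕ → R4 → Matrix (Fin 4) (Fin 4) ℝ} (hf : ∀ n, ContinuousOn (f n) W)
    (hG : ∀ n, IsWD 2 W (f n) (G n)) {C : ℝ≥0∞} (hC : C ≠ ⊤)
    (hb : ∀ n b a, eLpNorm (fun x => G n x b a) 2 (volume.restrict W) ≤ C) {s : ℝ}
    (hs : ∀ n, ∀ᵐ x, x ∈ W → (G n x)ᵀ * J * G n x = s • J)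
    (hm : ∀ n b a, AEStronglyMeasurable (fun x => G n x b a) (volume.restrict W))
    (hφ : TendstoUniformlyOn f φ atTop W) :
    ∃ H, IsWD 2 W φ H ∧ ∀ᵐ x, x ∈ W → (H x)ᵀ * J * H x = s • J := by
  have hU : ((hyperfilter ℕ : Ultrafilter ℕ) : Filter ℕ) ≤ atTop := Nat.hyperfilter_le_atTop
  have hφc : ContinuousOn φ W := hφ.continuousOn (Eventually.of_forall hf).frequently
  have hex := fun b a => weak_lim (hyperfilter ℕ) hC (fun n => hm n b a) (fun n => hb n b a)
  choose g hg1 hg2 using hex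
  have hfc : ∀ b, TendstoUniformlyOn (fun n x => f n x b) (fun x => φ x b) atTop W := fun b =>
    (Pi.uniformContinuous_proj (fun _ : Fin 4 => ℝ) b).comp_tendstoUniformlyOn hφ
  have h12 : (1 : ℝ≥0∞) ≤ 2 := by norm_num
  -- the weak derivative
  have hH : IsWD 2 W φ (fun x => Matrix.of fun b a => g b a x) := by
    refine ⟨fun b a K hK _ => ?_, fun b ψ hψ a => ?_⟩
    · exact (hg1 b a).mono_measure (Measure.restrict_mono hK le_rfl)
    · have t1 : Tendsto (fun n => ∫ x, f n x b * pd a ψ x) (hyperfilter ℕ)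
          (𝓝 (∫ x, φ x b * pd a ψ x)) :=
        LimS_conv0 hW hU (fun n => (continuous_apply b).comp_continuousOn (hf n))
          ((continuous_apply b).comp_continuousOn hφc) (hfc b) (hψ.pd a)
      have t2 := LimS_conv hW hU hC (fun n => hm n b a) (fun n => hb n b a) (hg2 b a)
        (w := fun _ _ => 1) (w' := fun _ => 1) (fun _ => continuousOn_const) continuousOn_const
        (fun u hu => Eventually.of_forall fun n x _ => refl_mem_uniformity hu) hψ
      simp only [one_mul] at t2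
      have t3 : Tendsto (fun n => ∫ x, f n x b * pd a ψ x) (hyperfilter ℕ)
          (𝓝 (-∫ x, g b a x * ψ x)) :=
        t2.neg.congr fun n => ((hG n).wg b ψ hψ a).symm
      exact tendsto_nhds_unique t1 t3
  refine ⟨_, hH, ?_⟩
  have hS := SgL_entry_lp hH
  have hα := SgL_alpha_lp hW hφc hH
  have hlc : ∀ c, ContinuousOn (fun x => lam0 (φ x) c) W := fun c =>
    (continuous_apply c).comp_continuousOn (LimS_lam0.comp_continuousOn hφc)
  have hlcn : ∀ c n, ContinuousOn (fun x => lam0 (f n x) c) W := fun c n =>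
    (continuous_apply c).comp_continuousOn (LimS_lam0.comp_continuousOn (hf n))
  have hlim : ∀ ψ, Test W ψ → ∀ d, Tendsto (fun n => ∫ x, ((G n x)ᵀ *ᵥ lam0 (f n x)) d * ψ x)
      (hyperfilter ℕ) (𝓝 (∫ x, ((Matrix.of fun b a => g b a x)ᵀ *ᵥ lam0 (φ x)) d * ψ x)) := by
    intro ψ hψ d
    rw [LimS_sum hW hφc hH hψ]
    have h1 : Tendsto (fun n => ∑ c, ∫ x, G n x c d * (lam0 (f n x) c * ψ x)) (hyperfilter ℕ)
        (𝓝 (∑ c, ∫ x, g c d x * (lam0 (φ x) c * ψ x))) :=
      tendsto_finsetSum _ fun c _ => LimS_conv hW hU hC (fun n => hm n c d)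
        (fun n => hb n c d) (hg2 c d) (hlcn c) (hlc c) (LimS_lam0_unif hφ c) hψ
    exact h1.congr fun n => (LimS_sum hW (hf n) (hG n) hψ d).symm
  have heq : ∀ a d ψ, Test W ψ →
      ∫ x, ((Matrix.of fun b a => g b a x)ᵀ * J * (Matrix.of fun b a => g b a x)) a d * ψ x =
        ∫ x, (s • J) a d * ψ x := by
    intro a d ψ hψ
    have h1 : ∀ n, (∫ x, ((G n x)ᵀ *ᵥ lam0 (f n x)) d * pd a ψ x) -
        (∫ x, ((G n x)ᵀ *ᵥ lam0 (f n x)) a * pd d ψ x) + ∫ x, (s • J) a d * ψ x = 0 := by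
      intro n
      have h2 := LimS_split (SgL_alpha_lp hW (hf n) (hG n)) (SgL_entry_lp (hG n))
        (curl_pull hW (hf n) (hG n)) hψ a d
      have h3 : ∫ x, ((G n x)ᵀ * J * G n x) a d * ψ x = ∫ x, (s • J) a d * ψ x := by
        refine integral_congr_ae ?_
        filter_upwards [hs n] with x hx
        by_cases hxW : x ∈ W
        · rw [hx hxW]
        · have h4 : x ∉ tsupport ψ := fun h => hxW (hψ.supp h)
          rw [image_eq_zero_of_notMem_tsupport h4, mul_zero, mul_zero]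
      rw [h3] at h2
      exact h2
    have h2 := LimS_split hα hS (curl_pull hW hφc hH) hψ a d
    have h3 := (((hlim _ (hψ.pd a) d).sub (hlim _ (hψ.pd d) a)).add_const
      (∫ x, (s • J) a d * ψ x)).congr (fun n => h1 n)
    have h4 := tendsto_nhds_unique h3 tendsto_const_nhds
    linarith
  have key : ∀ a d, ∀ᵐ x, x ∈ W →
      ((Matrix.of fun b a => g b a x)ᵀ * J * (Matrix.of fun b a => g b a x)) a d -
        (s • J) a d = 0 := by
    intro a d
    refine hW.ae_eq_zero_of_integral_contDiff_smul_eq_zero ?_ ?_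
    · rw [locallyIntegrableOn_iff hW.isLocallyClosed]
      intro K hK hKc
      have h1 : IntegrableOn (fun x => ((Matrix.of fun b a => g b a x)ᵀ * J *
        (Matrix.of fun b a => g b a x)) a d) K := memLp_one_iff_integrable.1 (hS a d K hK hKc)
      have h2 : IntegrableOn (fun _ : R4 => (s • J) a d) K :=
        integrableOn_const hKc.measure_lt_top.ne
      exact h1.sub h2
    · intro ψ h1 h2 h3
      have hψ : Test W ψ := ⟨h1, h2, h3⟩
      have e1 := heq a d ψ hψ
      have i1 : Integrable (fun x => ((Matrix.of fun b a => g b a x)ᵀ * J *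
        (Matrix.of fun b a => g b a x)) a d * ψ x) := (hS a d).int h1.continuous h2 h3
      have i2 : Integrable (fun x => (s • J) a d * ψ x) :=
        (h1.continuous.integrable_of_hasCompactSupport h2).const_mul _
      have e3 : ∀ x, ψ x • (((Matrix.of fun b a => g b a x)ᵀ * J *
          (Matrix.of fun b a => g b a x)) a d - (s • J) a d) =
          ((Matrix.of fun b a => g b a x)ᵀ * J * (Matrix.of fun b a => g b a x)) a d * ψ x -
            (s • J) a d * ψ x := by
        intro x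
        rw [smul_eq_mul]
        ring
      simp only [e3]
      rw [integral_sub i1 i2, e1, sub_self]
  have key' := ae_all_iff.2 fun a => ae_all_iff.2 fun d => key a d
  filter_upwards [key'] with x hx hxW
  ext a d
  exact sub_eq_zero.1 (hx a d hxW)

end Pool.Agent.SYD
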