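import Pool.Agent.SYD.NoG
import Pool.Agent.SYD.GlF

/-!
# SYD/Mn1: no measure preserving symplectic atlas of class `W^{1,2}` on the four-sphere
-/

open MeasureTheory Set Filter Topology
open scoped ContDiff Matrix ENNReal

namespace Pool.Agent.SYD

open Pool.Agent.SYH

theorem no_at {ι : Type*} (A : At S4 ι) : False := by
  have : CompactSpace S4 := inferInstance
  have : Nonempty S4 := ⟨⟨EuclideanSpace.single 0 1, by simp⟩⟩
  choose c hc using A.cov
  obtain ⟨σ, hσ⟩ := SYT.glob A.sys c hc
  obtain ⟨α, hα⟩ := A.prim_of_coh hc hσ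
  exact At.no_global α hα

end Pool.Agent.SYD
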