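import Pool.Agent.SYD.BmP
import Pool.Agent.SYD.GdA

/-!
# SYD/Prt: a partition of unity in the class `Gd`, subordinate to a cover

As `SYD/Cut.partition`, by `IsCompact.induction_on` (or: finitely many `N` of `bump'` cover `M`, `ρ_k = η_k Π_{l<k} (1 - η_l)`), with `Gd` instead of
`AC` (`Gd.mul`, `Gd.add`, `Gd.smul`, `Gd.const`, `IsBump.gd`); the bump function at `m` is taken with support in `O` where `O, i` are given by `hQ`.
-/

open MeasureTheory Set Filter Topology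
open scoped ContDiff Matrix ENNReal

namespace Pool.Agent.SYD

open Pool.Agent.SYH

namespace At

variable {M : Type*} [TopologicalSpace M] [T2Space M] [CompactSpace M] {ι : Type*} (A : At M ι)

private theorem Prt_congr {f g : M → ℝ} {α : ι → R4 → R4} (h : A.Gd f α) (hfg : ∀ m, g m = f m) :
    A.Gd g α := by
  have : g = f := funext hfg
  rw [this]
  exact h

private theorem Prt_compl {f g : M → ℝ} {α β : ι → R4 → R4} (h : A.Gd f α) (h' : A.Gd g β) :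
    ∃ γ, A.Gd (fun m => (1 - f m) * g m) γ := by
  have h1 := Gd.add h' ((Gd.mul h h').smul (-1))
  exact ⟨_, Prt_congr A h1 (fun m => by ring)⟩

private theorem Prt_or {f g : M → ℝ} {α β : ι → R4 → R4} (h : A.Gd f α) (h' : A.Gd g β) :
    ∃ γ, A.Gd (fun m => f m + (1 - f m) * g m) γ := by
  obtain ⟨γ, hγ⟩ := Prt_compl A h h'
  exact ⟨_, Gd.add h hγ⟩

theorem part {Q : Set M → ι → Prop}
    (hQ : ∀ m, ∃ O i, IsOpen O ∧ m ∈ O ∧ O ⊆ (A.x i).source ∧ Q O i) :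
    ∃ (n : ℕ) (ρ : Fin n → M → ℝ) (β : Fin n → ι → R4 → R4) (T N : Fin n → Set M)
      (c : Fin n → ι), (∀ k, A.Gd (ρ k) (β k)) ∧ (∀ k m, 0 ≤ ρ k m) ∧ (∀ m, ∑ k, ρ k m = 1) ∧
      (∀ k, IsOpen (N k) ∧ N k ⊆ (A.x (c k)).source ∧ Q (N k) (c k)) ∧
      ∀ k, IsCompact (T k) ∧ T k ⊆ N k ∧ ∀ m ∉ T k, ρ k m = 0 := by
  have key : ∃ (κ : Type) (_ : Fintype κ) (χ : κ → M → ℝ) (β : κ → ι → R4 → R4)
      (T N : κ → Set M) (c : κ → ι), (∀ k, A.Gd (χ k) (β k)) ∧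
      (∃ γ, A.Gd (fun m => ∑ k, χ k m) γ) ∧
      (∀ k m, 0 ≤ χ k m) ∧ (∀ m, ∑ k, χ k m ≤ 1) ∧
      (∀ m ∈ (univ : Set M), ∑ k, χ k m = 1) ∧
      (∀ k, IsOpen (N k) ∧ N k ⊆ (A.x (c k)).source ∧ Q (N k) (c k)) ∧
      ∀ k, IsCompact (T k) ∧ T k ⊆ N k ∧ ∀ m ∉ T k, χ k m = 0 := by
    refine isCompact_univ.induction_on (p := fun S => ∃ (κ : Type) (_ : Fintype κ)
      (χ : κ → M → ℝ) (β : κ → ι → R4 → R4)
      (T N : κ → Set M) (c : κ → ι), (∀ k, A.Gd (χ k) (β k)) ∧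
      (∃ γ, A.Gd (fun m => ∑ k, χ k m) γ) ∧
      (∀ k m, 0 ≤ χ k m) ∧ (∀ m, ∑ k, χ k m ≤ 1) ∧
      (∀ m ∈ S, ∑ k, χ k m = 1) ∧
      (∀ k, IsOpen (N k) ∧ N k ⊆ (A.x (c k)).source ∧ Q (N k) (c k)) ∧
      ∀ k, IsCompact (T k) ∧ T k ⊆ N k ∧ ∀ m ∉ T k, χ k m = 0) ?_ ?_ ?_ ?_
    · refine ⟨Empty, inferInstance, fun k => k.elim, fun k => k.elim, fun k => k.elim,
        fun k => k.elim, fun k => k.elim, fun k => k.elim, ⟨fun _ _ => 0, ?_⟩, fun k => k.elim,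
        ?_, ?_, fun k => k.elim, fun k => k.elim⟩
      · simpa using Gd.const A 0
      · intro m
        simp
      · intro m hm
        exact absurd hm (notMem_empty m)
    · rintro s t hst ⟨κ, hκ, χ, β, T, N, c, h1, h2, h3, h4, h5, h6, h7⟩
      exact ⟨κ, hκ, χ, β, T, N, c, h1, h2, h3, h4, fun m hm => h5 m (hst hm), h6, h7⟩
    · rintro s t ⟨κ, hκ, χ, β, T, N, c, h1, ⟨γ, hγ⟩, h3, h4, h5, h6, h7⟩
        ⟨κ', hκ', χ', β', T', N', c', h1', ⟨γ', hγ'⟩, h3', h4', h5', h6', h7'⟩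
      have hex : ∀ k, ∃ δ, A.Gd (fun m => (1 - ∑ l, χ l m) * χ' k m) δ := fun k =>
        Prt_compl A hγ (h1' k)
      choose δ hδ using hex
      have hsum : ∀ m, ∑ k : κ ⊕ κ', (Sum.elim χ (fun k m => (1 - ∑ l, χ l m) * χ' k m) k) m
          = (∑ l, χ l m) + (1 - ∑ l, χ l m) * ∑ l, χ' l m := by
        intro m
        rw [Fintype.sum_sum_type]
        simp only [Sum.elim_inl, Sum.elim_inr]
        rw [Finset.mul_sum]
      have hs0 : ∀ m, 0 ≤ ∑ l, χ l m := fun m => Finset.sum_nonneg fun l _ => h3 l m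
      have hs0' : ∀ m, 0 ≤ ∑ l, χ' l m := fun m => Finset.sum_nonneg fun l _ => h3' l m
      refine ⟨κ ⊕ κ', inferInstance, Sum.elim χ (fun k m => (1 - ∑ l, χ l m) * χ' k m),
        Sum.elim β δ, Sum.elim T T', Sum.elim N N', Sum.elim c c', ?_, ?_, ?_, ?_, ?_, ?_, ?_⟩
      · rintro (k | k)
        · exact h1 k
        · exact hδ k
      · obtain ⟨ε, hε⟩ := Prt_or A hγ hγ'
        exact ⟨ε, Prt_congr A hε hsum⟩
      · rintro (k | k) m
        · exact h3 k m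
        · exact mul_nonneg (by linarith [h4 m]) (h3' k m)
      · intro m
        rw [hsum]
        nlinarith [hs0 m, h4 m, h4' m, hs0' m]
      · rintro m (hm | hm)
        · rw [hsum, h5 m hm]
          ring
        · rw [hsum, h5' m hm]
          ring
      · rintro (k | k)
        · exact h6 k
        · exact h6' k
      · rintro (k | k)
        · exact h7 k
        · refine ⟨(h7' k).1, (h7' k).2.1, fun m hm => ?_⟩
          simp only [Sum.elim_inr] at hm ⊢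
          rw [(h7' k).2.2 m hm, mul_zero]
    · intro m _
      obtain ⟨O, i, hO, hmO, hOs, hOQ⟩ := hQ m
      obtain ⟨ψ, η, β, N, T, h1, h2, h3, h4, h5, h6, h7, h8⟩ := A.bump' (hOs hmO) hO hmO
      refine ⟨N, mem_nhdsWithin_of_mem_nhds (h3.mem_nhds h4), Unit, inferInstance, fun _ => η,
        fun _ => β, fun _ => T, fun _ => O, fun _ => i, fun _ => h1.gd, ⟨β, ?_⟩,
        fun _ m' => (h2 m').1, ?_, ?_, fun _ => ⟨hO, hOs, hOQ⟩,
        fun _ => ⟨h6, fun y hy => (h7 hy).1, h8⟩⟩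
      · simpa using h1.gd
      · intro m'
        simpa using (h2 m').2
      · intro m' hm'
        simpa using h5 m' hm'
  obtain ⟨κ, hκ, χ, β, T, N, c, h1, -, h3, -, h5, h6, h7⟩ := key
  let e := (Fintype.equivFin κ).symm
  refine ⟨Fintype.card κ, fun k => χ (e k), fun k => β (e k), fun k => T (e k),
    fun k => N (e k), fun k => c (e k), fun k => h1 _, fun k m => h3 _ m, ?_, fun k => h6 _,
    fun k => h7 _⟩
  intro m
  rw [← h5 m (mem_univ m)]
  exact Equiv.sum_comp e (fun k => χ k m)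

end At

end Pool.Agent.SYD
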