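import Pool.Agent.SYD.PGs

/-!
# SYD/PGc: a function with vanishing differential is almost everywhere locally constant

Choose a chart `i ∋ m`; `locConstAe` (`SYH/SgL`) for `f ∘ (x i).symm` on `D i V` at `x i m` gives a ball `B ⊆ D i V` and `c` with
`f ∘ (x i).symm = c` a.e. on `B`.  `O = (x i).source ∩ x i ⁻¹' B`.  In the chart `j`: `D j O` is the preimage of `B` under
`tr j i` (inside `(tr j i).source`), `f ((x j).symm y) = f ((x i).symm (tr j i y))`, and `ae_comp (A.mpre j i)`.
-/

open MeasureTheory Set Filter Topology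
open scoped ContDiff Matrix ENNReal

namespace Pool.Agent.SYD

open Pool.Agent.SYH

namespace At

variable {M : Type*} [TopologicalSpace M] {ι : Type*} {A : At M ι} {V : Set M} {f : M → ℝ}

theorem PG.locConst (hV : IsOpen V) (h : A.PG V f (fun _ _ => 0)) {m : M} (hm : m ∈ V) :
    ∃ c : ℝ, A.Eg m f (fun _ => c) := by
  obtain ⟨i, hi⟩ := A.cov m
  obtain ⟨r, hr, hb, c, hc⟩ := locConstAe (A.D_open i hV) ((h.l2 i).exp A.one_le) (h.wg i)
    (A.x_mem_D hi hm)
  refine ⟨c, (A.x i).source ∩ A.x i ⁻¹' Metric.ball (A.x i m) r,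
    (A.x i).isOpen_inter_preimage Metric.isOpen_ball, ⟨hi, Metric.mem_ball_self hr⟩, fun j => ?_⟩
  have h1 : ∀ᵐ x, x ∈ (A.tr j i).target →
      (x ∈ Metric.ball (A.x i m) r → f ((A.x i).symm x) = c) := by
    filter_upwards [hc] with x hx _ hx'
    exact hx hx'
  filter_upwards [ae_comp (A.mpre j i) h1] with y hy hyD
  have hys : y ∈ A.D j (A.x i).source := ⟨hyD.1, hyD.2.1⟩
  have h2 := hy (by rw [A.tr_source]; exact hys) hyD.2.2
  rw [A.symm_tr hys] at h2
  exact h2

end At

end Pool.Agent.SYD
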