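import Pool.Agent.SYD.Poi
import Pool.Agent.SYH.Apx
import Pool.Agent.SYH.PoS
import Pool.Agent.SYH.PoL
import Pool.Agent.SYH.Dwd

/-!
# SYD/PoD: Poincare lemma for closed one-forms of class `L²_loc` on a ball

`K = closedBall z R ⊆ Ω`, `B = ball z R` (`K \ B` is a null set).  `apxCurl` with `q = 2`, `ε = 1/(n+1)` gives smooth
`β^n → α` in `L² (K)`, closed on `K`; `poincare_smooth` gives smooth `f_n` with `∂_a f_n = β^n_a` on `B`; subtract the mean
value over `K`: `∫_K f_n = 0`.  `poinc` with `q = 2` for `f = f_n - f_m`: since `∫_K f = 0`,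
`vol(K) ∫_K |f|² ≤ ∫_K ∫_K |f x - f y|² dx dy` (expand the square), so
`‖f_n - f_m‖_{L²(K)}² ≤ C R² Σ_a ‖β^n_a - β^m_a‖²_{L²(K)}`: a Cauchy sequence in `L²(K)` (complete: `Lp`, or
`cauchy_complete_eLpNorm`).  The limit `f`: pass to the limit in `∫ f_n ∂_a ψ = - ∫ β^n_a ψ`.
-/

open MeasureTheory Set Filter Topology
open scoped ContDiff Matrix ENNReal

namespace Pool.Agent.SYD

open Pool.Agent.SYH

private theorem PoD_jensen {μ : Measure R4} {h : R4 → ℝ≥0∞} (hh : Measurable h) :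
    (∫⁻ y, h y ∂μ) ^ (2 : ℝ) ≤ μ univ * ∫⁻ y, h y ^ (2 : ℝ) ∂μ := by
  have h1 := eLpNorm'_le_eLpNorm'_mul_rpow_measure_univ (μ := μ) (p := 1) (q := 2) one_pos
    (by norm_num) (f := h) hh.aestronglyMeasurable
  simp only [eLpNorm', ENNReal.rpow_one, enorm_eq_self, div_one] at h1
  calc (∫⁻ y, h y ∂μ) ^ (2 : ℝ)
      ≤ ((∫⁻ y, h y ^ (2 : ℝ) ∂μ) ^ (1 / (2 : ℝ)) * μ univ ^ (1 - 1 / (2 : ℝ))) ^ (2 : ℝ) :=
        ENNReal.rpow_le_rpow h1 (by norm_num)
    _ = μ univ * ∫⁻ y, h y ^ (2 : ℝ) ∂μ := by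
        rw [ENNReal.mul_rpow_of_nonneg _ _ (by norm_num), ← ENNReal.rpow_mul, ← ENNReal.rpow_mul]
        norm_num
        rw [mul_comm]

private theorem PoD_mean {K : Set R4} (hK : IsCompact K) (hV : volume K ≠ 0) {f : R4 → ℝ}
    (hf : Continuous f) (h0 : ∫ y in K, f y = 0) (x : R4) :
    volume K * ‖f x‖ₑ ^ (2 : ℝ) ≤ ∫⁻ y in K, ‖f x - f y‖ₑ ^ (2 : ℝ) := by
  have hVt : volume K ≠ ⊤ := hK.measure_lt_top.ne
  have hint : IntegrableOn f K := hf.continuousOn.integrableOn_compact hK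
  have e1 : ∫ y in K, (f x - f y) = (volume K).toReal * f x := by
    have hcn : Integrable (fun _ : R4 => f x) (volume.restrict K) := integrableOn_const hVt
    rw [integral_sub hcn hint, h0, sub_zero, setIntegral_const, smul_eq_mul]
    rfl
  have e2 : volume K * ‖f x‖ₑ ≤ ∫⁻ y in K, ‖f x - f y‖ₑ := by
    have e3 := enorm_integral_le_lintegral_enorm (μ := volume.restrict K) (fun y => f x - f y)
    rw [e1, enorm_mul] at e3
    rwa [Real.enorm_eq_ofReal ENNReal.toReal_nonneg, ENNReal.ofReal_toReal hVt] at e3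
  have hm : Measurable (fun y => ‖f x - f y‖ₑ) := (continuous_const.sub hf).enorm.measurable
  have e4 := PoD_jensen (μ := volume.restrict K) hm
  rw [Measure.restrict_apply_univ] at e4
  have e5 : volume K * (volume K * ‖f x‖ₑ ^ (2 : ℝ)) ≤
      volume K * ∫⁻ y in K, ‖f x - f y‖ₑ ^ (2 : ℝ) := by
    refine le_trans (le_of_eq ?_) ((ENNReal.rpow_le_rpow e2 (by norm_num : (0 : ℝ) ≤ 2)).trans e4)
    rw [ENNReal.mul_rpow_of_nonneg _ _ (by norm_num), ← mul_assoc]
    congr 1
    rw [ENNReal.rpow_two, pow_two]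
  exact (ENNReal.mul_le_mul_iff_right hV hVt).1 e5

private theorem PoD_poinc {z : R4} {R : ℝ} (hR : 0 < R) : ∃ C : ℝ≥0∞, C ≠ ⊤ ∧ ∀ f : R4 → ℝ,
    ContDiff ℝ 1 f → ∫ y in Metric.closedBall z R, f y = 0 →
    eLpNorm f 2 (volume.restrict (Metric.closedBall z R)) ≤
      C * ∑ a, eLpNorm (pd a f) 2 (volume.restrict (Metric.closedBall z R)) := by
  obtain ⟨C, hC, hP⟩ := poinc (q := 2) (by norm_num)
  set K := Metric.closedBall z R with hKd
  have hK : IsCompact K := isCompact_closedBall z R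
  have hKm : MeasurableSet K := hK.measurableSet
  have hV : volume K ≠ 0 := (Metric.measure_closedBall_pos volume z hR).ne'
  have hVt : volume K ≠ ⊤ := hK.measure_lt_top.ne
  refine ⟨(C * ENNReal.ofReal (R ^ (2 : ℝ))) ^ (1 / (2 : ℝ)), ?_, fun f hf h0 => ?_⟩
  · exact ENNReal.rpow_ne_top_of_nonneg (by norm_num) (ENNReal.mul_ne_top hC ENNReal.ofReal_ne_top)
  have h1 := hP f z R hf hR
  have hm : Measurable (fun x => ‖f x‖ₑ ^ (2 : ℝ)) :=
    ENNReal.continuous_rpow_const.measurable.comp hf.continuous.enorm.measurable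
  have h2 : volume K * ∫⁻ x in K, ‖f x‖ₑ ^ (2 : ℝ) ≤
      volume K * (C * ENNReal.ofReal (R ^ (2 : ℝ)) *
        ∑ a, ∫⁻ x in K, ‖pd a f x‖ₑ ^ (2 : ℝ)) := by
    calc volume K * ∫⁻ x in K, ‖f x‖ₑ ^ (2 : ℝ) = ∫⁻ x in K, volume K * ‖f x‖ₑ ^ (2 : ℝ) := by
          rw [lintegral_const_mul _ hm]
      _ ≤ ∫⁻ x in K, ∫⁻ y in K, ‖f x - f y‖ₑ ^ (2 : ℝ) :=
          lintegral_mono fun x => PoD_mean hK hV hf.continuous h0 x
      _ ≤ _ := h1
      _ = _ := by ring
  have h3 := (ENNReal.mul_le_mul_iff_right hV hVt).1 h2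
  have hn : ∀ g : R4 → ℝ, eLpNorm g 2 (volume.restrict K) =
      (∫⁻ x in K, ‖g x‖ₑ ^ (2 : ℝ)) ^ (1 / (2 : ℝ)) := by
    intro g
    rw [eLpNorm_eq_lintegral_rpow_enorm_toReal (by norm_num) (by norm_num)]
    simp
  have hn2 : ∀ g : R4 → ℝ, ∫⁻ x in K, ‖g x‖ₑ ^ (2 : ℝ) =
      eLpNorm g 2 (volume.restrict K) ^ (2 : ℝ) := by
    intro g
    rw [hn g, ← ENNReal.rpow_mul]
    norm_num
  rw [hn f]
  calc (∫⁻ x in K, ‖f x‖ₑ ^ (2 : ℝ)) ^ (1 / (2 : ℝ))
      ≤ (C * ENNReal.ofReal (R ^ (2 : ℝ)) *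
        ∑ a, ∫⁻ x in K, ‖pd a f x‖ₑ ^ (2 : ℝ)) ^ (1 / (2 : ℝ)) :=
        ENNReal.rpow_le_rpow h3 (by norm_num)
    _ = (C * ENNReal.ofReal (R ^ (2 : ℝ))) ^ (1 / (2 : ℝ)) *
        (∑ a, ∫⁻ x in K, ‖pd a f x‖ₑ ^ (2 : ℝ)) ^ (1 / (2 : ℝ)) :=
        ENNReal.mul_rpow_of_nonneg _ _ (by norm_num)
    _ ≤ _ := by
        gcongr
        simp_rw [hn2]
        set t : Fin 4 → ℝ≥0∞ := fun a => eLpNorm (pd a f) 2 (volume.restrict K) with ht
        have h5 : ∑ a, t a ^ (2 : ℝ) ≤ (∑ a, t a) ^ (2 : ℝ) := by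
          rw [ENNReal.rpow_two, pow_two, Finset.sum_mul]
          refine Finset.sum_le_sum fun a _ => ?_
          rw [ENNReal.rpow_two, pow_two]
          gcongr
          exact Finset.single_le_sum (fun _ _ => bot_le) (Finset.mem_univ a)
        calc (∑ a, t a ^ (2 : ℝ)) ^ (1 / (2 : ℝ)) ≤ ((∑ a, t a) ^ (2 : ℝ)) ^ (1 / (2 : ℝ)) :=
              ENNReal.rpow_le_rpow h5 (by norm_num)
          _ = ∑ a, t a := by
              rw [← ENNReal.rpow_mul]
              norm_num

private theorem PoD_diff {z : R4} {R : ℝ} (hR : 0 < R) {f g : R4 → ℝ} {β γ : Fin 4 → R4 → ℝ}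
    {α : R4 → R4} {s t : ℝ} (hs : 0 ≤ s) (ht : 0 ≤ t)
    (hf : ContDiff ℝ ∞ f) (hg : ContDiff ℝ ∞ g)
    (hα : ∀ a, AEStronglyMeasurable (fun x => α x a) (volume.restrict (Metric.closedBall z R)))
    (hβ : ∀ a, ContDiff ℝ ∞ (β a)) (hγ : ∀ a, ContDiff ℝ ∞ (γ a))
    (hfβ : ∀ x ∈ Metric.ball z R, ∀ a, pd a f x = β a x)
    (hgγ : ∀ x ∈ Metric.ball z R, ∀ a, pd a g x = γ a x)
    (hb : ∀ a, eLpNorm (fun x => β a x - α x a) 2 (volume.restrict (Metric.closedBall z R)) ≤
      ENNReal.ofReal s)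
    (hc : ∀ a, eLpNorm (fun x => γ a x - α x a) 2 (volume.restrict (Metric.closedBall z R)) ≤
      ENNReal.ofReal t) (a : Fin 4) :
    eLpNorm (pd a (f - g)) 2 (volume.restrict (Metric.closedBall z R)) ≤
      ENNReal.ofReal (s + t) := by
  have hae : ∀ᵐ y ∂(volume.restrict (Metric.closedBall z R)), y ∈ Metric.ball z R := by
    rw [ae_restrict_iff' Metric.isClosed_closedBall.measurableSet]
    have h0 : volume (Metric.sphere z R) = 0 := Measure.addHaar_sphere_of_ne_zero volume z hR.ne'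
    have h1 : ∀ᵐ y ∂(volume : Measure R4), y ∉ Metric.sphere z R :=
      measure_eq_zero_iff_ae_notMem.1 h0
    filter_upwards [h1] with y hy hyc
    rw [Metric.mem_ball]
    rcases lt_or_eq_of_le (Metric.mem_closedBall.1 hyc) with h2 | h2
    · exact h2
    · exact absurd (Metric.mem_sphere.2 h2) hy
  have e1 : eLpNorm (pd a (f - g)) 2 (volume.restrict (Metric.closedBall z R))
      = eLpNorm ((fun x => β a x - α x a) - (fun x => γ a x - α x a)) 2
        (volume.restrict (Metric.closedBall z R)) := by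
    refine eLpNorm_congr_ae ?_
    filter_upwards [hae] with y hy
    have h2 : pd a (f - g) y = pd a f y - pd a g y := by
      have hdf : DifferentiableAt ℝ f y := (hf.differentiable (by simp)).differentiableAt
      have hdg : DifferentiableAt ℝ g y := (hg.differentiable (by simp)).differentiableAt
      have h3 := hdf.hasFDerivAt.sub hdg.hasFDerivAt
      have h4 : fderiv ℝ (f - g) y = fderiv ℝ f y - fderiv ℝ g y := h3.fderiv
      rw [pd, h4]
      rfl
    rw [h2, hfβ y hy, hgγ y hy]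
    simp only [Pi.sub_apply]
    ring
  rw [e1]
  refine (eLpNorm_sub_le ?_ ?_ one_le_two).trans ?_
  · exact ((hβ a).continuous.aestronglyMeasurable).sub (hα a)
  · exact ((hγ a).continuous.aestronglyMeasurable).sub (hα a)
  · rw [ENNReal.ofReal_add hs ht]
    exact add_le_add (hb a) (hc a)

theorem poincare_L2 {Ω : Set R4} (hΩ : IsOpen Ω) {z : R4} {R : ℝ} (hR : 0 < R)
    (hs : Metric.closedBall z R ⊆ Ω) {α : R4 → R4} (hα : ∀ a, LpL 2 Ω (fun x => α x a))
    (h : Curl Ω α 0) :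
    ∃ f : R4 → ℝ, MemLp f 2 (volume.restrict (Metric.closedBall z R)) ∧
      WG (Metric.ball z R) f α := by
  obtain ⟨C, hC, hP⟩ := PoD_poinc (z := z) hR
  set K := Metric.closedBall z R with hKd
  have hKc : IsCompact K := isCompact_closedBall z R
  have hVt : volume K ≠ ⊤ := hKc.measure_lt_top.ne
  have hV : volume K ≠ 0 := (Metric.measure_closedBall_pos volume z hR).ne'
  have hVr : (volume K).toReal ≠ 0 := (ENNReal.toReal_pos hV hVt).ne'
  set ε : ℕ → ℝ := fun n => (1 / 2) ^ n with hεd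
  have hε : ∀ n, 0 < ε n := fun n => by rw [hεd]; positivity
  have hexβ : ∀ n, ∃ β : Fin 4 → R4 → ℝ, (∀ a, ContDiff ℝ ∞ (β a)) ∧
      (∀ x ∈ K, ∀ a b, pd a (β b) x = pd b (β a) x) ∧
      ∀ a, eLpNorm (fun x => β a x - α x a) 2 (volume.restrict K) ≤
        ENNReal.ofReal (ε n) := fun n =>
    apxCurl hΩ hKc hs one_le_two ENNReal.ofNat_ne_top hα h (hε n)
  choose β hβ1 hβ2 hβ3 using hexβ
  have hexf : ∀ n, ∃ f : R4 → ℝ, ContDiff ℝ ∞ f ∧ ∫ y in K, f y = 0 ∧
      ∀ x ∈ Metric.ball z R, ∀ a, pd a f x = β n a x := by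
    intro n
    obtain ⟨f, hf1, _, hf3⟩ := poincare_smooth (hβ1 n) (hβ2 n)
    set c : ℝ := (volume K).toReal⁻¹ * ∫ y in K, f y with hc
    refine ⟨fun x => f x - c, hf1.sub contDiff_const, ?_, ?_⟩
    · rw [integral_sub (hf1.continuous.continuousOn.integrableOn_compact hKc)
        (integrableOn_const hVt), setIntegral_const, smul_eq_mul]
      have : volume.real K = (volume K).toReal := rfl
      rw [this, hc, ← mul_assoc, mul_inv_cancel₀ hVr, one_mul, sub_self]
    · intro x hx a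
      rw [← hf3 x hx a]
      unfold pd
      rw [fderiv_sub_const]
  choose F hF1 hF2 hF3 using hexf
  have hαm : ∀ a, AEStronglyMeasurable (fun x => α x a) (volume.restrict K) :=
    fun a => (hα a _ hs hKc).1
  have hFL : ∀ n, MemLp (F n) 2 (volume.restrict K) := fun n =>
    (LpL.of_cont (Ω := univ) isOpen_univ (hF1 n).continuous.continuousOn) K (subset_univ _) hKc
  have hcau : ∀ N n m : ℕ, N ≤ n → N ≤ m → eLpNorm (F n - F m) 2 (volume.restrict K) <
      (C * 8 + 1) * ENNReal.ofReal (ε N) := by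
    intro N n m hn hm
    have h0 : ∫ y in K, (F n - F m) y = 0 := by
      simp only [Pi.sub_apply]
      rw [integral_sub ((hF1 n).continuous.continuousOn.integrableOn_compact hKc)
        ((hF1 m).continuous.continuousOn.integrableOn_compact hKc), hF2, hF2, sub_zero]
    have h1 := hP (F n - F m) (((hF1 n).sub (hF1 m)).of_le (by exact_mod_cast le_top)) h0
    have h2 : ∀ a, eLpNorm (pd a (F n - F m)) 2 (volume.restrict K) ≤
        2 * ENNReal.ofReal (ε N) := by
      intro a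
      refine (PoD_diff hR (hε n).le (hε m).le (hF1 n) (hF1 m) hαm (hβ1 n) (hβ1 m) (hF3 n)
        (hF3 m) (hβ3 n) (hβ3 m) a).trans ?_
      rw [show (2 : ℝ≥0∞) = ENNReal.ofReal 2 by norm_num, ← ENNReal.ofReal_mul (by norm_num)]
      refine ENNReal.ofReal_le_ofReal ?_
      have k1 : ε n ≤ ε N := pow_le_pow_of_le_one (by norm_num) (by norm_num) hn
      have k2 : ε m ≤ ε N := pow_le_pow_of_le_one (by norm_num) (by norm_num) hm
      linarith
    have h3 : eLpNorm (F n - F m) 2 (volume.restrict K) ≤ C * 8 * ENNReal.ofReal (ε N) := by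
      refine h1.trans ?_
      calc C * ∑ a, eLpNorm (pd a (F n - F m)) 2 (volume.restrict K)
          ≤ C * ∑ _a : Fin 4, 2 * ENNReal.ofReal (ε N) := by
            gcongr with a
            exact h2 a
        _ = C * 8 * ENNReal.ofReal (ε N) := by
            rw [Finset.sum_const, Finset.card_univ, Fintype.card_fin, nsmul_eq_mul]
            push_cast
            ring
    refine h3.trans_lt ?_
    rw [add_mul, one_mul]
    refine ENNReal.lt_add_right (ENNReal.mul_ne_top (ENNReal.mul_ne_top hC (by norm_num))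
      ENNReal.ofReal_ne_top) ?_
    exact (ENNReal.ofReal_pos.2 (hε N)).ne'
  have hsum : ∑' N, (C * 8 + 1) * ENNReal.ofReal (ε N) ≠ ⊤ := by
    rw [ENNReal.tsum_mul_left]
    refine ENNReal.mul_ne_top (ENNReal.add_ne_top.2 ⟨ENNReal.mul_ne_top hC (by norm_num),
      ENNReal.one_ne_top⟩) ?_
    exact (summable_geometric_two).tsum_ofReal_ne_top
  obtain ⟨f, hf1, hf2⟩ := Lp.cauchy_complete_eLpNorm one_le_two hFL hsum hcau
  refine ⟨f, hf1, ?_⟩
  intro ψ hψ a
  have hballK : Metric.ball z R ⊆ K := Metric.ball_subset_closedBall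
  have hψ0 : ∀ x ∉ Metric.ball z R, ψ x = 0 := fun x hx =>
    image_eq_zero_of_notMem_tsupport fun h => hx (hψ.supp h)
  have hψd0 : ∀ x ∉ Metric.ball z R, pd a ψ x = 0 := fun x hx =>
    pd_eq_zero a fun h => hx (hψ.supp h)
  have cψ : Continuous ψ := hψ.smooth.continuous
  have cdψ : Continuous (pd a ψ) := (pd_smooth a hψ.smooth).continuous
  have k1 : ∀ g : R4 → ℝ, ∫ x, g x * pd a ψ x = ∫ x in K, pd a ψ x * g x := by
    intro g
    rw [← setIntegral_eq_integral_of_forall_compl_eq_zero (s := K)]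
    · refine integral_congr_ae (Eventually.of_forall fun x => ?_)
      simp only
      ring
    · intro x hx
      rw [hψd0 x fun h => hx (hballK h), mul_zero]
  have k2 : ∀ g : R4 → ℝ, ∫ x, g x * ψ x = ∫ x in K, ψ x * g x := by
    intro g
    rw [← setIntegral_eq_integral_of_forall_compl_eq_zero (s := K)]
    · refine integral_congr_ae (Eventually.of_forall fun x => ?_)
      simp only
      ring
    · intro x hx
      rw [hψ0 x fun h => hx (hballK h), mul_zero]
  have hid : ∀ n, (∫ x in K, pd a ψ x * F n x) + ∫ x in K, ψ x * β n a x = 0 := by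
    intro n
    have h1 := WG.of_smooth (Ω := Metric.ball z R) (hF1 n) ψ hψ a
    rw [k1 (F n), k2 (fun x => pd a (F n) x)] at h1
    have h2 : ∫ x in K, ψ x * pd a (F n) x = ∫ x in K, ψ x * β n a x := by
      refine integral_congr_ae (Eventually.of_forall fun x => ?_)
      by_cases hx : x ∈ Metric.ball z R
      · simp only [hF3 n x hx]
      · simp only [hψ0 x hx, zero_mul]
    rw [← h2]
    linarith
  have M1 : MemLp (pd a ψ) 2 (volume.restrict K) :=
    (LpL.of_cont (Ω := univ) isOpen_univ cdψ.continuousOn) K (subset_univ _) hKc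
  have M2 : MemLp ψ 2 (volume.restrict K) :=
    (LpL.of_cont (Ω := univ) isOpen_univ cψ.continuousOn) K (subset_univ _) hKc
  have Mα : MemLp (fun x => α x a) 2 (volume.restrict K) := hα a K hs hKc
  have Mβ : ∀ n, MemLp (β n a) 2 (volume.restrict K) := fun n =>
    (LpL.of_cont (Ω := univ) isOpen_univ (hβ1 n a).continuous.continuousOn) K (subset_univ _) hKc
  have iprod : ∀ {P Q : R4 → ℝ}, MemLp P 2 (volume.restrict K) → MemLp Q 2 (volume.restrict K) →
      Integrable (fun x => P x * Q x) (volume.restrict K) := fun hP hQ =>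
    MemLp.integrable_mul hP hQ
  have hzero : (∫ x in K, pd a ψ x * f x) + ∫ x in K, ψ x * α x a = 0 := by
    apply dwd_zero (C := (eLpNorm (pd a ψ) 2 (volume.restrict K)).toReal +
      (eLpNorm ψ 2 (volume.restrict K)).toReal) (by positivity)
    intro η hη
    have e1 : ∀ᶠ n in atTop, eLpNorm (F n - f) 2 (volume.restrict K) ≤ ENNReal.ofReal η :=
      (hf2.eventually (gt_mem_nhds (ENNReal.ofReal_pos.2 hη))).mono fun n hn => hn.le
    have e2 : ∀ᶠ n in atTop, ε n ≤ η := by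
      have := tendsto_pow_atTop_nhds_zero_of_lt_one (r := (1 / 2 : ℝ)) (by norm_num) (by norm_num)
      exact (this.eventually (gt_mem_nhds hη)).mono fun n hn => hn.le
    obtain ⟨n, hn1, hn2⟩ := (e1.and e2).exists
    have q1 : MemLp (fun x => F n x - f x) 2 (volume.restrict K) := (hFL n).sub hf1
    have q2 : MemLp (fun x => β n a x - α x a) 2 (volume.restrict K) := (Mβ n).sub Mα
    have b1 := dwd_cs M1 q1 hη.le hn1
    have b2 := dwd_cs M2 q2 hη.le ((hβ3 n a).trans (ENNReal.ofReal_le_ofReal hn2))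
    have c1 : ∫ x in K, pd a ψ x * (F n x - f x) =
        (∫ x in K, pd a ψ x * F n x) - ∫ x in K, pd a ψ x * f x := by
      rw [← integral_sub (iprod M1 (hFL n)) (iprod M1 hf1)]
      refine integral_congr_ae (Eventually.of_forall fun x => ?_)
      simp only
      ring
    have c2 : ∫ x in K, ψ x * (β n a x - α x a) =
        (∫ x in K, ψ x * β n a x) - ∫ x in K, ψ x * α x a := by
      rw [← integral_sub (iprod M2 (Mβ n)) (iprod M2 Mα)]
      refine integral_congr_ae (Eventually.of_forall fun x => ?_)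
      simp only
      ring
    have key : (∫ x in K, pd a ψ x * f x) + ∫ x in K, ψ x * α x a =
        -((∫ x in K, pd a ψ x * (F n x - f x)) + ∫ x in K, ψ x * (β n a x - α x a)) := by
      rw [c1, c2]
      have := hid n
      linarith
    rw [key, abs_neg, add_mul]
    exact (abs_add_le _ _).trans (add_le_add b1 b2)
  rw [k1 f, k2 (fun x => α x a)]
  linarith

end Pool.Agent.SYD
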