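import Pool.Agent.SYH.Bas
import Pool.Agent.SYH.Mor

/-!
# SYD/Poi: the Poincare inequality for smooth functions on balls (any exponent `q ≥ 1`)

`B = closedBall z r` (sup norm; convex).  For `x, y ∈ B`: `f x - f y = ∫_0^1 Σ_a (x_a - y_a) ∂_a f (y + t (x - y)) dt`,
`|x_a - y_a| ≤ 2 r`, so (Jensen, and `(Σ_{a ≤ 4} s_a)^q ≤ 4^{q-1} Σ s_a^q`)
`|f x - f y|^q ≤ (2 r)^q 4^{q-1} Σ_a ∫_0^1 |∂_a f (y + t (x - y))|^q dt`.  Integrate over `B × B`.  For `t ∈ [1/2, 1]` and fixed
`y`, the map `x ↦ y + t (x - y)` maps `B` into `B` with Jacobian `t^4 ≥ 1/16`, so the inner integral is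
`≤ 16 ∫_B |∂_a f|^q`; for `t ≤ 1/2` exchange the roles of `x` and `y`.  Altogether
`∫_B ∫_B |f x - f y|^q ≤ (2 r)^q 4^{q-1} 16 vol(B) Σ_a ∫_B |∂_a f|^q`.  (`lintegral_lintegral_swap`, and
`Measure.addHaar_image_homothety` / `lintegral_comp_smul` / `integral_image..` for the change of variables.)
-/

open MeasureTheory Set Filter Topology
open scoped ContDiff Matrix ENNReal

namespace Pool.Agent.SYD

open Pool.Agent.SYH

/-- Jensen on the unit interval -/
private theorem Poi_jensen {q : ℝ} (hq : 1 ≤ q) {h : ℝ → ℝ≥0∞} (hh : Measurable h) :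
    (∫⁻ s in Ioo (0 : ℝ) 1, h s) ^ q ≤ ∫⁻ s in Ioo (0 : ℝ) 1, h s ^ q := by
  have hq0 : 0 < q := by linarith
  have : IsProbabilityMeasure (volume.restrict (Ioo (0 : ℝ) 1)) := ⟨by simp⟩
  have h1 := eLpNorm'_le_eLpNorm'_of_exponent_le (p := 1) (q := q) one_pos hq
    (volume.restrict (Ioo (0 : ℝ) 1)) (f := h) hh.aestronglyMeasurable
  simp only [eLpNorm', ENNReal.rpow_one, enorm_eq_self, div_one] at h1
  calc (∫⁻ s in Ioo (0 : ℝ) 1, h s) ^ q
      ≤ ((∫⁻ s in Ioo (0 : ℝ) 1, h s ^ q) ^ (1 / q)) ^ q := ENNReal.rpow_le_rpow h1 hq0.le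
    _ = ∫⁻ s in Ioo (0 : ℝ) 1, h s ^ q := by
        rw [← ENNReal.rpow_mul, one_div_mul_cancel hq0.ne', ENNReal.rpow_one]

/-- change of variables -/
private theorem Poi_hom {G : R4 → ℝ≥0∞} (hG : Measurable G) {z x : R4} {r s : ℝ} (hs : 1 / 2 ≤ s)
    (hs1 : s ≤ 1) (hx : x ∈ Metric.closedBall z r) :
    ∫⁻ w in Metric.closedBall z r, G (x + s • (w - x)) ≤
      16 * ∫⁻ w in Metric.closedBall z r, G w := by
  have hs0 : 0 < s := by linarith
  set B := Metric.closedBall z r with hB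
  set T : R4 → R4 := fun w => x + s • (w - x) with hT
  have hTc : Continuous T := by rw [hT]; fun_prop
  have hTm : Measurable T := hTc.measurable
  have hBm : MeasurableSet B := Metric.isClosed_closedBall.measurableSet
  have hsub : B ⊆ T ⁻¹' B := by
    intro w hw
    have := convex_closedBall z r hx hw (by linarith : (0 : ℝ) ≤ 1 - s) hs0.le (by ring)
    have e : (1 - s) • x + s • w = T w := by
      rw [hT]; ext i; simp; ring
    rw [e] at this
    exact this
  calc ∫⁻ w in B, G (T w) ≤ ∫⁻ w in T ⁻¹' B, G (T w) := lintegral_mono_set hsub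
    _ = ∫⁻ w in B, G w ∂(Measure.map T volume) := by
        rw [setLIntegral_map hBm hG hTm]
    _ = ENNReal.ofReal ((s ^ 4)⁻¹) * ∫⁻ w in B, G w := by
        rw [Mor.map_T x hs0, Measure.restrict_smul, lintegral_smul_measure, smul_eq_mul]
    _ ≤ 16 * ∫⁻ w in B, G w := by
        gcongr
        have h1 : (s ^ 4)⁻¹ ≤ 16 := by
          rw [inv_le_comm₀ (by positivity) (by norm_num)]
          calc (16 : ℝ)⁻¹ = (1 / 2) ^ 4 := by norm_num
            _ ≤ s ^ 4 := by gcongr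
        calc ENNReal.ofReal ((s ^ 4)⁻¹) ≤ ENNReal.ofReal 16 := ENNReal.ofReal_le_ofReal h1
          _ = 16 := by norm_num

private theorem Poi_swap {G : R4 → ℝ≥0∞} (hG : Continuous G) (z : R4) (r : ℝ) :
    ∫⁻ x in Metric.closedBall z r, ∫⁻ y in Metric.closedBall z r,
      ∫⁻ s in Ioo (0 : ℝ) 1, G (x + s • (y - x)) ≤
      16 * volume (Metric.closedBall z r) * ∫⁻ w in Metric.closedBall z r, G w := by
  set B := Metric.closedBall z r with hB
  have hBm : MeasurableSet B := Metric.isClosed_closedBall.measurableSet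
  have c1 : Continuous (fun p : (R4 × R4) × ℝ => G (p.1.1 + p.2 • (p.1.2 - p.1.1))) :=
    hG.comp (by fun_prop)
  have e1 : ∀ x : R4, ∫⁻ y in B, ∫⁻ s in Ioo (0 : ℝ) 1, G (x + s • (y - x)) =
      ∫⁻ s in Ioo (0 : ℝ) 1, ∫⁻ y in B, G (x + s • (y - x)) := by
    intro x
    refine lintegral_lintegral_swap ?_
    exact (hG.comp (by fun_prop : Continuous fun p : R4 × ℝ =>
      x + p.2 • (p.1 - x))).measurable.aemeasurable
  simp_rw [e1]
  have e2 : ∫⁻ x in B, ∫⁻ s in Ioo (0 : ℝ) 1, ∫⁻ y in B, G (x + s • (y - x)) =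
      ∫⁻ s in Ioo (0 : ℝ) 1, ∫⁻ x in B, ∫⁻ y in B, G (x + s • (y - x)) := by
    refine lintegral_lintegral_swap ?_
    have c2 : Continuous (fun p : (R4 × ℝ) × R4 => G (p.1.1 + p.1.2 • (p.2 - p.1.1))) :=
      hG.comp (by fun_prop)
    exact (c2.measurable.lintegral_prod_right' (ν := volume.restrict B)).aemeasurable
  rw [e2]
  have e3 : ∀ s ∈ Ioo (0 : ℝ) 1, ∫⁻ x in B, ∫⁻ y in B, G (x + s • (y - x)) ≤
      16 * volume B * ∫⁻ w in B, G w := by
    intro s hs
    rcases le_total (1 / 2) s with h | h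
    · calc ∫⁻ x in B, ∫⁻ y in B, G (x + s • (y - x))
          ≤ ∫⁻ x in B, (16 * ∫⁻ w in B, G w) :=
            setLIntegral_mono' hBm fun x hx => Poi_hom hG.measurable h hs.2.le hx
        _ = 16 * volume B * ∫⁻ w in B, G w := by
            rw [setLIntegral_const]
            ring
    · have e4 : ∫⁻ x in B, ∫⁻ y in B, G (x + s • (y - x)) =
          ∫⁻ y in B, ∫⁻ x in B, G (x + s • (y - x)) := by
        refine lintegral_lintegral_swap ?_
        exact (hG.comp (by fun_prop : Continuous fun p : R4 × R4 =>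
          p.1 + s • (p.2 - p.1))).measurable.aemeasurable
      rw [e4]
      calc ∫⁻ y in B, ∫⁻ x in B, G (x + s • (y - x))
          ≤ ∫⁻ y in B, (16 * ∫⁻ w in B, G w) := by
            refine setLIntegral_mono' hBm fun y hy => ?_
            have e5 : ∀ x, x + s • (y - x) = y + (1 - s) • (x - y) := by
              intro x
              ext i
              simp
              ring
            simp_rw [e5]
            exact Poi_hom hG.measurable (by linarith) (by linarith [hs.1]) hy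
        _ = 16 * volume B * ∫⁻ w in B, G w := by
            rw [setLIntegral_const]
            ring
  calc ∫⁻ s in Ioo (0 : ℝ) 1, ∫⁻ x in B, ∫⁻ y in B, G (x + s • (y - x))
      ≤ ∫⁻ s in Ioo (0 : ℝ) 1, (16 * volume B * ∫⁻ w in B, G w) :=
        setLIntegral_mono' measurableSet_Ioo e3
    _ = 16 * volume B * ∫⁻ w in B, G w := by
        rw [setLIntegral_const]
        simp

theorem poinc {q : ℝ} (hq : 1 ≤ q) : ∃ C : ℝ≥0∞, C ≠ ⊤ ∧ ∀ (f : R4 → ℝ) (z : R4) (r : ℝ),
    ContDiff ℝ 1 f → 0 < r →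
    ∫⁻ x in Metric.closedBall z r, ∫⁻ y in Metric.closedBall z r, ‖f x - f y‖ₑ ^ q ≤
      C * ENNReal.ofReal (r ^ q) * volume (Metric.closedBall z r) *
        ∑ a, ∫⁻ x in Metric.closedBall z r, ‖pd a f x‖ₑ ^ q := by
  have hq0 : 0 < q := by linarith
  refine ⟨ENNReal.ofReal (2 ^ q) * (4 : ℝ≥0∞) ^ (q - 1) * 16, ?_, fun f z r hf hr => ?_⟩
  · refine ENNReal.mul_ne_top (ENNReal.mul_ne_top ENNReal.ofReal_ne_top ?_) (by norm_num)
    exact ENNReal.rpow_ne_top_of_nonneg (by linarith) (by norm_num)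
  set B := Metric.closedBall z r with hB
  have hBm : MeasurableSet B := Metric.isClosed_closedBall.measurableSet
  set F : Fin 4 → R4 → ℝ≥0∞ := fun a x => ‖pd a f x‖ₑ ^ q with hF
  have hFc : ∀ a, Continuous (F a) := by
    intro a
    have h1 : Continuous (fun x => ‖pd a f x‖ₑ) := (Mor.cont_pd hf a).enorm
    exact (ENNReal.continuous_rpow_const).comp h1
  set K1 : ℝ≥0∞ := ENNReal.ofReal (2 * r) ^ q * (4 : ℝ≥0∞) ^ (q - 1) with hK1
  have step : ∀ x ∈ B, ∀ y ∈ B, ‖f x - f y‖ₑ ^ q ≤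
      K1 * ∑ a, ∫⁻ s in Ioo (0 : ℝ) 1, F a (x + s • (y - x)) := by
    intro x hx y hy
    have h1 : ‖f x - f y‖ₑ ≤ ∫⁻ s in Ioo (0 : ℝ) 1, ENNReal.ofReal (2 * r) *
        ∑ a, ‖pd a f (x + s • (y - x))‖ₑ := by
      rw [Real.enorm_eq_ofReal_abs, abs_sub_comm]
      exact Mor.ftc2 hf hr hx hy
    have hm : Measurable (fun s : ℝ => ENNReal.ofReal (2 * r) *
        ∑ a, ‖pd a f (x + s • (y - x))‖ₑ) := by
      refine Measurable.const_mul ?_ _
      refine Finset.measurable_sum _ fun a _ => ?_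
      exact ((Mor.cont_pd hf a).comp (by fun_prop : Continuous fun s : ℝ =>
        x + s • (y - x))).enorm.measurable
    calc ‖f x - f y‖ₑ ^ q ≤ (∫⁻ s in Ioo (0 : ℝ) 1, ENNReal.ofReal (2 * r) *
          ∑ a, ‖pd a f (x + s • (y - x))‖ₑ) ^ q := ENNReal.rpow_le_rpow h1 hq0.le
      _ ≤ ∫⁻ s in Ioo (0 : ℝ) 1, (ENNReal.ofReal (2 * r) *
          ∑ a, ‖pd a f (x + s • (y - x))‖ₑ) ^ q := Poi_jensen hq hm
      _ ≤ ∫⁻ s in Ioo (0 : ℝ) 1, K1 * ∑ a, F a (x + s • (y - x)) := by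
          refine lintegral_mono fun s => ?_
          rw [ENNReal.mul_rpow_of_nonneg _ _ hq0.le, hK1, mul_assoc]
          gcongr
          have h2 := ENNReal.rpow_sum_le_const_mul_sum_rpow (Finset.univ : Finset (Fin 4))
            (fun a => ‖pd a f (x + s • (y - x))‖ₑ) hq
          simpa using h2
      _ = K1 * ∑ a, ∫⁻ s in Ioo (0 : ℝ) 1, F a (x + s • (y - x)) := by
          rw [lintegral_const_mul, lintegral_finsetSum]
          · intro a _
            exact ((hFc a).comp (by fun_prop : Continuous fun s : ℝ => x + s • (y - x))).measurable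
          · refine Finset.measurable_sum _ fun a _ => ?_
            exact ((hFc a).comp (by fun_prop : Continuous fun s : ℝ => x + s • (y - x))).measurable
  have m1 : ∀ a, Measurable (fun p : R4 × R4 => ∫⁻ s in Ioo (0 : ℝ) 1,
      F a (p.1 + s • (p.2 - p.1))) := by
    intro a
    have c2 : Continuous (fun p : (R4 × R4) × ℝ => F a (p.1.1 + p.2 • (p.1.2 - p.1.1))) :=
      (hFc a).comp (by fun_prop)
    exact c2.measurable.lintegral_prod_right' (ν := volume.restrict (Ioo (0 : ℝ) 1))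
  have m2 : ∀ a x, Measurable (fun y : R4 => ∫⁻ s in Ioo (0 : ℝ) 1, F a (x + s • (y - x))) :=
    fun a x => (m1 a).comp measurable_prodMk_left
  have m3 : ∀ a, Measurable (fun x : R4 => ∫⁻ y in B, ∫⁻ s in Ioo (0 : ℝ) 1,
      F a (x + s • (y - x))) := fun a =>
    (m1 a).lintegral_prod_right' (ν := volume.restrict B)
  calc ∫⁻ x in B, ∫⁻ y in B, ‖f x - f y‖ₑ ^ q
      ≤ ∫⁻ x in B, ∫⁻ y in B, K1 * ∑ a, ∫⁻ s in Ioo (0 : ℝ) 1, F a (x + s • (y - x)) :=
        setLIntegral_mono' hBm fun x hx => setLIntegral_mono' hBm fun y hy => step x hx y hy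
    _ = K1 * ∑ a, ∫⁻ x in B, ∫⁻ y in B, ∫⁻ s in Ioo (0 : ℝ) 1, F a (x + s • (y - x)) := by
        have e1 : ∀ x, ∫⁻ y in B, K1 * ∑ a, ∫⁻ s in Ioo (0 : ℝ) 1, F a (x + s • (y - x)) =
            K1 * ∑ a, ∫⁻ y in B, ∫⁻ s in Ioo (0 : ℝ) 1, F a (x + s • (y - x)) := by
          intro x
          rw [lintegral_const_mul, lintegral_finsetSum]
          · exact fun a _ => m2 a x
          · exact Finset.measurable_sum _ fun a _ => m2 a x
        simp_rw [e1]
        rw [lintegral_const_mul, lintegral_finsetSum]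
        · exact fun a _ => m3 a
        · exact Finset.measurable_sum _ fun a _ => m3 a
    _ ≤ K1 * ∑ a, 16 * volume B * ∫⁻ w in B, F a w := by
        gcongr with a
        exact Poi_swap (hFc a) z r
    _ = _ := by
        rw [← Finset.mul_sum, hK1, ENNReal.ofReal_mul (by norm_num : (0 : ℝ) ≤ 2),
          ENNReal.mul_rpow_of_nonneg _ _ hq0.le, ENNReal.ofReal_rpow_of_pos (by norm_num),
          ENNReal.ofReal_rpow_of_pos hr]
        ring

end Pool.Agent.SYD
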