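import Pool.Agent.SYH.ChW
import Pool.Agent.SYH.WGu

/-!
# SYD/SgB: atlases with transition maps with `φ^* ω₀ = ± ω₀`; elementary facts (same proofs as `SYH/SgB`, `p = 2`)

`D_open`: `OpenPartialHomeomorph.isOpen_inter_preimage_symm`.
`tr_source : (tr i j).source = D i (x j).source`; `tr i j y = x j ((x i).symm y)`;
`D_tr`: `D i (V ∩ (x j).source) = (tr i j).source ∩ tr i j ⁻¹' (D j (V ∩ (x i).source))` (for `y ∈ D i (x j).source` and
`m = (x i).symm y`: `tr i j y = x j m`, `(x j).symm (tr i j y) = m`).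
`cocycle`: apply `chW` to `e = tr i j`, `Ω' = D j ((x i).source ∩ (x k).source)`, `f = (tr j k)_b`, `g = G j k · b`:
`(tr j k)_b ∘ tr i j = (tr i k)_b` on `D i ((x j).source ∩ (x k).source)`; compare with `G i k` (`WG.unique`).
`ae_tr`: `ae_comp` for `e = tr i j`.
-/

open MeasureTheory Set Filter Topology
open scoped ContDiff Matrix ENNReal

namespace Pool.Agent.SYD

open Pool.Agent.SYH

/-- an atlas with Sobolev transition maps with `φ^* ω₀ = ± ω₀` -/
structure AtPM (M : Type*) [TopologicalSpace M] (ι : Type*) where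
  x : ι → OpenPartialHomeomorph M R4
  G : ι → ι → R4 → Matrix (Fin 4) (Fin 4) ℝ
  cov : ∀ m, ∃ i, m ∈ (x i).source
  wd : ∀ i j, IsWD 2 ((x i).symm.trans (x j)).source ((x i).symm.trans (x j)) (G i j)
  sy : ∀ i j, ∀ᵐ y, y ∈ ((x i).symm.trans (x j)).source →
    (G i j y)ᵀ * J * G i j y = J ∨ (G i j y)ᵀ * J * G i j y = -J
  mp : ∀ i j, MPre ((x i).symm.trans (x j))

namespace AtPM

variable {M : Type*} [TopologicalSpace M] {ι : Type*} (A : AtPM M ι)

/-- the transition map from chart `i` to chart `j` -/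
noncomputable def tr (i j : ι) : OpenPartialHomeomorph R4 R4 := (A.x i).symm.trans (A.x j)

/-- the set `V` in the chart `i` -/
def D (i : ι) (V : Set M) : Set R4 := (A.x i).target ∩ (A.x i).symm ⁻¹' V

theorem mem_D {i : ι} {V : Set M} {y : R4} :
    y ∈ A.D i V ↔ y ∈ (A.x i).target ∧ (A.x i).symm y ∈ V := by
  exact Iff.rfl

theorem D_open (i : ι) {V : Set M} (hV : IsOpen V) : IsOpen (A.D i V) := by
  exact (A.x i).isOpen_inter_preimage_symm hV

theorem D_mono (i : ι) {V W : Set M} (h : V ⊆ W) : A.D i V ⊆ A.D i W := by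
  exact fun y hy => ⟨hy.1, h hy.2⟩

theorem D_inter (i : ι) (V W : Set M) : A.D i (V ∩ W) = A.D i V ∩ A.D i W := by
  ext y
  simp only [D, mem_inter_iff, mem_preimage]
  tauto

theorem x_mem_D {i : ι} {V : Set M} {m : M} (h : m ∈ (A.x i).source) (h' : m ∈ V) :
    A.x i m ∈ A.D i V := by
  refine ⟨(A.x i).map_source h, ?_⟩
  rw [mem_preimage, (A.x i).left_inv h]
  exact h'

theorem tr_source (i j : ι) : (A.tr i j).source = A.D i (A.x j).source := by
  rw [tr, OpenPartialHomeomorph.trans_source, OpenPartialHomeomorph.symm_source]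
  rfl

theorem tr_target (i j : ι) : (A.tr i j).target = A.D j (A.x i).source := by
  rw [tr, OpenPartialHomeomorph.trans_target, OpenPartialHomeomorph.symm_target]
  rfl

theorem tr_apply (i j : ι) (y : R4) : A.tr i j y = A.x j ((A.x i).symm y) := by
  rfl

theorem symm_tr {i j : ι} {y : R4} (h : y ∈ A.D i (A.x j).source) :
    (A.x j).symm (A.tr i j y) = (A.x i).symm y := by
  rw [tr_apply, (A.x j).left_inv h.2]

theorem D_tr (i j : ι) (V : Set M) :
    A.D i (V ∩ (A.x j).source) = (A.tr i j).source ∩ A.tr i j ⁻¹' (A.D j (V ∩ (A.x i).source)) := by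
  ext y
  rw [tr_source]
  simp only [mem_inter_iff, mem_preimage]
  constructor
  · intro h
    have h1 : y ∈ A.D i (A.x j).source := ⟨h.1, h.2.2⟩
    refine ⟨h1, ?_, ?_⟩
    · rw [tr_apply]
      exact (A.x j).map_source h.2.2
    · rw [mem_preimage, A.symm_tr h1]
      exact ⟨h.2.1, (A.x i).map_target h.1⟩
  · rintro ⟨h1, h2⟩
    have h3 := h2.2
    rw [mem_preimage, A.symm_tr h1] at h3
    exact ⟨h1.1, h3.1, h1.2⟩

theorem mpre (i j : ι) : MPre (A.tr i j) := by
  exact A.mp i j

theorem isWD_two (i j : ι) : IsWD 2 (A.D i (A.x j).source) (A.tr i j) (A.G i j) := by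
  have h := A.wd i j
  have hs : ((A.x i).symm.trans (A.x j)).source = A.D i (A.x j).source := A.tr_source i j
  rw [hs] at h
  exact h

theorem ae_tr {i j : ι} {P : R4 → Prop} (h : ∀ᵐ x, x ∈ A.D j (A.x i).source → P x) :
    ∀ᵐ y, y ∈ A.D i (A.x j).source → P (A.tr i j y) := by
  have h' : ∀ᵐ x, x ∈ (A.tr i j).target → P x := by
    rw [tr_target]
    exact h
  have := ae_comp (A.mpre i j) h'
  rwa [tr_source] at this

theorem cocycle (i j k : ι) : ∀ᵐ y, y ∈ A.D i ((A.x j).source ∩ (A.x k).source) →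
    A.G i k y = A.G j k (A.tr i j y) * A.G i j y := by
  set Ω' := A.D j ((A.x i).source ∩ (A.x k).source) with hΩ'
  have hO : IsOpen Ω' := A.D_open j ((A.x i).open_source.inter (A.x k).open_source)
  have hst : Ω' ⊆ (A.tr i j).target := by
    rw [tr_target]
    exact A.D_mono j inter_subset_left
  have hsk : Ω' ⊆ A.D j (A.x k).source := A.D_mono j inter_subset_right
  have hdom : (A.tr i j).source ∩ A.tr i j ⁻¹' Ω' = A.D i ((A.x j).source ∩ (A.x k).source) := by
    have h := A.D_tr i j (A.x k).source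
    rw [inter_comm (A.x k).source, inter_comm (A.x k).source] at h
    rw [h]
  have hOi : IsOpen (A.D i ((A.x j).source ∩ (A.x k).source)) :=
    A.D_open i ((A.x j).open_source.inter (A.x k).open_source)
  have hij := A.isWD_two i j
  have hjk := A.isWD_two j k
  have hik := A.isWD_two i k
  have hsub : A.D i ((A.x j).source ∩ (A.x k).source) ⊆ A.D i (A.x k).source :=
    A.D_mono i inter_subset_right
  have hsub' : A.D i ((A.x j).source ∩ (A.x k).source) ⊆ A.D i (A.x j).source :=
    A.D_mono i inter_subset_left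
  have hcont : ∀ b, ContinuousOn (fun x => A.tr j k x b) Ω' := by
    intro b
    have h1 : ContinuousOn (A.tr j k) (A.D j (A.x k).source) := by
      rw [← tr_source]
      exact (A.tr j k).continuousOn
    exact ((continuous_apply b).comp_continuousOn h1).mono hsk
  have key : ∀ b, ∀ᵐ y, y ∈ A.D i ((A.x j).source ∩ (A.x k).source) →
      (A.G i j y)ᵀ *ᵥ A.G j k (A.tr i j y) b = A.G i k y b := by
    intro b
    have hG : IsWD 2 (A.tr i j).source (A.tr i j) (A.G i j) := by
      rw [tr_source]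
      exact hij
    have hw := chW (A.mpre i j) hG hO hst (hcont b) (fun a => (hjk.lp b a).mono hsk)
      ((hjk.wg b).mono hsk)
    have hl : ∀ a, LpL 1 (A.D i ((A.x j).source ∩ (A.x k).source))
        (fun y => ((A.G i j y)ᵀ *ᵥ A.G j k (A.tr i j y) b) a) := by
      intro a
      have : (fun y => ((A.G i j y)ᵀ *ᵥ A.G j k (A.tr i j y) b) a) =
          fun y => ∑ c, A.G i j y c a * A.G j k (A.tr i j y) b c := by
        funext y
        rfl
      rw [this]
      refine LpL.sum _ fun c _ => LpL.mul ((hij.lp c a).mono hsub') ?_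
      have h3 := LpL.comp (A.mpre i j) hst ((hjk.lp b c).mono hsk)
      rwa [hdom] at h3
    rw [hdom] at hw
    refine WG.unique hOi (fun a => ((hik.lp b a).exp (by norm_num)).mono hsub) hl
      ((hik.wg b).mono hsub) (hw.congr ?_ (Eventually.of_forall fun _ _ => rfl))
    intro x hx
    show A.tr i k x b = A.tr j k (A.tr i j x) b
    rw [A.tr_apply j k, A.symm_tr (hsub' hx)]
    rfl
  filter_upwards [key 0, key 1, key 2, key 3] with y h0 h1 h2 h3 hy
  ext b a
  have h : (A.G i j y)ᵀ *ᵥ A.G j k (A.tr i j y) b = A.G i k y b := by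
    fin_cases b
    · exact h0 hy
    · exact h1 hy
    · exact h2 hy
    · exact h3 hy
  rw [← congrFun h a, Matrix.mul_apply]
  simp only [Matrix.mulVec, dotProduct, Matrix.transpose_apply]
  exact Finset.sum_congr rfl fun c _ => mul_comm _ _

end AtPM

end Pool.Agent.SYD
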