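import Pool.Agent.SYD.SgB
import Pool.Agent.SYH.SgL
import Pool.Agent.SYH.SgT

/-!
# SYD/SgS (as SYH/SgS): the signs of the transition maps form a sign system

`Sg i j s m`: near `m` the transition map `tr i j` has sign `s`.
`exists_sg`: `sgn_loc` for `φ = tr i j`, `Ω = D i (x j).source` at the point `x i m`: a ball `B ⊆ Ω`; `N = (x i).source ∩
x i ⁻¹' B` (open); `D i (N ∩ (x j).source) ⊆ B`.
`Sg.unique`: on the nonempty open set `D i (N ∩ N' ∩ (x i).source ∩ (x j).source)` (contains `x i m`; positive measure) both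
equations hold a.e., so `s • J = s' • J`, `s = s'` (`J 0 1 = 1`).
`sgn_spec`: one of the signs `1`, `-1` works (`Int.units_eq_one_or`).
`Sg.near`: the same `N` works for `m' ∈ N`.
`sys`: `loc`: `Sg.near` + `Sg.unique` (for `m'` close to `m`, in `N` and in both sources).
`coc`: near `m`: `s_{ik} J = G_{ik}ᵀ J G_{ik} = G_{ij}ᵀ (G_{jk}(tr)ᵀ J G_{jk}(tr)) G_{ij} = s_{jk} s_{ij} J` a.e. on the nonempty open set
`D i (N₁ ∩ N₂ ∩ N₃ ∩ sources)` (`cocycle`, `ae_tr` for the second factor).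
-/

open MeasureTheory Set Filter Topology
open scoped ContDiff Matrix ENNReal

namespace Pool.Agent.SYD

open Pool.Agent.SYH

namespace AtPM

variable {M : Type*} [TopologicalSpace M] {ι : Type*} (A : AtPM M ι)

/-- the transition map from `i` to `j` has sign `s` near `m` -/
def Sg (i j : ι) (s : ℤˣ) (m : M) : Prop :=
  ∃ N, IsOpen N ∧ m ∈ N ∧ ∀ᵐ y, y ∈ A.D i (N ∩ (A.x j).source) →
    (A.G i j y)ᵀ * J * A.G i j y = ((s : ℤ) : ℝ) • J

open Classical in
/-- the sign of the transition map from `i` to `j` at `m` -/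
noncomputable def sgn (i j : ι) (m : M) : ℤˣ := if A.Sg i j 1 m then 1 else -1

variable {A} {i j k : ι} {m : M} {s s' : ℤˣ}

theorem exists_sg (hi : m ∈ (A.x i).source) (hj : m ∈ (A.x j).source) : ∃ s, A.Sg i j s m := by
  have hc : ContinuousOn (A.tr i j) (A.D i (A.x j).source) := by
    rw [← tr_source]
    exact (A.tr i j).continuousOn
  have hs : ∀ᵐ x, x ∈ A.D i (A.x j).source →
      (A.G i j x)ᵀ * J * A.G i j x = J ∨ (A.G i j x)ᵀ * J * A.G i j x = -J := by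
    have h := A.sy i j
    have hs : ((A.x i).symm.trans (A.x j)).source = A.D i (A.x j).source := A.tr_source i j
    rwa [hs] at h
  obtain ⟨r, hr, _, s, hb⟩ := sgn_loc (A.D_open i (A.x j).open_source) hc (A.isWD_two i j) hs
    (A.x_mem_D hi hj)
  refine ⟨s, (A.x i).source ∩ A.x i ⁻¹' Metric.ball (A.x i m) r,
    (A.x i).isOpen_inter_preimage Metric.isOpen_ball, ⟨hi, Metric.mem_ball_self hr⟩, ?_⟩
  filter_upwards [hb] with y hy hyD
  apply hy
  have h1 := hyD.2.1.2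
  rw [mem_preimage, (A.x i).right_inv hyD.1] at h1
  exact h1

theorem eq_of_smul_J (h : ((s : ℤ) : ℝ) • J = ((s' : ℤ) : ℝ) • J) : s = s' := by
  have h1 := congrFun (congrFun h 0) 1
  simp only [Matrix.smul_apply, J, Matrix.of_apply, Matrix.cons_val', Matrix.cons_val_zero,
    Matrix.cons_val_one, smul_eq_mul, mul_one] at h1
  exact Units.ext (by exact_mod_cast h1)

theorem Sg.unique (hi : m ∈ (A.x i).source) (hj : m ∈ (A.x j).source) (h : A.Sg i j s m)
    (h' : A.Sg i j s' m) : s = s' := by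
  obtain ⟨N, hN, hm, h⟩ := h
  obtain ⟨N', hN', hm', h'⟩ := h'
  have hO : IsOpen (A.D i (N ∩ N' ∩ (A.x j).source)) :=
    A.D_open i ((hN.inter hN').inter (A.x j).open_source)
  obtain ⟨y, hy, hy'⟩ := (Measure.dense_of_ae (h.and h')).inter_open_nonempty _ hO
    ⟨A.x i m, A.x_mem_D hi ⟨⟨hm, hm'⟩, hj⟩⟩
  have h1 := hy'.1 ⟨hy.1, hy.2.1.1, hy.2.2⟩
  have h2 := hy'.2 ⟨hy.1, hy.2.1.2, hy.2.2⟩
  exact eq_of_smul_J (h1.symm.trans h2)

theorem sgn_spec (hi : m ∈ (A.x i).source) (hj : m ∈ (A.x j).source) :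
    A.Sg i j (A.sgn i j m) m := by
  obtain ⟨s, hs⟩ := exists_sg hi hj
  unfold sgn
  split_ifs with h
  · exact h
  · rcases Int.units_eq_one_or s with rfl | rfl
    · exact absurd hs h
    · exact hs

theorem Sg.near (h : A.Sg i j s m) : ∀ᶠ m' in 𝓝 m, A.Sg i j s m' := by
  obtain ⟨N, hN, hm, h⟩ := h
  filter_upwards [hN.mem_nhds hm] with m' hm'
  exact ⟨N, hN, hm', h⟩

/-- the signs form a sign system on the cover by the chart domains -/
theorem sys (A : AtPM M ι) : SgSys (fun i => (A.x i).source) A.sgn := by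
  refine ⟨fun i => (A.x i).open_source, A.cov, ?_, ?_⟩
  · intro i j m hi hj
    filter_upwards [(sgn_spec hi hj).near, (A.x i).open_source.mem_nhds hi,
      (A.x j).open_source.mem_nhds hj] with m' h1 hi' hj'
    exact Sg.unique hi' hj' (sgn_spec hi' hj') h1
  · intro i j k m hi hj hk
    obtain ⟨N₁, hN₁, hm₁, h₁⟩ := sgn_spec hi hk
    obtain ⟨N₂, hN₂, hm₂, h₂⟩ := sgn_spec hi hj
    obtain ⟨N₃, hN₃, hm₃, h₃⟩ := sgn_spec hj hk
    have h₃' := A.ae_tr (i := i) (j := j)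
      (P := fun x => x ∈ A.D j (N₃ ∩ (A.x k).source) →
        (A.G j k x)ᵀ * J * A.G j k x = ((A.sgn j k m : ℤ) : ℝ) • J) (h₃.mono fun x hx _ => hx)
    have hO : IsOpen (A.D i (N₁ ∩ N₂ ∩ N₃ ∩ ((A.x j).source ∩ (A.x k).source))) :=
      A.D_open i (((hN₁.inter hN₂).inter hN₃).inter ((A.x j).open_source.inter (A.x k).open_source))
    obtain ⟨y, hy, ⟨h1, h2⟩, h3, h4⟩ :=
      (Measure.dense_of_ae ((h₁.and h₂).and (h₃'.and (A.cocycle i j k)))).inter_open_nonempty _ hO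
        ⟨A.x i m, A.x_mem_D hi ⟨⟨⟨hm₁, hm₂⟩, hm₃⟩, hj, hk⟩⟩
    have hyj : y ∈ A.D i (A.x j).source := ⟨hy.1, hy.2.2.1⟩
    have e1 := h1 ⟨hy.1, hy.2.1.1.1, hy.2.2.2⟩
    have e2 := h2 ⟨hy.1, hy.2.1.1.2, hy.2.2.1⟩
    have e4 := h4 ⟨hy.1, hy.2.2⟩
    have hyk : A.tr i j y ∈ A.D j (N₃ ∩ (A.x k).source) := by
      refine ⟨?_, ?_⟩
      · rw [tr_apply]
        exact (A.x j).map_source hyj.2
      · rw [mem_preimage, A.symm_tr hyj]
        exact ⟨hy.2.1.2, hy.2.2.2⟩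
    have e3 := h3 hyj hyk
    have e5 : (A.G i k y)ᵀ * J * A.G i k y =
        (((A.sgn i j m * A.sgn j k m : ℤˣ) : ℤ) : ℝ) • J := by
      rw [e4]
      calc (A.G j k (A.tr i j y) * A.G i j y)ᵀ * J * (A.G j k (A.tr i j y) * A.G i j y)
          = (A.G i j y)ᵀ * ((A.G j k (A.tr i j y))ᵀ * J * A.G j k (A.tr i j y)) * A.G i j y := by
            rw [Matrix.transpose_mul]
            simp only [Matrix.mul_assoc]
        _ = ((A.sgn j k m : ℤ) : ℝ) • ((A.G i j y)ᵀ * J * A.G i j y) := by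
            rw [e3, Matrix.mul_smul, Matrix.smul_mul]
        _ = _ := by
            rw [e2, smul_smul, Units.val_mul, Int.cast_mul, mul_comm]
    exact eq_of_smul_J (e1.symm.trans e5)

end AtPM

end Pool.Agent.SYD
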