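import Pool.Agent.SYD.StL
import Pool.Agent.SYD.Cut
import Pool.Agent.SYD.PGs

/-!
# SYD/StK: Stokes for a global primitive

`Gd.pair_lp`: `LpL.loc`; near a point `α = λ_i + γ` (`Prim.loc`): `pair β λ_i ∈ L¹_loc` (`LpL.mul`, `lam_fm`, `AC.lp`) and `pair β γ ∈ L¹_loc`
(`Gd.l1`).
`Gd.exact`: choose an open `O` with `T ⊆ O`, `closure O ⊆ N` compact (normality: `M` is compact Hausdorff), and `θ, δ` of class `AC univ` with `θ = 1` on a
neighbourhood of `T`, `θ = 0` off `O` (`cutoff` with `K₁ = Oᶜ`, `K₂ = T`).  `Gd.st` with `v = θ`, `W = N`, `T = closure O`: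
`∫ (θ pair β γ + h pair β δ) = 0`; a.e. off `T`: `β = 0`; a.e. on `T`: `θ = 1`, `δ = 0` (`AC.zero_of_const` on the neighbourhood): so the integrand is
`pair β γ`.
`Gd.stokes`: on `D i N`: `α i = lam i i + γ i` a.e.; off `D i N`: `β i = 0` a.e. and `u = 0`.  Split the integral (both parts integrable: `β = 0` off `T`),
`stokes_lam` and `Gd.exact`.
-/

open MeasureTheory Set Filter Topology
open scoped ContDiff Matrix ENNReal

namespace Pool.Agent.SYD

open Pool.Agent.SYH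

private theorem pair_add_right (u v w : R4) : pair u (v + w) = pair u v + pair u w := by
  simp only [pair, Pi.add_apply]
  ring

private theorem pair_zero_left (v : R4) : pair 0 v = 0 := by
  simp [pair]

private theorem pair_zero_right (v : R4) : pair v 0 = 0 := by
  simp [pair]

private theorem lpl_pair {Ω : Set R4} {u v : R4 → R4} (hu : ∀ a, LpL 2 Ω (fun y => u y a))
    (hv : ∀ a, LpL 2 Ω (fun y => v y a)) : LpL 1 Ω (fun y => pair (u y) (v y)) := by
  unfold pair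
  exact (((hu 0).mul (hv 1)).sub ((hu 1).mul (hv 0))).add
    (((hu 2).mul (hv 3)).sub ((hu 3).mul (hv 2)))

namespace At

variable {M : Type*} [TopologicalSpace M] [T2Space M] [CompactSpace M] {ι : Type*} {A : At M ι}
  {u : M → ℝ} {β α : ι → R4 → R4} {T N : Set M} {i : ι}

theorem Gd.pair_lp (hu : A.Gd u β) (hα : A.Prim α) (i : ι) :
    LpL 1 (A.D i univ) (fun y => pair (β i y) (α i y)) := by
  refine LpL.loc fun y hy => ?_
  obtain ⟨N, j, hmN, hNo, hNs, h, γ, hPG, hae⟩ := hα.loc ((A.x i).symm y)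
  refine ⟨A.D i N, A.D_open i hNo, ⟨hy.1, hmN⟩, ?_⟩
  refine LpL.mono ?_ inter_subset_left
  have h1 : LpL 1 (A.D i N) (fun y => pair (β i y) (A.lam j i y)) :=
    lpl_pair (fun a => (hu.ac.lp i a).mono (A.D_mono i (subset_univ _)))
      (fun a => ((A.lam_fm j).lp i a).mono (A.D_mono i hNs))
  have h2 := hu.l1 N h γ hNo hPG i
  refine (h1.add h2).congr ?_
  filter_upwards [hae i] with z hz hz'
  rw [hz hz', pair_add_right]

private theorem zero_off' (hu : A.AC univ u β) (hT : IsCompact T) (h0 : ∀ m ∉ T, u m = 0) (i : ι) :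
    ∀ᵐ y, y ∈ A.D i Tᶜ → β i y = 0 :=
  AC.zero_of_const (A := A) isOpen_univ hu (t := 0) hT.isClosed.isOpen_compl
    (subset_univ _) (fun m hm => h0 m hm) i

theorem Gd.exact (hu : A.Gd u β) (hT : IsCompact T) (hN : IsOpen N)
    (hs : T ⊆ N) (hs' : N ⊆ (A.x i).source) (h0 : ∀ m ∉ T, u m = 0) {h : M → ℝ}
    {γ : ι → R4 → R4} (hh : A.PG N h γ) : ∫ y in A.D i N, pair (β i y) (γ i y) = 0 := by
  obtain ⟨O, hO, hTO, hON⟩ := normal_exists_closure_subset hT.isClosed hN hs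
  obtain ⟨θ, δ, O₁, O₂, hθ, hO₁, hO₂, hK₁, hK₂, hθ₁, hθ₂⟩ := A.cutoff (K₁ := Oᶜ) (K₂ := T)
    hO.isClosed_compl hT.isClosed (disjoint_left.2 fun m hm hm' => hm (hTO hm'))
  have h1 := hu.st N h γ θ δ (closure O) i hN hh hθ isClosed_closure.isCompact
    (subset_inter hON (hON.trans hs'))
    (fun m hm => hθ₁ m (hK₁ (fun hmO => hm (subset_closure hmO))))
  rw [← h1]
  refine setIntegral_congr_ae (A.D_open i hN).measurableSet ?_
  have h2 := AC.zero_of_const (A := A) isOpen_univ hθ (t := 1) hO₂ (subset_univ _) hθ₂ i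
  filter_upwards [zero_off' hu.ac hT h0 i, h2] with y hy hy2 hyN
  by_cases hm : (A.x i).symm y ∈ T
  · have h3 : (A.x i).symm y ∈ O₂ := hK₂ hm
    rw [hθ₂ _ h3, hy2 ⟨hyN.1, h3⟩, pair_zero_right, mul_zero, add_zero, one_mul]
  · rw [hy ⟨hyN.1, hm⟩, pair_zero_left, pair_zero_left, mul_zero, mul_zero, add_zero]

private theorem int_of_lpl {Ω K : Set R4} (hΩ : IsOpen Ω) (hK : IsCompact K) (hs : K ⊆ Ω)
    {f : R4 → ℝ} (hf : LpL 1 Ω f) (h0 : ∀ᵐ y, y ∈ Ω \ K → f y = 0) : IntegrableOn f Ω := by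
  have h1 : IntegrableOn f K := by
    have := hf K hs hK
    rwa [memLp_one_iff_integrable] at this
  exact h1.of_ae_sdiff_eq_zero hΩ.measurableSet.nullMeasurableSet h0

theorem Gd.stokes (hu : A.Gd u β) (hT : IsCompact T) (hs : T ⊆ N) (h0 : ∀ m ∉ T, u m = 0)
    (hα : A.Nice α N i) :
    ∫ y in A.D i univ, (pair (β i y) (α i y) + 2 * u ((A.x i).symm y)) = 0 := by
  obtain ⟨hNo, hNs, h, γ, hPG, hae⟩ := hα
  have hsT : T ⊆ (A.x i).source := hs.trans hNs
  have mU : MeasurableSet (A.D i univ) := (A.D_open i isOpen_univ).measurableSet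
  have mN : MeasurableSet (A.D i N) := (A.D_open i hNo).measurableSet
  have hNU : A.D i N ⊆ A.D i univ := A.D_mono i (subset_univ _)
  have hK : IsCompact (A.x i '' T) :=
    hT.image_of_continuousOn ((A.x i).continuousOn.mono hsT)
  have hKN : A.x i '' T ⊆ A.D i N := by
    rintro _ ⟨m, hm, rfl⟩
    exact A.x_mem_D (hsT hm) (hs hm)
  have hnotT : ∀ y, (A.x i).symm y ∈ T → y ∈ (A.x i).target → y ∈ A.x i '' T := fun y hy hy' =>
    ⟨_, hy, (A.x i).right_inv hy'⟩
  have hz := zero_off' hu.ac hT h0 i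
  -- restriction to `D i N`
  have hred : ∀ F : R4 → R4, ∫ y in A.D i univ, (pair (β i y) (F y) + 2 * u ((A.x i).symm y)) =
      ∫ y in A.D i N, (pair (β i y) (F y) + 2 * u ((A.x i).symm y)) := by
    intro F
    apply setIntegral_eq_of_subset_of_ae_sdiff_eq_zero mU.nullMeasurableSet hNU
    filter_upwards [hz] with y hy hy'
    have h1 : (A.x i).symm y ∉ T := fun hm => hy'.2 ⟨hy'.1.1, hs hm⟩
    rw [hy ⟨hy'.1.1, h1⟩, h0 _ h1, pair_zero_left, mul_zero, add_zero]
  have hl2 : ∀ a, LpL 2 (A.D i N) (fun y => A.lam i i y a) := fun a =>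
    ((A.lam_fm i).lp i a).mono (A.D_mono i hNs)
  have hb2 : ∀ a, LpL 2 (A.D i N) (fun y => β i y a) := fun a => (hu.ac.lp i a).mono hNU
  have hcu : ContinuousOn (fun y => 2 * u ((A.x i).symm y)) (A.D i N) :=
    continuousOn_const.mul ((A0s_cont hu.ac.cont i).mono hNU)
  have i1 : IntegrableOn (fun y => pair (β i y) (A.lam i i y) + 2 * u ((A.x i).symm y))
      (A.D i N) := by
    refine int_of_lpl (A.D_open i hNo) hK hKN
      ((lpl_pair hb2 hl2).add (LpL.of_cont (A.D_open i hNo) hcu)) ?_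
    filter_upwards [hz] with y hy hy'
    have h1 : (A.x i).symm y ∉ T := fun hm => hy'.2 (hnotT y hm hy'.1.1)
    rw [hy ⟨hy'.1.1, h1⟩, h0 _ h1, pair_zero_left, mul_zero, add_zero]
  have i2 : IntegrableOn (fun y => pair (β i y) (γ i y)) (A.D i N) := by
    refine int_of_lpl (A.D_open i hNo) hK hKN (hu.l1 N h γ hNo hPG i) ?_
    filter_upwards [hz] with y hy hy'
    have h1 : (A.x i).symm y ∉ T := fun hm => hy'.2 (hnotT y hm hy'.1.1)
    rw [hy ⟨hy'.1.1, h1⟩, pair_zero_left]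
  have e1 : ∫ y in A.D i N, (pair (β i y) (α i y) + 2 * u ((A.x i).symm y)) =
      ∫ y in A.D i N, ((pair (β i y) (A.lam i i y) + 2 * u ((A.x i).symm y)) +
        pair (β i y) (γ i y)) := by
    refine setIntegral_congr_ae mN ?_
    filter_upwards [hae i] with y hy hy'
    rw [hy hy', pair_add_right]
    ring
  rw [hred (α i), e1, integral_add i1 i2, ← hred (A.lam i i),
    stokes_lam hu.ac hT hsT h0, hu.exact hT hNo hs hNs h0 hPG, add_zero]

end At

end Pool.Agent.SYD
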