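import Pool.Agent.SYD.Lam
import Pool.Agent.SYH.DvS

/-!
# SYD/StL: Stokes in one chart for the standard primitive

As `SYH/Par.stokes` with `α i` replaced by `lam i i`, which is of class `L²_loc` on `D i (x i).source = D i univ` (`lam_fm`) with
`Curl = J` (`lam_curl`).
-/

open MeasureTheory Set Filter Topology
open scoped ContDiff Matrix ENNReal

namespace Pool.Agent.SYD

open Pool.Agent.SYH

namespace At

variable {M : Type*} [TopologicalSpace M] [T2Space M] {ι : Type*} {A : At M ι}
  {χ : M → ℝ} {β : ι → R4 → R4} {T : Set M} {i : ι}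

/-- the compact set `x i '' T` -/
private theorem cpt_image (hT : IsCompact T) (hs : T ⊆ (A.x i).source) :
    IsCompact (A.x i '' T) := hT.image_of_continuousOn ((A.x i).continuousOn.mono hs)

private theorem image_sub (hs : T ⊆ (A.x i).source) : A.x i '' T ⊆ A.D i univ := by
  rintro _ ⟨m, hm, rfl⟩
  exact A.x_mem_D (hs hm) (mem_univ _)

private theorem mem_T (hs : T ⊆ (A.x i).source) {y : R4} (hy : y ∈ A.D i univ)
    (h : (A.x i).symm y ∈ T) : y ∈ A.x i '' T := by
  have h1 := (A.mem_D.1 hy).1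
  exact ⟨_, h, (A.x i).right_inv h1⟩

private theorem zero_off (hχ : A.AC univ χ β) (hT : IsCompact T)
    (h0 : ∀ m ∉ T, χ m = 0) (hs : T ⊆ (A.x i).source) :
    ∀ᵐ y, y ∈ A.D i univ \ A.x i '' T → β i y = 0 := by
  have h1 := AC.zero_of_const (A := A) isOpen_univ hχ (t := 0) hT.isClosed.isOpen_compl
    (subset_univ _) (fun m hm => h0 m hm) i
  filter_upwards [h1] with y hy hy'
  apply hy
  rw [A.mem_D]
  refine ⟨(A.mem_D.1 hy'.1).1, fun h => hy'.2 (mem_T hs hy'.1 h)⟩

private theorem meas_D (i : ι) : MeasurableSet (A.D i univ) := (A.D_open i isOpen_univ).measurableSet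

theorem stokes_lam {χ : M → ℝ} {β : ι → R4 → R4} {T : Set M} {i : ι} (hχ : A.AC univ χ β)
    (hT : IsCompact T) (hs : T ⊆ (A.x i).source) (h0 : ∀ m ∉ T, χ m = 0) :
    ∫ y in A.D i univ, (pair (β i y) (A.lam i i y) + 2 * χ ((A.x i).symm y)) = 0 := by
  classical
  have hD : A.D i (A.x i).source = A.D i univ := by
    ext y
    exact ⟨fun h => ⟨h.1, mem_univ _⟩, fun h => ⟨h.1, (A.x i).map_target h.1⟩⟩
  have hl2 : ∀ a, LpL 2 (A.D i univ) (fun y => A.lam i i y a) := by
    intro a
    have := (A.lam_fm i).lp i a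
    rwa [hD] at this
  have hcu : Curl (A.D i univ) (A.lam i i) (fun _ => J) := by
    have := A.lam_curl i i
    rwa [hD] at this
  have hΩ : IsOpen (A.D i univ) := A.D_open i isOpen_univ
  have hK := cpt_image (A := A) hT hs
  have hKs := image_sub (A := A) hs
  have hc : ContinuousOn (fun y => χ ((A.x i).symm y)) (A.D i univ) := by
    refine (hχ.cont.comp ((A.x i).continuousOn_symm.mono fun y hy => (A.mem_D.1 hy).1)
      fun y _ => mem_univ _)
  set ψ : R4 → ℝ := (A.D i univ).indicator (fun y => χ ((A.x i).symm y)) with hψ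
  have hψ1 : ∀ y ∈ A.D i univ, ψ y = χ ((A.x i).symm y) := fun y hy => indicator_of_mem hy _
  have hψ0 : ∀ y ∉ A.x i '' T, ψ y = 0 := by
    intro y hy
    by_cases h : y ∈ A.D i univ
    · rw [hψ1 y h]
      exact h0 _ fun h' => hy (mem_T hs h h')
    · exact indicator_of_notMem h _
  have hψc : Continuous ψ := by
    rw [continuous_iff_continuousAt]
    intro y
    by_cases h : y ∈ A.D i univ
    · refine (hc.continuousAt (hΩ.mem_nhds h)).congr ?_
      filter_upwards [hΩ.mem_nhds h] with z hz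
      exact (hψ1 z hz).symm
    · have h' : y ∉ A.x i '' T := fun h' => h (hKs h')
      have : (fun _ => (0 : ℝ)) =ᶠ[𝓝 y] ψ := by
        filter_upwards [hK.isClosed.isOpen_compl.mem_nhds h'] with z hz
        exact (hψ0 z hz).symm
      exact continuousAt_const.congr this
  have hsup : Function.support ψ ⊆ A.x i '' T := by
    intro y hy
    by_contra h
    exact hy (hψ0 y h)
  have hts : tsupport ψ ⊆ A.x i '' T := closure_minimal hsup hK.isClosed
  have hψK : HasCompactSupport ψ := HasCompactSupport.of_support_subset_isCompact hK hsup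
  have ha : ∀ a, LpL 2 (A.D i univ) (fun y => A.lam i i y a) := fun a => hl2 a
  have ha1 : ∀ a, LpL 1 (A.D i univ) (fun y => A.lam i i y a) := fun a => (hl2 a).exp A.one_le
  have hb : ∀ a, LpL 2 (A.D i univ) (fun y => β i y a) := fun a => (hχ.lp i a).exp A.two_le
  have hcomp : ∀ (q : ℝ≥0∞), (∀ a, LpL q (A.D i univ) (fun y => A.lam i i y a)) → ∀ b c a : Fin 4,
      LpL q (A.D i univ) (fun y => (A.lam i i y c • (Pi.single b 1 : R4) - A.lam i i y b • (Pi.single c 1 : R4) : R4) a) := by
    intro q hq b c a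
    have h1 := ((hq c).const_mul ((Pi.single b 1 : R4) a)).sub
      ((hq b).const_mul ((Pi.single c 1 : R4) a))
    refine h1.congr (Eventually.of_forall fun y _ => ?_)
    simp only [Pi.sub_apply, Pi.smul_apply, smul_eq_mul]
    ring
  have hJ : ∀ (q : ℝ≥0∞) (a b : Fin 4), LpL q (A.D i univ) (fun _ => J a b) := fun q a b =>
    LpL.of_cont hΩ continuousOn_const
  have hd := (hcu 0 1).add (hcu 2 3) (hcomp 1 ha1 0 1) (hcomp 1 ha1 2 3)
    (hJ 1 0 1) (hJ 1 2 3)
  have hg : WG (A.D i univ) ψ (β i) :=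
    (hχ.wg i).congr hψ1 (Eventually.of_forall fun _ _ => rfl)
  have hw2 : ∀ a : Fin 4, LpL 2 (A.D i univ) (fun y =>
      ((A.lam i i y 1 • (Pi.single 0 1 : R4) - A.lam i i y 0 • (Pi.single 1 1 : R4)) +
        (A.lam i i y 3 • (Pi.single 2 1 : R4) - A.lam i i y 2 • (Pi.single 3 1 : R4)) : R4) a) := fun a =>
    (hcomp 2 ha 0 1 a).add (hcomp 2 ha 2 3 a)
  have key := div_sob hΩ hw2 ((hJ 2 0 1).add (hJ 2 2 3)) hd hψc hψK (hts.trans hKs) hb hg
  have e1 : ∀ y, (∑ a, ((A.lam i i y 1 • (Pi.single 0 1 : R4) - A.lam i i y 0 • (Pi.single 1 1 : R4)) +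
        (A.lam i i y 3 • (Pi.single 2 1 : R4) - A.lam i i y 2 • (Pi.single 3 1 : R4)) : R4) a * β i y a) =
      pair (β i y) (A.lam i i y) := by
    intro y
    simp [Fin.sum_univ_four, pair]
    ring
  have e2 : J 0 1 + J 2 3 = 2 := by simp [J]; norm_num
  have h2 : ∫ y in A.D i univ, (pair (β i y) (A.lam i i y) + 2 * χ ((A.x i).symm y)) =
      ∫ y in A.x i '' T, (pair (β i y) (A.lam i i y) + 2 * ψ y) := by
    rw [setIntegral_eq_of_subset_of_ae_sdiff_eq_zero (meas_D i).nullMeasurableSet hKs]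
    · refine setIntegral_congr_fun hK.measurableSet fun y hy => ?_
      simp only [hψ1 y (hKs hy)]
    · filter_upwards [zero_off hχ hT h0 hs] with y hy hy'
      rw [hy hy', h0 _ (fun h => hy'.2 (mem_T hs hy'.1 h))]
      simp [pair]
  have h3 : ∫ y in A.x i '' T, (pair (β i y) (A.lam i i y) + 2 * ψ y) =
      ∫ y in tsupport ψ, (pair (β i y) (A.lam i i y) + 2 * ψ y) := by
    apply setIntegral_eq_of_subset_of_ae_diff_eq_zero hK.measurableSet.nullMeasurableSet hts
    set W : Set M := (A.x i).source ∩ A.x i ⁻¹' (tsupport ψ)ᶜ with hW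
    have hWo : IsOpen W := (A.x i).isOpen_inter_preimage (isClosed_tsupport ψ).isOpen_compl
    have hW0 : ∀ m ∈ W, χ m = 0 := by
      intro m hm
      have h1 : A.x i m ∈ A.D i univ := A.x_mem_D hm.1 (mem_univ _)
      have h2 := hψ1 _ h1
      rw [(A.x i).left_inv hm.1] at h2
      rw [← h2]
      exact image_eq_zero_of_notMem_tsupport hm.2
    have h1 := AC.zero_of_const (A := A) isOpen_univ hχ (t := 0) hWo (subset_univ _) hW0 i
    filter_upwards [h1] with y hy hy'
    have h4 : y ∈ A.D i W := by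
      have h5 := (A.mem_D.1 (hKs hy'.1)).1
      rw [A.mem_D]
      refine ⟨h5, (A.x i).map_target h5, ?_⟩
      rw [mem_preimage, (A.x i).right_inv h5]
      exact hy'.2
    rw [hy h4, image_eq_zero_of_notMem_tsupport hy'.2]
    simp [pair]
  rw [h2, h3, ← key]
  refine integral_congr_ae (Eventually.of_forall fun y => ?_)
  simp only [e1, e2]

end At

end Pool.Agent.SYD
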