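import Pool.Agent.SYH.Bas

/-!
# SYD/Wkl: weak limits of bounded sequences in `L²`

`μ = volume.restrict W`, `H = Lp ℝ 2 μ` (a Hilbert space), `h n ∈ H` with `‖h n‖ ≤ R` (`R² = C`).  For `v ∈ H` the sequence `⟪h n, v⟫` is bounded
(`|⟪h n, v⟫| ≤ R ‖v‖`), so it converges along the ultrafilter `U` (`isCompact_Icc`, `IsCompact.ultrafilter_le_nhds'`) to some `ℓ v`.  `ℓ` is linear
(uniqueness of limits) with `|ℓ v| ≤ R ‖v‖`; Riesz (`InnerProductSpace.toDual`): `ℓ v = ⟪g, v⟫`.  `L2.inner_def`, `MemLp.coeFn_toLp`.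
-/

open MeasureTheory Set Filter Topology
open scoped ContDiff Matrix ENNReal

namespace Pool.Agent.SYD

open Pool.Agent.SYH

theorem weak_lim (U : Ultrafilter ℕ) {W : Set R4} {h : ℕ → R4 → ℝ} {C : ℝ≥0∞} (hC : C ≠ ⊤)
    (hm : ∀ n, AEStronglyMeasurable (h n) (volume.restrict W))
    (hb : ∀ n, eLpNorm (h n) 2 (volume.restrict W) ≤ C) :
    ∃ g : R4 → ℝ, MemLp g 2 (volume.restrict W) ∧ ∀ v : R4 → ℝ, MemLp v 2 (volume.restrict W) →
      Tendsto (fun n => ∫ x in W, h n x * v x) U (𝓝 (∫ x in W, g x * v x)) := by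
  have hL : ∀ n, MemLp (h n) 2 (volume.restrict W) := fun n => ⟨hm n, (hb n).trans_lt hC.lt_top⟩
  let H : ℕ → Lp ℝ 2 (volume.restrict W) := fun n => (hL n).toLp (h n)
  have hH : ∀ n, ‖H n‖ ≤ C.toReal := fun n => by
    rw [Lp.norm_toLp]
    exact ENNReal.toReal_mono hC (hb n)
  have hex : ∀ v : Lp ℝ 2 (volume.restrict W), ∃ l : ℝ, |l| ≤ C.toReal * ‖v‖ ∧
      Tendsto (fun n => inner ℝ (H n) v) U (𝓝 l) := by
    intro v
    have hb' : ∀ n, inner ℝ (H n) v ∈ Icc (-(C.toReal * ‖v‖)) (C.toReal * ‖v‖) := fun n => by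
      rw [mem_Icc, ← abs_le]
      exact (abs_real_inner_le_norm _ _).trans (mul_le_mul_of_nonneg_right (hH n) (norm_nonneg _))
    obtain ⟨l, hl, hle⟩ := (isCompact_Icc (a := -(C.toReal * ‖v‖))
      (b := C.toReal * ‖v‖)).ultrafilter_le_nhds (U.map fun n => inner ℝ (H n) v) (by
        rw [Ultrafilter.coe_map, Filter.le_principal_iff, Filter.mem_map]
        exact Filter.univ_mem' hb')
    exact ⟨l, abs_le.2 hl, hle⟩
  choose l hl1 hl2 using hex
  let L : Lp ℝ 2 (volume.restrict W) →L[ℝ] ℝ := LinearMap.mkContinuous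
    { toFun := l
      map_add' := fun v w => by
        have h1 : Tendsto (fun n => inner ℝ (H n) (v + w)) U (𝓝 (l v + l w)) := by
          simp only [inner_add_right]
          exact (hl2 v).add (hl2 w)
        exact tendsto_nhds_unique (hl2 (v + w)) h1
      map_smul' := fun c v => by
        have h1 : Tendsto (fun n => inner ℝ (H n) (c • v)) U (𝓝 (c * l v)) := by
          simp only [inner_smul_right]
          exact (hl2 v).const_mul c
        exact tendsto_nhds_unique (hl2 (c • v)) h1 } C.toReal (fun v => hl1 v)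
  let g : Lp ℝ 2 (volume.restrict W) :=
    (InnerProductSpace.toDual ℝ (Lp ℝ 2 (volume.restrict W))).symm L
  have hg : ∀ v, inner ℝ g v = l v := fun v => InnerProductSpace.toDual_symm_apply
  refine ⟨g, Lp.memLp g, fun v hv => ?_⟩
  have h1 := hl2 (hv.toLp v)
  rw [← hg] at h1
  have e1 : ∀ n, inner ℝ (H n) (hv.toLp v) = ∫ x in W, h n x * v x := by
    intro n
    rw [L2.inner_def]
    refine integral_congr_ae ?_
    filter_upwards [(hL n).coeFn_toLp, hv.coeFn_toLp] with x h2 h3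
    rw [h2, h3]
    simp [mul_comm]
  have e2 : inner ℝ g (hv.toLp v) = ∫ x in W, g x * v x := by
    rw [L2.inner_def]
    refine integral_congr_ae ?_
    filter_upwards [hv.coeFn_toLp] with x h3
    rw [h3]
    simp [mul_comm]
  rw [e2] at h1
  exact h1.congr e1

end Pool.Agent.SYD
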